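import Pool.Agent.Lib.MP_b5c453_co.AsSplit

/-!
MP_b5c453_co, sharp asymptotics: absorbing the relations of single gadget sets and of non-active
pairs of gadget sets by private points.
-/

set_option autoImplicit false

open Finset

namespace Pool.Agent.Lib.MP_b5c453_co.As

section

variable {X₀ A G : Type} [Fintype X₀] [Fintype G]

/-- private points: non-active pairs -/
abbrev Priv (Act : Sym2 G → Prop) : Type := {s : Sym2 G // ¬ Act s}

/-- the set system with private points -/
def memX (memA : A → X₀ → Prop) (memG : G → X₀ → Prop) (Act : Sym2 G → Prop) :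
    A ⊕ G → X₀ ⊕ (Priv Act ⊕ Unit) → Prop
  | Sum.inl a, Sum.inl x => memA a x
  | Sum.inr g, Sum.inl x => memG g x
  | Sum.inr g, Sum.inr (Sum.inl s) => g ∈ s.1
  | _, _ => False

open scoped Classical in
/-- core sum over the common elements of a pair of gadget sets -/
noncomputable def sgm (memG : G → X₀ → Prop) {Q : Type} [AddCommGroup Q] (f : X₀ → Q)
    (s : Sym2 G) : Q :=
  ∑ x, if (∀ g ∈ s, memG g x) then f x else 0

open scoped Classical in
/-- the relations on the core -/
structure CoreRel (memA : A → X₀ → Prop) (memG : G → X₀ → Prop) (Act : Sym2 G → Prop)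
    {Q : Type} [AddCommGroup Q] (f : X₀ → Q) : Prop where
  aa : ∀ a a', ∑ x, (if memA a x ∧ memA a' x then f x else 0) = 0
  ag : ∀ a g, ∑ x, (if memA a x ∧ memG g x then f x else 0) = 0
  act : ∀ s, Act s → sgm memG f s = 0

open scoped Classical in
/-- value at a private point -/
noncomputable def pr (memG : G → X₀ → Prop) (Act : Sym2 G → Prop) {Q : Type} [AddCommGroup Q]
    (f : X₀ → Q) (s : Sym2 G) : Q :=
  if s.IsDiag then - sgm memG f s + ∑ t : Priv Act,
    (if ¬ t.1.IsDiag ∧ ∀ g ∈ s, g ∈ t.1 then sgm memG f t.1 else 0)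
  else - sgm memG f s

open scoped Classical in
/-- extension to all points -/
noncomputable def ext (memG : G → X₀ → Prop) (Act : Sym2 G → Prop) {Q : Type} [AddCommGroup Q]
    (f : X₀ → Q) : X₀ ⊕ (Priv Act ⊕ Unit) → Q
  | Sum.inl x => f x
  | Sum.inr (Sum.inl s) => pr memG Act f s.1
  | Sum.inr (Sum.inr _) => - (∑ x, f x + ∑ s : Priv Act, pr memG Act f s.1)

variable (memA : A → X₀ → Prop) (memG : G → X₀ → Prop) (Act : Sym2 G → Prop)

lemma sgm_map {Q Q' : Type} [AddCommGroup Q] [AddCommGroup Q'] (φ : Q →+ Q') (f : X₀ → Q)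
    (s : Sym2 G) : sgm memG (fun x => φ (f x)) s = φ (sgm memG f s) := by
  classical
  unfold sgm
  rw [map_sum]
  refine sum_congr rfl fun x _ => ?_
  split_ifs
  · rfl
  · rw [map_zero]

lemma pr_map {Q Q' : Type} [AddCommGroup Q] [AddCommGroup Q'] (φ : Q →+ Q') (f : X₀ → Q)
    (s : Sym2 G) : pr memG Act (fun x => φ (f x)) s = φ (pr memG Act f s) := by
  classical
  unfold pr
  split_ifs
  · rw [map_add, map_neg, sgm_map, map_sum]
    congr 1
    refine sum_congr rfl fun t _ => ?_
    split_ifs
    · exact sgm_map memG φ f t.1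
    · rw [map_zero]
  · rw [sgm_map, map_neg]

lemma ext_map {Q Q' : Type} [AddCommGroup Q] [AddCommGroup Q'] (φ : Q →+ Q') (f : X₀ → Q)
    (z : X₀ ⊕ (Priv Act ⊕ Unit)) :
    ext memG Act (fun x => φ (f x)) z = φ (ext memG Act f z) := by
  classical
  rcases z with x | s | _
  · rfl
  · exact pr_map memG Act φ f s.1
  · simp only [ext, pr_map]
    rw [map_neg, map_add, map_sum, map_sum]

lemma sgm_mk {Q : Type} [AddCommGroup Q] (f : X₀ → Q) (g g' : G) :
    sgm memG f s(g, g') = by classical exact
      ∑ x, (if memG g x ∧ memG g' x then f x else 0) := by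
  classical
  unfold sgm
  refine sum_congr rfl fun x _ => ?_
  congr 1
  simp

open scoped Classical in
/-- sum over a pair of gadget sets -/
lemma sum_gg {Q : Type} [AddCommGroup Q] (f : X₀ ⊕ (Priv Act ⊕ Unit) → Q) (g g' : G) :
    ∑ z, (if memX memA memG Act (Sum.inr g) z ∧ memX memA memG Act (Sum.inr g') z then f z
      else 0) = sgm memG (fun x => f (Sum.inl x)) s(g, g') +
      ∑ s : Priv Act, (if g ∈ s.1 ∧ g' ∈ s.1 then f (Sum.inr (Sum.inl s)) else 0) := by
  rw [Fintype.sum_sum_type, Fintype.sum_sum_type, sgm_mk]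
  have h3 : ∑ u : Unit, (if memX memA memG Act (Sum.inr g) (Sum.inr (Sum.inr u)) ∧
      memX memA memG Act (Sum.inr g') (Sum.inr (Sum.inr u)) then f (Sum.inr (Sum.inr u))
      else 0) = 0 := sum_eq_zero fun u _ => if_neg fun h => h.1
  rw [h3, add_zero]
  refine congrArg₂ (· + ·) rfl (sum_congr rfl fun s _ => ?_)
  by_cases hh : g ∈ s.1 ∧ g' ∈ s.1
  · rw [if_pos hh]
    exact if_pos hh
  · rw [if_neg hh]
    exact if_neg hh

open scoped Classical in
/-- sum over a pair containing a big set -/
lemma sum_a {Q : Type} [AddCommGroup Q] (f : X₀ ⊕ (Priv Act ⊕ Unit) → Q) (a : A) (y : A ⊕ G) :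
    ∑ z, (if memX memA memG Act (Sum.inl a) z ∧ memX memA memG Act y z then f z
      else 0) = ∑ x, (if memX memA memG Act (Sum.inl a) (Sum.inl x) ∧
        memX memA memG Act y (Sum.inl x) then f (Sum.inl x) else 0) := by
  rw [Fintype.sum_sum_type]
  have h3 : ∑ u : Priv Act ⊕ Unit, (if memX memA memG Act (Sum.inl a) (Sum.inr u) ∧
      memX memA memG Act y (Sum.inr u) then f (Sum.inr u)
      else 0) = 0 := by
    refine sum_eq_zero fun u _ => if_neg fun h => ?_
    rcases u with u | u <;> exact h.1
  rw [h3, add_zero]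

open scoped Classical in
lemma priv_ne {Q : Type} [AddCommGroup Q] (h : Priv Act → Q) (g g' : G) (hg : g ≠ g') :
    ∑ s : Priv Act, (if g ∈ s.1 ∧ g' ∈ s.1 then h s else 0) =
      if hs : ¬ Act s(g, g') then h ⟨s(g, g'), hs⟩ else 0 := by
  by_cases hs : ¬ Act s(g, g')
  · rw [dif_pos hs, Finset.sum_eq_single (⟨s(g, g'), hs⟩ : Priv Act)]
    · rw [if_pos]
      simp
    · intro t _ ht
      rw [if_neg]
      intro h1
      exact ht (Subtype.ext ((Sym2.mem_and_mem_iff hg).1 h1))
    · intro h1
      exact absurd (mem_univ _) h1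
  · rw [dif_neg hs]
    refine sum_eq_zero fun t _ => ?_
    rw [if_neg]
    intro h1
    have := (Sym2.mem_and_mem_iff hg).1 h1
    rw [← this] at hs
    exact hs t.2

open scoped Classical in
lemma priv_eq {Q : Type} [AddCommGroup Q] (hAct : ∀ s, Act s → ¬ s.IsDiag)
    (h : Priv Act → Q) (g : G) :
    ∑ s : Priv Act, (if g ∈ s.1 ∧ g ∈ s.1 then h s else 0) =
      h ⟨s(g, g), fun hh => hAct _ hh (by simp)⟩ +
      ∑ s : Priv Act, (if ¬ s.1.IsDiag ∧ g ∈ s.1 then h s else 0) := by
  have h1 : ∀ s : Priv Act, (if g ∈ s.1 ∧ g ∈ s.1 then h s else 0) =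
      (if s = ⟨s(g, g), fun hh => hAct _ hh (by simp)⟩ then h s else 0) +
      (if ¬ s.1.IsDiag ∧ g ∈ s.1 then h s else 0) := by
    rintro ⟨s, hs⟩
    by_cases hd : s.IsDiag
    · by_cases hg : g ∈ s
      · have : s = s(g, g) := by
          induction s using Sym2.ind with
          | _ a b =>
            simp only [Sym2.mk_isDiag_iff, Sym2.mem_iff] at hd hg
            subst hd
            rcases hg with h | h <;> rw [h]
        subst this
        simp
      · have : (⟨s, hs⟩ : Priv Act) ≠ ⟨s(g, g), fun hh => hAct _ hh (by simp)⟩ := by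
          intro h2
          have h3 := congrArg Subtype.val h2
          simp only at h3
          rw [h3] at hg
          exact hg (by simp)
        rw [if_neg this]
        simp [hg]
    · have : (⟨s, hs⟩ : Priv Act) ≠ ⟨s(g, g), fun hh => hAct _ hh (by simp)⟩ := by
        intro h2
        have h3 := congrArg Subtype.val h2
        simp only at h3
        rw [h3] at hd
        exact hd (by simp)
      rw [if_neg this, zero_add]
      simp [hd]
  rw [sum_congr rfl fun s _ => h1 s, sum_add_distrib, Finset.sum_ite_eq' univ]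
  simp

open scoped Classical in
/-- all relations hold for the extension -/
theorem ext_rel (hAct : ∀ s, Act s → ¬ s.IsDiag) {Q : Type} [AddCommGroup Q] (f : X₀ → Q)
    (h : CoreRel memA memG Act f) :
    ∑ z, ext memG Act f z = 0 ∧
    ∀ y y', ∑ z, (if memX memA memG Act y z ∧ memX memA memG Act y' z then
      ext memG Act f z else 0) = 0 := by
  constructor
  · rw [Fintype.sum_sum_type, Fintype.sum_sum_type]
    simp only [ext, Finset.univ_unique, Finset.sum_singleton]
    abel
  · rintro (a | g) (a' | g')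
    · rw [sum_a]
      exact h.aa a a'
    · rw [sum_a]
      exact h.ag a g'
    · have e : ∀ z, (if memX memA memG Act (Sum.inr g) z ∧ memX memA memG Act (Sum.inl a') z then
          ext memG Act f z else 0) = (if memX memA memG Act (Sum.inl a') z ∧
          memX memA memG Act (Sum.inr g) z then ext memG Act f z else 0) := by
        intro z
        by_cases h1 : memX memA memG Act (Sum.inr g) z <;>
          by_cases h2 : memX memA memG Act (Sum.inl a') z <;> simp [h1, h2]
      rw [sum_congr rfl fun z _ => e z, sum_a]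
      exact h.ag a' g
    · rw [sum_gg]
      by_cases hg : g = g'
      · subst hg
        rw [priv_eq Act hAct]
        simp only [ext, pr]
        rw [if_pos (by simp)]
        have e : ∀ t : Priv Act, (if ¬ t.1.IsDiag ∧ g ∈ t.1 then
            (if t.1.IsDiag then - sgm memG f t.1 + ∑ t' : Priv Act,
              (if ¬ t'.1.IsDiag ∧ ∀ g ∈ t.1, g ∈ t'.1 then sgm memG f t'.1 else 0)
              else - sgm memG f t.1) else 0) =
            - (if ¬ t.1.IsDiag ∧ ∀ g' ∈ s(g, g), g' ∈ t.1 then sgm memG f t.1 else 0) := by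
          intro t
          by_cases hd : t.1.IsDiag
          · simp [hd]
          · simp only [hd, not_false_eq_true, true_and, if_false]
            have : (∀ g' ∈ s(g, g), g' ∈ t.1) ↔ g ∈ t.1 := by simp
            rw [if_congr this rfl rfl]
            split_ifs
            · rfl
            · rw [neg_zero]
        rw [sum_congr rfl fun t _ => e t, sum_neg_distrib]
        abel
      · rw [priv_ne Act _ g g' hg]
        by_cases hs : ¬ Act s(g, g')
        · rw [dif_pos hs]
          simp only [ext, pr]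
          rw [if_neg (by simpa using hg)]
          abel
        · rw [dif_neg hs]
          rw [not_not] at hs
          rw [add_zero]
          exact h.act _ hs

open scoped Classical in
/-- every solution of the relations is the extension of its restriction to the core, and its
restriction satisfies the core relations -/
theorem eq_ext (hAct : ∀ s, Act s → ¬ s.IsDiag) {Q : Type} [AddCommGroup Q]
    (f : X₀ ⊕ (Priv Act ⊕ Unit) → Q) (h1 : ∑ z, f z = 0)
    (h2 : ∀ y y', ∑ z, (if memX memA memG Act y z ∧ memX memA memG Act y' z then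
      f z else 0) = 0) :
    (∀ z, f z = ext memG Act (fun x => f (Sum.inl x)) z) ∧
      CoreRel memA memG Act (fun x => f (Sum.inl x)) := by
  set f₀ : X₀ → Q := fun x => f (Sum.inl x) with hf₀
  have hne : ∀ g g', g ≠ g' → ∀ hs : ¬ Act s(g, g'),
      f (Sum.inr (Sum.inl ⟨s(g, g'), hs⟩)) = - sgm memG f₀ s(g, g') := by
    intro g g' hg hs
    have h := h2 (Sum.inr g) (Sum.inr g')
    rw [sum_gg, priv_ne Act _ g g' hg, dif_pos hs] at h
    exact eq_neg_of_add_eq_zero_right h
  have hne' : ∀ t : Priv Act, ¬ t.1.IsDiag → f (Sum.inr (Sum.inl t)) = - sgm memG f₀ t.1 := by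
    rintro ⟨t, ht⟩ hd
    induction t using Sym2.ind with
    | _ a b => exact hne a b (by simpa using hd) ht
  have hdiag : ∀ g, f (Sum.inr (Sum.inl ⟨s(g, g), fun hh => hAct _ hh (by simp)⟩)) =
      pr memG Act f₀ s(g, g) := by
    intro g
    have h := h2 (Sum.inr g) (Sum.inr g)
    rw [sum_gg, priv_eq Act hAct] at h
    unfold pr
    rw [if_pos (by simp)]
    have e : ∑ s : Priv Act, (if ¬ s.1.IsDiag ∧ g ∈ s.1 then f (Sum.inr (Sum.inl s)) else 0) =
        - ∑ t : Priv Act, (if ¬ t.1.IsDiag ∧ ∀ g' ∈ s(g, g), g' ∈ t.1 then sgm memG f₀ t.1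
          else 0) := by
      rw [← sum_neg_distrib]
      refine sum_congr rfl fun t _ => ?_
      by_cases hd : t.1.IsDiag
      · simp [hd]
      · have : (∀ g' ∈ s(g, g), g' ∈ t.1) ↔ g ∈ t.1 := by simp
        rw [if_congr (and_congr Iff.rfl this) rfl rfl, hne' t hd]
        split_ifs
        · rfl
        · rw [neg_zero]
    rw [e] at h
    have h3 : sgm memG f₀ s(g, g) + (f (Sum.inr (Sum.inl ⟨s(g, g), fun hh => hAct _ hh (by simp)⟩)) +
      -∑ t : Priv Act, (if ¬ t.1.IsDiag ∧ ∀ g' ∈ s(g, g), g' ∈ t.1 then sgm memG f₀ t.1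
          else 0)) = 0 := h
    have h4 := eq_neg_of_add_eq_zero_right h3
    rw [← h4]
    abel
  have hpr : ∀ t : Priv Act, f (Sum.inr (Sum.inl t)) = pr memG Act f₀ t.1 := by
    rintro ⟨t, ht⟩
    by_cases hd : t.IsDiag
    · induction t using Sym2.ind with
      | _ a b =>
        simp only [Sym2.mk_isDiag_iff] at hd
        subst hd
        exact hdiag a
    · rw [hne' ⟨t, ht⟩ hd]
      unfold pr
      rw [if_neg hd]
  refine ⟨?_, ⟨?_, ?_, ?_⟩⟩
  · rintro (x | s | u)
    · rfl
    · exact hpr s
    · rw [Fintype.sum_sum_type, Fintype.sum_sum_type] at h1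
      simp only [Finset.univ_unique, Finset.sum_singleton] at h1
      simp only [ext]
      rw [sum_congr rfl fun s _ => hpr s, ← add_assoc] at h1
      have := eq_neg_of_add_eq_zero_right h1
      rw [← this]
  · intro a a'
    have h := h2 (Sum.inl a) (Sum.inl a')
    rw [sum_a] at h
    exact h
  · intro a g
    have h := h2 (Sum.inl a) (Sum.inr g)
    rw [sum_a] at h
    exact h
  · intro s hs
    induction s using Sym2.ind with
    | _ a b =>
      have hab : a ≠ b := by simpa using hAct _ hs
      have h := h2 (Sum.inr a) (Sum.inr b)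
      rw [sum_gg, priv_ne Act _ a b hab, dif_neg (by simpa using hs), add_zero] at h
      exact h

open scoped Classical in
/-- Criterion on the core. -/
theorem invRA_core [Fintype A] (hAct : ∀ s, Act s → ¬ s.IsDiag) (k : ℕ)
    (c : X₀ → ℤ) (x₀ : X₀) (hc : c x₀ = 1)
    (hrel : CoreRel memA memG Act (fun x => ((c x : ℤ) : ZMod k)))
    (huniv : ∀ (Q : Type) [AddCommGroup Q] (f : X₀ → Q), CoreRel memA memG Act f →
      (∀ x, f x = c x • f x₀) ∧ (k : ℤ) • f x₀ = 0) :
    InvRA k (splitG (memX memA memG Act)) := by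
  have hcast : ∀ z, ((ext memG Act c z : ℤ) : ZMod k) =
      ext memG Act (fun x => ((c x : ℤ) : ZMod k)) z := by
    intro z
    exact (ext_map memG Act (Int.castAddHom (ZMod k)) c z).symm
  obtain ⟨r1, r2⟩ := ext_rel memA memG Act hAct _ hrel
  refine invRA_split (memX memA memG Act) ?_ k (ext memG Act c) (Sum.inl x₀) hc ?_ ?_ ?_
  · intro y
    refine ⟨Sum.inr (Sum.inr ()), ?_⟩
    rcases y with a | g <;> exact fun h => h
  · rw [← ZMod.intCast_zmod_eq_zero_iff_dvd, Int.cast_sum]
    simp_rw [hcast]
    exact r1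
  · intro y y'
    rw [← ZMod.intCast_zmod_eq_zero_iff_dvd, Int.cast_sum]
    rw [← r2 y y']
    refine sum_congr rfl fun z _ => ?_
    split_ifs
    · exact hcast z
    · simp
  · intro Q _ f h1 h2
    obtain ⟨h3, h4⟩ := eq_ext memA memG Act hAct f h1 h2
    obtain ⟨h5, h6⟩ := huniv Q _ h4
    refine ⟨fun z => ?_, h6⟩
    rw [h3 z]
    have e : (fun x => f (Sum.inl x)) = fun x => (zmultiplesHom Q (f (Sum.inl x₀))) (c x) := by
      funext x
      rw [h5 x]
      simp
    rw [e, ext_map]
    simp

end

end Pool.Agent.Lib.MP_b5c453_co.As
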