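import Mathlib

/-!
MP_b5c453_co, sharp asymptotics: the response of a triangular recursion and greedy digits.
-/

set_option autoImplicit false

open Finset

namespace Pool.Agent.Lib.MP_b5c453_co.As

/-- reversed adjoint sequence -/
def HH (n : ℕ) (a : ℕ → ℕ → ℤ) : ℕ → ℤ
  | 0 => 1
  | (p + 1) => ∑ l : Fin (p + 1), a (n - 1 - l) (n - 1 - p) * HH n a l
decreasing_by exact l.2

/-- adjoint sequence -/
def GG (n : ℕ) (a : ℕ → ℕ → ℤ) (j : ℕ) : ℤ := HH n a (n - j)

lemma GG_last (n : ℕ) (a : ℕ → ℕ → ℤ) : GG n a n = 1 := by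
  unfold GG
  rw [Nat.sub_self, HH]

lemma GG_eq (n : ℕ) (a : ℕ → ℕ → ℤ) (j : ℕ) (hj : j < n) :
    GG n a j = ∑ i ∈ Ico j n, a i j * GG n a (i + 1) := by
  obtain ⟨p, hp⟩ : ∃ p, n - j = p + 1 := ⟨n - j - 1, by omega⟩
  have h1 : GG n a j = ∑ l ∈ range (p + 1), a (n - 1 - l) (n - 1 - p) * HH n a l := by
    unfold GG
    rw [hp, HH, sum_range]
  rw [h1]
  refine sum_nbij' (fun l => n - 1 - l) (fun i => n - 1 - i) ?_ ?_ ?_ ?_ ?_
  · intro l hl
    rw [mem_range] at hl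
    rw [mem_Ico]
    omega
  · intro i hi
    rw [mem_Ico] at hi
    rw [mem_range]
    omega
  · intro l hl
    rw [mem_range] at hl
    omega
  · intro i hi
    rw [mem_Ico] at hi
    omega
  · intro l hl
    rw [mem_range] at hl
    have e1 : n - 1 - p = j := by omega
    have e2 : n - (n - 1 - l + 1) = l := by omega
    simp only [GG]
    rw [e1, e2]

/-- the response of a triangular recursion -/
lemma response {Q : Type} [AddCommGroup Q] (n : ℕ) (a : ℕ → ℕ → ℤ) (τ e : ℕ → Q)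
    (hτ : ∀ i < n, τ (i + 1) = ∑ j ∈ range (i + 1), a i j • τ j + e (i + 1)) :
    τ n = GG n a 0 • τ 0 + ∑ j ∈ range n, GG n a (j + 1) • e (j + 1) := by
  have h1 : ∑ j ∈ range n, GG n a (j + 1) • e (j + 1) =
      ∑ j ∈ range n, GG n a (j + 1) • τ (j + 1) -
        ∑ j ∈ range n, ∑ l ∈ range (j + 1), (a j l * GG n a (j + 1)) • τ l := by
    rw [← sum_sub_distrib]
    refine sum_congr rfl fun j hj => ?_
    rw [hτ j (mem_range.1 hj), smul_add, smul_sum]
    have h2 : ∑ l ∈ range (j + 1), GG n a (j + 1) • a j l • τ l =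
        ∑ l ∈ range (j + 1), (a j l * GG n a (j + 1)) • τ l := by
      refine sum_congr rfl fun l _ => ?_
      rw [smul_smul, mul_comm]
    rw [h2]
    abel
  have h2 : ∑ j ∈ range n, ∑ l ∈ range (j + 1), (a j l * GG n a (j + 1)) • τ l =
      ∑ l ∈ range n, GG n a l • τ l := by
    rw [sum_comm' (t' := range n) (s' := fun l => Ico l n)]
    · refine sum_congr rfl fun l hl => ?_
      rw [← sum_smul, ← GG_eq n a l (mem_range.1 hl)]
    · intro x y
      simp only [mem_range, mem_Ico]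
      omega
  have h3 := sum_range_succ (fun j => GG n a j • τ j) n
  have h4 := sum_range_succ' (fun j => GG n a j • τ j) n
  rw [h1, h2]
  rw [h3, GG_last, one_smul] at h4
  have h5 : τ n = ∑ k ∈ range n, GG n a (k + 1) • τ (k + 1) + GG n a 0 • τ 0 -
      ∑ x ∈ range n, GG n a x • τ x := by
    rw [← h4]
    abel
  rw [h5]
  abel

/-- growth of the adjoint sequence -/
lemma GG_bounds (n : ℕ) (a : ℕ → ℕ → ℤ) (s : ℕ → ℕ) (hs : ∀ j < n, 5 ≤ s j)
    (h1 : ∀ j < n, 2 ^ (s j - 1) - 1 ≤ a j j ∧ a j j ≤ 2 ^ (s j - 1))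
    (h2 : ∀ j i, j < i → i < n → |a i j| ≤ 2 ^ (s j - 1) + 1) :
    ∀ p ≤ n, 0 < GG n a (n - p) ∧ 7 * ∑ i ∈ Ico (n - p) n, GG n a (i + 1) ≤ GG n a (n - p) ∧
      ∀ i, n - p ≤ i → i < n → 2 ^ (s i - 2) * GG n a (i + 1) ≤ GG n a i ∧
        GG n a i ≤ 2 ^ (s i) * GG n a (i + 1) ∧ 0 < GG n a (i + 1) := by
  intro p
  induction p with
  | zero =>
    intro _
    rw [Nat.sub_zero, GG_last, Ico_self, sum_empty]
    refine ⟨by norm_num, by norm_num, fun i h3 h4 => ?_⟩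
    omega
  | succ p ih =>
    intro hp
    obtain ⟨ih1, ih2, ih3⟩ := ih (by omega)
    obtain ⟨j, hj⟩ : ∃ j, n - (p + 1) = j := ⟨_, rfl⟩
    have hj1 : n - p = j + 1 := by omega
    have hjn : j < n := by omega
    rw [hj1] at ih1 ih2 ih3
    rw [hj]
    obtain ⟨r, hr⟩ : ∃ r, s j = r + 5 := ⟨s j - 5, by have := hs j hjn; omega⟩
    have e1 : s j - 1 = r + 4 := by omega
    have e2 : s j - 2 = r + 3 := by omega
    have hG := GG_eq n a j hjn
    rw [Finset.sum_eq_sum_Ico_succ_bot hjn] at hG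
    set x := GG n a (j + 1) with hx
    set S := ∑ i ∈ Ico (j + 1) n, GG n a (i + 1) with hS
    have hSn : 0 ≤ S := by
      refine sum_nonneg fun i hi => ?_
      rw [mem_Ico] at hi
      exact (ih3 i hi.1 hi.2).2.2.le
    obtain ⟨ha1, ha2⟩ := h1 j hjn
    rw [e1] at ha1 ha2
    set P : ℤ := 2 ^ (r + 4) with hP
    have hP16 : 16 ≤ P := by
      rw [hP, pow_add]
      have : (1 : ℤ) ≤ 2 ^ r := one_le_pow₀ (by norm_num)
      linarith
    have hP8 : (2 : ℤ) ^ (r + 3) * 2 = P := by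
      rw [hP, ← pow_succ]
    have hP32 : (2 : ℤ) ^ (s j) = 2 * P := by
      rw [hr, hP, show r + 5 = r + 4 + 1 by ring, pow_succ]
      ring
    have hB : |∑ i ∈ Ico (j + 1) n, a i j * GG n a (i + 1)| ≤ (P + 1) * S := by
      refine (abs_sum_le_sum_abs _ _).trans ?_
      rw [hS, mul_sum]
      refine sum_le_sum fun i hi => ?_
      rw [mem_Ico] at hi
      rw [abs_mul, abs_of_pos (ih3 i hi.1 hi.2).2.2]
      have h3 := h2 j i (by omega) hi.2
      rw [e1] at h3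
      exact mul_le_mul_of_nonneg_right h3 (ih3 i hi.1 hi.2).2.2.le
    set B := ∑ i ∈ Ico (j + 1) n, a i j * GG n a (i + 1) with hBdef
    obtain ⟨hB1, hB2⟩ := abs_le.1 hB
    have h3 : (P + 1) * (7 * S) ≤ (P + 1) * x := mul_le_mul_of_nonneg_left ih2 (by linarith)
    have h4 : 16 * x ≤ P * x := mul_le_mul_of_nonneg_right hP16 ih1.le
    have h5 : (P - 1) * x ≤ a j j * x := mul_le_mul_of_nonneg_right ha1 ih1.le
    have h6 : a j j * x ≤ P * x := mul_le_mul_of_nonneg_right ha2 ih1.le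
    have hlow8 : 8 * x ≤ GG n a j := by
      rw [hG]
      nlinarith
    have hlow : 2 ^ (s j - 2) * x ≤ GG n a j := by
      rw [hG, e2]
      nlinarith
    have hup : GG n a j ≤ 2 ^ (s j) * x := by
      rw [hG, hP32]
      nlinarith
    refine ⟨by linarith, ?_, ?_⟩
    · rw [Finset.sum_eq_sum_Ico_succ_bot hjn, ← hx, ← hS]
      linarith
    · intro i hi1 hi2
      rcases Nat.eq_or_lt_of_le hi1 with h7 | h7
      · rw [← h7]
        exact ⟨hlow, hup, ih1⟩
      · exact ih3 i h7 hi2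

/-- greedy digits -/
lemma greedy (D : ℤ) (n : ℕ) : ∀ (G : ℕ → ℤ), G n = 1 →
    (∀ j < n, 0 < G (j + 1) ∧ G j ≤ D * G (j + 1)) → ∀ y : ℤ, 0 ≤ y → y < G 0 →
      ∃ d : ℕ → ℤ, (∀ j < n, 0 ≤ d (j + 1) ∧ d (j + 1) < D) ∧
        y = ∑ j ∈ range n, G (j + 1) * d (j + 1) := by
  induction n with
  | zero =>
    intro G hn _ y hy0 hy
    rw [hn] at hy
    refine ⟨fun _ => 0, fun j hj => by omega, ?_⟩
    rw [range_zero, sum_empty]
    omega
  | succ n ih =>
    intro G hn hG y hy0 hy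
    obtain ⟨h1, h2⟩ := hG 0 (by omega)
    obtain ⟨d, hd, he⟩ := ih (fun j => G (j + 1)) hn (fun j hj => hG (j + 1) (by omega))
      (y % G (0 + 1)) (Int.emod_nonneg _ h1.ne') (Int.emod_lt_of_pos _ h1)
    refine ⟨fun j => if j = 1 then y / G (0 + 1) else d (j - 1), ?_, ?_⟩
    · intro j hj
      rcases Nat.eq_zero_or_pos j with h0 | h0
      · subst h0
        simp only [zero_add, if_true]
        refine ⟨Int.ediv_nonneg hy0 (by simpa using h1.le), ?_⟩
        rw [Int.ediv_lt_iff_lt_mul (by simpa using h1)]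
        simp only [zero_add] at h2
        linarith
      · obtain ⟨i, rfl⟩ : ∃ i, j = i + 1 := ⟨j - 1, by omega⟩
        have h3 : i + 1 + 1 ≠ 1 := by omega
        simp only [h3, if_false]
        exact hd i (by omega)
    · rw [sum_range_succ']
      have h3 : ∑ k ∈ range n, G (k + 1 + 1) * (if k + 1 + 1 = 1 then y / G (0 + 1)
          else d (k + 1 + 1 - 1)) = ∑ k ∈ range n, G (k + 1 + 1) * d (k + 1) := by
        refine sum_congr rfl fun k _ => ?_
        rw [if_neg (by omega)]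
        rfl
      rw [h3, ← he]
      simp only [zero_add, if_true]
      have := Int.emod_add_mul_ediv y (G 1)
      linarith

/-- the digits of all blocks -/
lemma all_digits (D : ℤ) (n : ℕ) (G : ℕ → ℤ) (hn : G n = 1)
    (hG : ∀ j < n, 0 < G (j + 1) ∧ G j ≤ D * G (j + 1)) (h0 : 0 < G 0) (T : ℕ) (k : ℤ)
    (hk0 : 0 ≤ k) (hk : k < G 0 ^ T) :
    ∃ (c : ℕ → ℤ) (d : ℕ → ℕ → ℤ), c 0 = 0 ∧ c T = k ∧ ∀ t < T,
      (∀ j < n, 0 ≤ d t (j + 1) ∧ d t (j + 1) < D) ∧
      c (t + 1) = G 0 * c t + ∑ j ∈ range n, G (j + 1) * d t (j + 1) := by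
  have h1 : ∀ t, ∃ d : ℕ → ℤ, (∀ j < n, 0 ≤ d (j + 1) ∧ d (j + 1) < D) ∧
      (k / G 0 ^ (T - (t + 1))) % G 0 = ∑ j ∈ range n, G (j + 1) * d (j + 1) := fun t =>
    greedy D n G hn hG _ (Int.emod_nonneg _ h0.ne') (Int.emod_lt_of_pos _ h0)
  choose d hd1 hd2 using h1
  refine ⟨fun t => k / G 0 ^ (T - t), d, ?_, ?_, ?_⟩
  · simp only [Nat.sub_zero]
    exact Int.ediv_eq_zero_of_lt hk0 hk
  · simp
  · intro t ht
    refine ⟨hd1 t, ?_⟩
    rw [← hd2 t]
    simp only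
    have e : T - t = T - (t + 1) + 1 := by omega
    have h3 : k / G 0 ^ (T - t) = (k / G 0 ^ (T - (t + 1))) / G 0 := by
      rw [e, pow_succ, Int.ediv_ediv_of_nonneg (by positivity)]
    rw [h3]
    have := Int.emod_add_mul_ediv (k / G 0 ^ (T - (t + 1))) (G 0)
    linarith

end Pool.Agent.Lib.MP_b5c453_co.As
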