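import Mathlib

/-!
MP_b5c453_co, sharp asymptotics: upper sums of functions on the subsets of `range m`, their
inversion, and the sum over one chain row.
-/

set_option autoImplicit false

open Finset

namespace Pool.Agent.Lib.MP_b5c453_co.As

section

variable {Q : Type} [AddCommGroup Q] (m : ℕ)

/-- upper sums -/
def TT (f : Finset ℕ → Q) (β : Finset ℕ) : Q :=
  ∑ η ∈ (range m).powerset, if β ⊆ η then f η else 0

/-- inversion -/
def mob (c : Finset ℕ → ℤ) (η : Finset ℕ) : ℤ :=
  ∑ γ ∈ (range m).powerset, if η ⊆ γ then (-1) ^ (γ \ η).card * c γ else 0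

lemma mob_aux (β γ : Finset ℕ) (hγ : γ ⊆ range m) :
    ∑ η ∈ (range m).powerset, (if β ⊆ η then (if η ⊆ γ then (-1 : ℤ) ^ (γ \ η).card else 0)
      else 0) = if β = γ then 1 else 0 := by
  by_cases h : β ⊆ γ
  · have h1 : ∑ η ∈ (range m).powerset, (if β ⊆ η then
        (if η ⊆ γ then (-1 : ℤ) ^ (γ \ η).card else 0) else 0) =
        ∑ ζ ∈ (γ \ β).powerset, (-1 : ℤ) ^ ζ.card := by
      simp only [← ite_and]
      rw [← sum_filter]
      refine sum_nbij' (fun η => γ \ η) (fun ζ => γ \ ζ) ?_ ?_ ?_ ?_ ?_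
      · intro η hη
        rw [mem_filter, mem_powerset] at hη
        rw [mem_powerset]
        exact sdiff_subset_sdiff (Subset.refl _) hη.2.1
      · intro ζ hζ
        rw [mem_powerset] at hζ
        rw [mem_filter, mem_powerset]
        refine ⟨sdiff_subset.trans hγ, ?_, sdiff_subset⟩
        intro x hx
        rw [mem_sdiff]
        refine ⟨h hx, fun hh => ?_⟩
        have := hζ hh
        rw [mem_sdiff] at this
        exact this.2 hx
      · intro η hη
        rw [mem_filter, mem_powerset] at hη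
        exact Finset.sdiff_sdiff_eq_self hη.2.2
      · intro ζ hζ
        rw [mem_powerset] at hζ
        exact Finset.sdiff_sdiff_eq_self (hζ.trans sdiff_subset)
      · intro η _
        rfl
    rw [h1, sum_powerset_neg_one_pow_card]
    by_cases h2 : β = γ
    · rw [if_pos h2, if_pos]
      rw [h2, sdiff_self]
      rfl
    · rw [if_neg h2, if_neg]
      intro h3
      rw [sdiff_eq_empty_iff_subset] at h3
      exact h2 (Subset.antisymm h h3)
  · rw [if_neg (fun h2 : β = γ => h (h2 ▸ Subset.refl _))]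
    refine sum_eq_zero fun η _ => ?_
    split_ifs with h1 h2
    · exact absurd (h1.trans h2) h
    · rfl
    · rfl

lemma TT_mob (c : Finset ℕ → ℤ) (β : Finset ℕ) (hβ : β ⊆ range m) :
    TT m (mob m c) β = c β := by
  unfold TT mob
  have h1 : ∀ η ∈ (range m).powerset, (if β ⊆ η then
      ∑ γ ∈ (range m).powerset, (if η ⊆ γ then (-1 : ℤ) ^ (γ \ η).card * c γ else 0) else 0) =
      ∑ γ ∈ (range m).powerset, (if β ⊆ η then (if η ⊆ γ then (-1 : ℤ) ^ (γ \ η).card else 0)
        else 0) * c γ := by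
    intro η _
    split_ifs with h
    · refine sum_congr rfl fun γ _ => ?_
      split_ifs <;> simp
    · simp
  rw [sum_congr rfl h1, sum_comm]
  have h2 : ∀ γ ∈ (range m).powerset, ∑ η ∈ (range m).powerset, (if β ⊆ η then
      (if η ⊆ γ then (-1 : ℤ) ^ (γ \ η).card else 0) else 0) * c γ =
      if β = γ then c γ else 0 := by
    intro γ hγ
    rw [← sum_mul, mob_aux m β γ (mem_powerset.1 hγ)]
    split_ifs <;> simp
  rw [sum_congr rfl h2, sum_ite_eq, if_pos (mem_powerset.2 hβ)]

lemma TT_eq_add (f : Finset ℕ → Q) (β : Finset ℕ) (hβ : β ⊆ range m) :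
    TT m f β = f β + ∑ η ∈ (range m).powerset.erase β, (if β ⊆ η then f η else 0) := by
  unfold TT
  rw [← add_sum_erase _ _ (mem_powerset.2 hβ), if_pos (Subset.refl _)]

/-- the upper sums determine the function -/
lemma TT_inj (f : Finset ℕ → Q) (h : ∀ β ⊆ range m, TT m f β = 0) :
    ∀ β ⊆ range m, f β = 0 := by
  have key : ∀ (N : ℕ) (β : Finset ℕ), β ⊆ range m → m - β.card ≤ N → f β = 0 := by
    intro N
    induction N with
    | zero =>
      intro β hβ hc
      have h1 := h β hβ
      rw [TT_eq_add m f β hβ] at h1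
      have h2 : ∑ η ∈ (range m).powerset.erase β, (if β ⊆ η then f η else 0) = 0 := by
        refine sum_eq_zero fun η hη => ?_
        rw [mem_erase, mem_powerset] at hη
        rw [if_neg]
        intro h3
        have h4 := card_lt_card (Finset.ssubset_iff_subset_ne.2 ⟨h3, Ne.symm hη.1⟩)
        have h5 := card_le_card hη.2
        rw [card_range] at h5
        omega
      rw [h2, add_zero] at h1
      exact h1
    | succ N ih =>
      intro β hβ hc
      have h1 := h β hβ
      rw [TT_eq_add m f β hβ] at h1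
      have h2 : ∑ η ∈ (range m).powerset.erase β, (if β ⊆ η then f η else 0) = 0 := by
        refine sum_eq_zero fun η hη => ?_
        rw [mem_erase, mem_powerset] at hη
        split_ifs with h3
        · have h4 := card_lt_card (Finset.ssubset_iff_subset_ne.2 ⟨h3, Ne.symm hη.1⟩)
          have h5 := card_le_card hη.2
          rw [card_range] at h5
          exact ih η hη.2 (by omega)
        · rfl
      rw [h2, add_zero] at h1
      exact h1
  intro β hβ
  exact key _ β hβ le_rfl

lemma TT_sub (f g : Finset ℕ → Q) (β : Finset ℕ) :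
    TT m (fun η => f η - g η) β = TT m f β - TT m g β := by
  unfold TT
  rw [← sum_sub_distrib]
  refine sum_congr rfl fun η _ => ?_
  split_ifs <;> simp

lemma TT_map {Q' : Type} [AddCommGroup Q'] (θ : Q →+ Q') (f : Finset ℕ → Q) (β : Finset ℕ) :
    TT m (fun η => θ (f η)) β = θ (TT m f β) := by
  unfold TT
  rw [map_sum]
  refine sum_congr rfl fun η _ => ?_
  split_ifs <;> simp

/-- coefficients of a parity function -/
def qq (β γ : Finset ℕ) : ℤ :=
  if γ = ∅ then (if Even β.card then 1 else 0) else 2 ^ (γ.card - 1) * (-1) ^ (β \ γ).card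

lemma two_qq (β γ : Finset ℕ) :
    2 * qq β γ = 2 ^ γ.card * (-1) ^ (β \ γ).card + if γ = ∅ then 1 else 0 := by
  unfold qq
  by_cases h : γ = ∅
  · subst h
    simp only [if_true, card_empty, pow_zero, one_mul, sdiff_empty]
    by_cases h1 : Even β.card
    · rw [if_pos h1, h1.neg_one_pow]
      norm_num
    · rw [if_neg h1, (Nat.not_even_iff_odd.1 h1).neg_one_pow]
      norm_num
  · rw [if_neg h, if_neg h, add_zero, ← mul_assoc]
    congr 1
    have h1 : 0 < γ.card := card_pos.2 (nonempty_iff_ne_empty.2 h)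
    obtain ⟨c, hc⟩ : ∃ c, γ.card = c + 1 := ⟨γ.card - 1, by omega⟩
    rw [hc, Nat.add_sub_cancel, pow_succ, mul_comm]

lemma qq_self (β : Finset ℕ) (h : β ≠ ∅) : qq β β = 2 ^ (β.card - 1) := by
  unfold qq
  rw [if_neg h, sdiff_self]
  simp

lemma abs_qq (β γ : Finset ℕ) (h : γ ≠ ∅) : |qq β γ| = 2 ^ (γ.card - 1) := by
  unfold qq
  rw [if_neg h, abs_mul, abs_pow, abs_pow, abs_neg, abs_one, one_pow, mul_one]
  norm_num

lemma parity_pow (β η : Finset ℕ) :
    (-1 : ℤ) ^ (β \ η).card =
      ∑ γ ∈ β.powerset, (2 : ℤ) ^ γ.card * (-1) ^ (β \ γ).card * (if γ ⊆ η then 1 else 0) := by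
  have h1 : ∏ i ∈ β, (((if i ∈ η then 2 else 0 : ℤ)) + (-1)) = (-1 : ℤ) ^ (β \ η).card := by
    have h2 : ∏ i ∈ β, (((if i ∈ η then 2 else 0 : ℤ)) + (-1)) =
        ∏ i ∈ β, (if i ∉ η then (-1 : ℤ) else 1) := by
      refine prod_congr rfl fun i _ => ?_
      by_cases h : i ∈ η
      · rw [if_pos h, if_neg (not_not.2 h)]
        norm_num
      · rw [if_neg h, if_pos h]
        norm_num
    rw [h2, prod_ite, prod_const_one, mul_one, prod_const]
    congr 2
    ext i
    simp [mem_sdiff]
  rw [← h1, prod_add]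
  refine sum_congr rfl fun γ hγ => ?_
  have h3 : ∏ i ∈ γ, (if i ∈ η then (2 : ℤ) else 0) = 2 ^ γ.card * (if γ ⊆ η then 1 else 0) := by
    by_cases h : γ ⊆ η
    · rw [if_pos h, mul_one]
      rw [prod_congr rfl (fun i hi => if_pos (h hi)), prod_const]
    · rw [if_neg h, mul_zero]
      obtain ⟨i, hi, hi'⟩ := not_subset.1 h
      exact prod_eq_zero hi (if_neg hi')
  rw [h3, prod_const]
  ring

/-- the parity function in terms of the upper indicator functions -/
lemma parity_qq (β η : Finset ℕ) :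
    (if Even (β \ η).card then (1 : ℤ) else 0) =
      ∑ γ ∈ β.powerset, qq β γ * (if γ ⊆ η then 1 else 0) := by
  have h1 : 2 * (if Even (β \ η).card then (1 : ℤ) else 0) = (-1 : ℤ) ^ (β \ η).card + 1 := by
    by_cases h : Even (β \ η).card
    · rw [if_pos h, h.neg_one_pow]
      norm_num
    · rw [if_neg h, (Nat.not_even_iff_odd.1 h).neg_one_pow]
      norm_num
  have h2 : 2 * ∑ γ ∈ β.powerset, qq β γ * (if γ ⊆ η then 1 else 0) =
      (-1 : ℤ) ^ (β \ η).card + 1 := by
    rw [mul_sum, parity_pow β η]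
    have h3 : ∀ γ ∈ β.powerset, 2 * (qq β γ * (if γ ⊆ η then 1 else 0)) =
        (2 : ℤ) ^ γ.card * (-1) ^ (β \ γ).card * (if γ ⊆ η then 1 else 0) +
          (if γ = ∅ then 1 else 0) := by
      intro γ _
      rw [← mul_assoc, two_qq, add_mul]
      congr 1
      by_cases h : γ = ∅
      · subst h
        simp
      · rw [if_neg h, zero_mul]
    rw [sum_congr rfl h3, sum_add_distrib, sum_ite_eq', if_pos (empty_mem_powerset β)]
  linarith

/-- a chain row -/
def CR (α β : Finset ℕ) (η : Finset ℕ) : Prop :=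
  if β ∩ α ⊆ η then ¬ β ⊆ η else Even (α \ η).card

instance (α β η : Finset ℕ) : Decidable (CR α β η) := by
  unfold CR
  infer_instance

lemma ind_CR (α β η : Finset ℕ) (hα : (α \ β).card ≤ 1) :
    (if CR α β η then (1 : ℤ) else 0) =
      ∑ γ ∈ α.powerset, qq α γ * (if γ ⊆ η then 1 else 0) + (if β ∩ α ⊆ η then 1 else 0)
        - (if α ⊆ η then 1 else 0) - (if β ⊆ η then 1 else 0) := by
  rw [← parity_qq]
  by_cases h : β ∩ α ⊆ η
  · have e : CR α β η ↔ ¬ β ⊆ η := by
      unfold CR
      rw [if_pos h]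
    have h1 : (if Even (α \ η).card then (1 : ℤ) else 0) = if α ⊆ η then 1 else 0 := by
      by_cases h2 : α ⊆ η
      · rw [if_pos h2, sdiff_eq_empty_iff_subset.2 h2]
        simp
      · rw [if_neg h2]
        have h3 : (α \ η).card = 1 := by
          have h4 : (α \ η).card ≤ (α \ β).card := by
            refine card_le_card fun x hx => ?_
            rw [mem_sdiff] at hx ⊢
            refine ⟨hx.1, fun h5 => hx.2 (h (mem_inter.2 ⟨h5, hx.1⟩))⟩
          have h5 : 0 < (α \ η).card := card_pos.2 (sdiff_nonempty.2 h2)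
          omega
        rw [h3, if_neg (by decide)]
    rw [h1, if_pos h]
    by_cases h2 : β ⊆ η
    · rw [if_neg (fun hh => (e.1 hh) h2), if_pos h2]
      ring
    · rw [if_pos (e.2 h2), if_neg h2]
      ring
  · have e : CR α β η ↔ Even (α \ η).card := by
      unfold CR
      rw [if_neg h]
    have h1 : ¬ α ⊆ η := fun hh => h (inter_subset_right.trans hh)
    have h2 : ¬ β ⊆ η := fun hh => h (inter_subset_left.trans hh)
    rw [if_neg h, if_neg h1, if_neg h2]
    by_cases h3 : Even (α \ η).card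
    · rw [if_pos (e.2 h3), if_pos h3]
      ring
    · rw [if_neg (fun hh => h3 (e.1 hh)), if_neg h3]
      ring

/-- the sum over a chain row -/
lemma sum_CR (f : Finset ℕ → Q) (α β : Finset ℕ) (hα : (α \ β).card ≤ 1) :
    ∑ η ∈ (range m).powerset, (if CR α β η then f η else 0) =
      ∑ γ ∈ α.powerset, qq α γ • TT m f γ + TT m f (β ∩ α) - TT m f α - TT m f β := by
  have h0 : ∀ (P : Prop) [Decidable P] (x : Q), (if P then x else 0) =
      (if P then (1 : ℤ) else 0) • x := by
    intro P _ x
    split_ifs <;> simp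
  have h1 : ∀ η ∈ (range m).powerset, (if CR α β η then f η else 0) =
      ∑ γ ∈ α.powerset, qq α γ • (if γ ⊆ η then f η else 0) + (if β ∩ α ⊆ η then f η else 0)
        - (if α ⊆ η then f η else 0) - (if β ⊆ η then f η else 0) := by
    intro η _
    rw [h0 (CR α β η) (f η), ind_CR α β η hα, h0 (β ∩ α ⊆ η) (f η), h0 (α ⊆ η) (f η),
      h0 (β ⊆ η) (f η), sub_smul, sub_smul, add_smul, sum_smul]
    congr 3
    refine sum_congr rfl fun γ _ => ?_
    rw [h0 (γ ⊆ η) (f η), smul_smul]
  rw [sum_congr rfl h1, sum_sub_distrib, sum_sub_distrib, sum_add_distrib, sum_comm]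
  unfold TT
  congr 3
  refine sum_congr rfl fun γ _ => ?_
  rw [smul_sum]

end

end Pool.Agent.Lib.MP_b5c453_co.As
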