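import Pool.Agent.Lib.MP_b5c453_co.AsGray
import Pool.Agent.Lib.MP_b5c453_co.AsRow
import Pool.Agent.Lib.MP_b5c453_co.AsNum

/-!
MP_b5c453_co, sharp asymptotics: upper sums along a Gray enumeration.
-/

set_option autoImplicit false

open Finset

namespace Pool.Agent.Lib.MP_b5c453_co.As

/-- an enumeration of the subsets of `range m` with more than `s₀` elements -/
structure Enum (m s₀ n : ℕ) (b : ℕ → Finset ℕ) : Prop where
  mem : ∀ i ≤ n, b i ⊆ range m ∧ s₀ + 1 ≤ (b i).card
  cov : ∀ β, β ⊆ range m → s₀ + 1 ≤ β.card → ∃ i ≤ n, b i = β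
  inj : ∀ i j, i ≤ n → j ≤ n → b i = b j → i = j
  step : ∀ i < n, Step (b i) (b (i + 1))
  last : b n = range m

lemma Enum.mono {m s₀ n : ℕ} {b : ℕ → Finset ℕ} (h : Enum m s₀ n b) :
    ∀ j ≤ n, ∀ i ≤ j, (b i).card ≤ (b j).card := by
  intro j
  induction j with
  | zero =>
    intro _ i hi
    obtain rfl : i = 0 := by omega
    exact le_rfl
  | succ j ih =>
    intro hj i hi
    rcases Nat.eq_or_lt_of_le hi with h1 | h1
    · rw [h1]
    · exact (ih (by omega) i (by omega)).trans (h.step j (by omega)).card_le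

lemma Enum.index {m s₀ n : ℕ} {b : ℕ → Finset ℕ} (h : Enum m s₀ n b) (i : ℕ) (hi : i ≤ n)
    (γ : Finset ℕ) (hγ : γ ⊆ b i) (hc : s₀ + 1 ≤ γ.card) : ∃ j ≤ i, b j = γ := by
  obtain ⟨j, hj, rfl⟩ := h.cov γ (hγ.trans (h.mem i hi).1) hc
  by_cases h1 : j ≤ i
  · exact ⟨j, h1, rfl⟩
  · have h2 := h.mono j hj i (by omega)
    have h3 := eq_of_subset_of_card_le hγ h2
    exact ⟨i, le_rfl, h3.symm⟩

/-- coefficients of the recursion -/
def ac (b : ℕ → Finset ℕ) (i j : ℕ) : ℤ :=
  (if b j ⊆ b i then qq (b i) (b j) else 0) + (if b j = b (i + 1) ∩ b i then 1 else 0)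
    - (if j = i then 1 else 0)

lemma ac_self {m s₀ n : ℕ} {b : ℕ → Finset ℕ} (h : Enum m s₀ n b) (j : ℕ) (hj : j < n) :
    2 ^ ((b j).card - 1) - 1 ≤ ac b j j ∧ ac b j j ≤ 2 ^ ((b j).card - 1) := by
  have h1 : b j ≠ ∅ := by
    intro h1
    have := (h.mem j hj.le).2
    rw [h1] at this
    simp at this
  unfold ac
  rw [if_pos (Subset.refl _), if_pos rfl, qq_self _ h1]
  split_ifs <;> constructor <;> linarith

lemma ac_abs {m s₀ n : ℕ} {b : ℕ → Finset ℕ} (h : Enum m s₀ n b) (j i : ℕ) (hji : j < i)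
    (hi : i < n) : |ac b i j| ≤ 2 ^ ((b j).card - 1) + 1 := by
  have h1 : b j ≠ ∅ := by
    intro h1
    have := (h.mem j (by omega)).2
    rw [h1] at this
    simp at this
  unfold ac
  rw [if_neg (by omega : ¬ j = i), sub_zero]
  refine (abs_add_le _ _).trans ?_
  refine add_le_add ?_ ?_
  · split_ifs
    · rw [abs_qq _ _ h1]
    · rw [abs_zero]
      positivity
  · split_ifs <;> norm_num

section

variable {Q : Type} [AddCommGroup Q] {m s₀ n : ℕ} {b : ℕ → Finset ℕ}

lemma chain_sum (h : Enum m s₀ n b) (f : Finset ℕ → Q)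
    (hf : ∀ β ⊆ range m, β.card ≤ s₀ → TT m f β = 0) (i : ℕ) (hi : i < n) :
    ∑ γ ∈ (b i).powerset, qq (b i) γ • TT m f γ + TT m f (b (i + 1) ∩ b i) - TT m f (b i) =
      ∑ j ∈ range (i + 1), ac b i j • TT m f (b j) := by
  have h0 : ∀ (P : Prop) [Decidable P] (z : ℤ) (x : Q), (if P then z else 0 : ℤ) • x =
      (if P then z • x else 0) := by
    intro P _ z x
    split_ifs <;> simp
  have h1 : ∑ j ∈ range (i + 1), ac b i j • TT m f (b j) =
      ∑ j ∈ range (i + 1), (if b j ⊆ b i then qq (b i) (b j) • TT m f (b j) else 0) +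
      ∑ j ∈ range (i + 1), (if b j = b (i + 1) ∩ b i then TT m f (b j) else 0) -
      ∑ j ∈ range (i + 1), (if j = i then TT m f (b j) else 0) := by
    rw [← sum_add_distrib, ← sum_sub_distrib]
    refine sum_congr rfl fun j _ => ?_
    unfold ac
    rw [sub_smul, add_smul, h0, h0, h0, one_smul]
  rw [h1]
  congr 1
  swap
  · rw [sum_ite_eq', if_pos (mem_range.2 (Nat.lt_succ_self i))]
  congr 1
  · rw [← sum_filter]
    have e1 : ∑ γ ∈ (b i).powerset, qq (b i) γ • TT m f γ =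
        ∑ γ ∈ (b i).powerset.filter (fun γ => s₀ + 1 ≤ γ.card), qq (b i) γ • TT m f γ := by
      rw [sum_filter]
      refine sum_congr rfl fun γ hγ => ?_
      split_ifs with h2
      · rfl
      · rw [hf γ ((mem_powerset.1 hγ).trans (h.mem i hi.le).1) (by omega), smul_zero]
    rw [e1]
    symm
    refine sum_bij (fun j _ => b j) ?_ ?_ ?_ ?_
    · intro j hj
      rw [mem_filter, mem_range] at hj
      rw [mem_filter, mem_powerset]
      exact ⟨hj.2, (h.mem j (by omega)).2⟩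
    · intro j hj j' hj' hjj
      rw [mem_filter, mem_range] at hj hj'
      exact h.inj j j' (by omega) (by omega) hjj
    · intro γ hγ
      rw [mem_filter, mem_powerset] at hγ
      obtain ⟨j, hj, rfl⟩ := h.index i hi.le γ hγ.1 hγ.2
      exact ⟨j, mem_filter.2 ⟨mem_range.2 (by omega), hγ.1⟩, rfl⟩
    · intro j _
      rfl
  · by_cases h2 : (b (i + 1) ∩ b i).card ≤ s₀
    · rw [hf _ (inter_subset_right.trans (h.mem i hi.le).1) h2]
      symm
      refine sum_eq_zero fun j hj => ?_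
      rw [mem_range] at hj
      rw [if_neg]
      intro h3
      have := (h.mem j (by omega)).2
      rw [h3] at this
      omega
    · obtain ⟨j, hj, hj'⟩ := h.index i hi.le (b (i + 1) ∩ b i) inter_subset_right (by omega)
      rw [sum_eq_single j]
      · rw [if_pos hj', hj']
      · intro j' hj1 hj2
        rw [mem_range] at hj1
        rw [if_neg]
        intro h3
        exact hj2 (h.inj j' j (by omega) (by omega) (h3.trans hj'.symm))
      · intro h3
        exact absurd (mem_range.2 (by omega)) h3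

/-- the recursion along the chain -/
lemma chain_step (h : Enum m s₀ n b) (f : Finset ℕ → Q)
    (hf : ∀ β ⊆ range m, β.card ≤ s₀ → TT m f β = 0) (i : ℕ) (hi : i < n) :
    ∑ η ∈ (range m).powerset, (if CR (b i) (b (i + 1)) η then f η else 0) =
      ∑ j ∈ range (i + 1), ac b i j • TT m f (b j) - TT m f (b (i + 1)) := by
  rw [sum_CR m f _ _ (h.step i hi).2, chain_sum h f hf i hi]

end

/-- solution of the recursion -/
def sol (a : ℕ → ℕ → ℤ) (x : ℤ) (e : ℕ → ℤ) : ℕ → ℤ
  | 0 => x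
  | (i + 1) => ∑ j : Fin (i + 1), a i j * sol a x e j + e (i + 1)
decreasing_by exact j.2

lemma sol_zero (a : ℕ → ℕ → ℤ) (x : ℤ) (e : ℕ → ℤ) : sol a x e 0 = x := by
  rw [sol]

lemma sol_succ (a : ℕ → ℕ → ℤ) (x : ℤ) (e : ℕ → ℤ) (i : ℕ) :
    sol a x e (i + 1) = ∑ j ∈ range (i + 1), a i j * sol a x e j + e (i + 1) := by
  rw [sol, sum_range]

/-- values of the upper sums -/
def val (n : ℕ) (b : ℕ → Finset ℕ) (τ : ℕ → ℤ) (γ : Finset ℕ) : ℤ :=
  ∑ i ∈ range (n + 1), if b i = γ then τ i else 0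

lemma val_chain {m s₀ n : ℕ} {b : ℕ → Finset ℕ} (h : Enum m s₀ n b) (τ : ℕ → ℤ) (i : ℕ)
    (hi : i ≤ n) : val n b τ (b i) = τ i := by
  unfold val
  rw [sum_eq_single i]
  · rw [if_pos rfl]
  · intro j hj hji
    rw [mem_range] at hj
    rw [if_neg]
    intro h1
    exact hji (h.inj j i (by omega) hi h1)
  · intro h1
    exact absurd (mem_range.2 (by omega)) h1

lemma val_small {m s₀ n : ℕ} {b : ℕ → Finset ℕ} (h : Enum m s₀ n b) (τ : ℕ → ℤ) (γ : Finset ℕ)
    (hγ : γ.card ≤ s₀) : val n b τ γ = 0 := by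
  unfold val
  refine sum_eq_zero fun i hi => ?_
  rw [mem_range] at hi
  rw [if_neg]
  intro h1
  have := (h.mem i (by omega)).2
  rw [h1] at this
  omega

/-- binary digits -/
lemma sum_bits : ∀ (m D : ℕ), D < 2 ^ m →
    ∑ l : Fin m, (if D.testBit l then (2 : ℤ) ^ (l : ℕ) else 0) = D := by
  intro m
  induction m with
  | zero =>
    intro D hD
    have : D = 0 := by simpa using hD
    subst this
    simp
  | succ m ih =>
    intro D hD
    rw [Fin.sum_univ_succ]
    have h1 : D / 2 < 2 ^ m := by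
      rw [pow_succ] at hD
      omega
    have h2 := ih (D / 2) h1
    have h3 : ∑ i : Fin m, (if D.testBit (i.succ : ℕ) then (2 : ℤ) ^ (i.succ : ℕ) else 0) =
        2 * ∑ l : Fin m, (if (D / 2).testBit l then (2 : ℤ) ^ (l : ℕ) else 0) := by
      rw [mul_sum]
      refine sum_congr rfl fun i _ => ?_
      rw [Fin.val_succ, Nat.testBit_succ, pow_succ]
      split_ifs
      · ring
      · ring
    rw [h3, h2]
    have h4 : (if D.testBit ((0 : Fin (m + 1)) : ℕ) then (2 : ℤ) ^ ((0 : Fin (m + 1)) : ℕ)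
        else 0) = ((D % 2 : ℕ) : ℤ) := by
      simp only [Fin.val_zero, pow_zero, Nat.testBit_zero, decide_eq_true_eq]
      rcases Nat.mod_two_eq_zero_or_one D with h5 | h5 <;> rw [h5] <;> simp
    rw [h4]
    have h5 := Nat.mod_add_div D 2
    push_cast
    have h6 : ((D % 2 : ℕ) : ℤ) + 2 * ((D / 2 : ℕ) : ℤ) = D := by exact_mod_cast h5
    push_cast at h6
    exact h6

end Pool.Agent.Lib.MP_b5c453_co.As
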