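import Pool.Agent.Lib.MP_b5c453_co.AsAbs

/-!
MP_b5c453_co, sharp asymptotics: the concrete set system built from one family of rows `R`, used
in `T` blocks (and one free block), with digit points `(t, l, b)` and outside points `W`.
-/

set_option autoImplicit false
set_option linter.unusedSectionVars false

open Finset

namespace Pool.Agent.Lib.MP_b5c453_co.As

section

variable {N I : Type} (R : I → N → Prop) {T : ℕ} {L W E : Type}
  (D : I → Fin T → L → Prop) (o : Fin T → L → W) (F : E → W → Prop)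

/-- core points -/
abbrev XC (N : Type) (T : ℕ) (L W : Type) : Type :=
  (N × Option (Fin T)) ⊕ ((Fin T × L × Bool) ⊕ W)

/-- gadget sets -/
abbrev GC (T : ℕ) (L E : Type) : Type := Fin T ⊕ ((Fin T × L × Bool) ⊕ (E × Bool))

/-- big sets -/
def mA (i : I) : XC N T L W → Prop
  | Sum.inl z => R i z.1
  | Sum.inr (Sum.inl z) => D i z.1 z.2.1
  | Sum.inr (Sum.inr _) => False

/-- gadget sets -/
def mG : GC T L E → XC N T L W → Prop
  | Sum.inl t, Sum.inl z => z.2 = some t
  | Sum.inl t, Sum.inr (Sum.inl z) => z.1 = t ∧ z.2.2 = false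
  | Sum.inl t, Sum.inr (Sum.inr w) => ∃ l, o t l = w
  | Sum.inr (Sum.inl _), Sum.inl _ => False
  | Sum.inr (Sum.inl y), Sum.inr (Sum.inl z) => z.1 = y.1 ∧ z.2.1 = y.2.1
  | Sum.inr (Sum.inl y), Sum.inr (Sum.inr w) => y.2.2 = false ∧ w = o y.1 y.2.1
  | Sum.inr (Sum.inr r), Sum.inr (Sum.inr w) => F r.1 w
  | Sum.inr (Sum.inr _), _ => False

/-- active pairs -/
def AC (s : Sym2 (GC T L E)) : Prop :=
  (∃ t l, s = s(Sum.inr (Sum.inl (t, l, false)), Sum.inr (Sum.inl (t, l, true)))) ∨
  (∃ t l, s = s(Sum.inr (Sum.inl (t, l, false)), Sum.inl t)) ∨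
  (∃ r, s = s(Sum.inr (Sum.inr (r, false)), Sum.inr (Sum.inr (r, true))))

lemma AC_nd (s : Sym2 (GC T L E)) (h : AC s) : ¬ s.IsDiag := by
  rcases h with ⟨t, l, rfl⟩ | ⟨t, l, rfl⟩ | ⟨r, rfl⟩ <;> simp

variable [Fintype N] [Fintype L] [Fintype W] [Fintype E]

open scoped Classical in
/-- the relations of the blocks -/
structure BlockRel {Q : Type} [AddCommGroup Q] (φ : Fin T → N → Q) (ω : W → Q) : Prop where
  out : ∀ r, ∑ w, (if F r w then ω w else 0) = 0
  row : ∀ i t, ∑ x, (if R i x then φ t x else 0) = ∑ l, if D i t l then ω (o t l) else 0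

/-- all labels from the labels of the blocks and of the outside points -/
def EC {Q : Type} [AddCommGroup Q] (φ : Fin T → N → Q) (ω : W → Q) : XC N T L W → Q
  | Sum.inl (x, some t) => φ t x
  | Sum.inl (x, none) => - ∑ t, φ t x
  | Sum.inr (Sum.inl (t, l, false)) => - ω (o t l)
  | Sum.inr (Sum.inl (t, l, true)) => ω (o t l)
  | Sum.inr (Sum.inr w) => ω w

lemma sum_XC {Q : Type} [AddCommGroup Q] (f : XC N T L W → Q) (P : XC N T L W → Prop)
    [DecidablePred P] :
    ∑ z, (if P z then f z else 0) =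
      ∑ x : N, ∑ t : Option (Fin T), (if P (Sum.inl (x, t)) then f (Sum.inl (x, t)) else 0) +
      (∑ t, ∑ l, ∑ b, (if P (Sum.inr (Sum.inl (t, l, b))) then f (Sum.inr (Sum.inl (t, l, b)))
        else 0) + ∑ w, (if P (Sum.inr (Sum.inr w)) then f (Sum.inr (Sum.inr w)) else 0)) := by
  rw [Fintype.sum_sum_type, Fintype.sum_sum_type, Fintype.sum_prod_type, Fintype.sum_prod_type]
  congr 2
  refine sum_congr rfl fun t _ => ?_
  rw [Fintype.sum_prod_type]

open scoped Classical in
/-- two big sets -/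
lemma s_aa {Q : Type} [AddCommGroup Q] (f : XC N T L W → Q) (i i' : I) :
    ∑ z, (if mA R D i z ∧ mA R D i' z then f z else 0) =
      ∑ x, (if R i x ∧ R i' x then ∑ t : Option (Fin T), f (Sum.inl (x, t)) else 0) +
      ∑ t, ∑ l, (if D i t l ∧ D i' t l then
        f (Sum.inr (Sum.inl (t, l, false))) + f (Sum.inr (Sum.inl (t, l, true))) else 0) := by
  rw [sum_XC]
  have h3 : ∑ w : W, (if mA R D i (Sum.inr (Sum.inr w) : XC N T L W) ∧
      mA R D i' (Sum.inr (Sum.inr w) : XC N T L W) then f (Sum.inr (Sum.inr w)) else 0) = 0 :=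
    sum_eq_zero fun w _ => if_neg fun h => h.1
  rw [h3, add_zero]
  congr 1
  · refine sum_congr rfl fun x _ => ?_
    by_cases h : R i x ∧ R i' x
    · rw [if_pos h]
      exact sum_congr rfl fun t _ => if_pos h
    · rw [if_neg h]
      exact sum_eq_zero fun t _ => if_neg h
  · refine sum_congr rfl fun t _ => sum_congr rfl fun l _ => ?_
    by_cases h : D i t l ∧ D i' t l
    · rw [if_pos h, Fintype.sum_bool, add_comm]
      exact congrArg₂ (· + ·) (if_pos h) (if_pos h)
    · rw [if_neg h]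
      exact sum_eq_zero fun b _ => if_neg h

open scoped Classical in
/-- a big set and a block -/
lemma s_ab {Q : Type} [AddCommGroup Q] (f : XC N T L W → Q) (i : I) (t : Fin T) :
    ∑ z, (if mA R D i z ∧ mG o F (Sum.inl t : GC T L E) z then f z else 0) =
      ∑ x, (if R i x then f (Sum.inl (x, some t)) else 0) +
      ∑ l, (if D i t l then f (Sum.inr (Sum.inl (t, l, false))) else 0) := by
  rw [sum_XC]
  have h3 : ∑ w : W, (if mA R D i (Sum.inr (Sum.inr w) : XC N T L W) ∧
      mG o F (Sum.inl t : GC T L E) (Sum.inr (Sum.inr w) : XC N T L W)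
      then f (Sum.inr (Sum.inr w)) else 0) = 0 :=
    sum_eq_zero fun w _ => if_neg fun h => h.1
  rw [h3, add_zero]
  congr 1
  · refine sum_congr rfl fun x _ => ?_
    rw [Finset.sum_eq_single (some t)]
    · by_cases h : R i x
      · rw [if_pos h]
        exact if_pos ⟨h, rfl⟩
      · rw [if_neg h]
        exact if_neg fun hh => h hh.1
    · intro t' _ ht'
      exact if_neg fun hh => ht' hh.2
    · intro h
      exact absurd (mem_univ _) h
  · rw [Finset.sum_eq_single t]
    · refine sum_congr rfl fun l _ => ?_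
      rw [Finset.sum_eq_single false]
      · by_cases h : D i t l
        · rw [if_pos h]
          exact if_pos ⟨h, rfl, rfl⟩
        · rw [if_neg h]
          exact if_neg fun hh => h hh.1
      · intro b _ hb
        exact if_neg fun hh => hb hh.2.2
      · intro h
        exact absurd (mem_univ _) h
    · intro t' _ ht'
      refine sum_eq_zero fun l _ => sum_eq_zero fun b _ => if_neg fun hh => ht' hh.2.1
    · intro h
      exact absurd (mem_univ _) h

open scoped Classical in
/-- a big set and a linking set -/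
lemma s_as {Q : Type} [AddCommGroup Q] (f : XC N T L W → Q) (i : I) (t : Fin T) (l : L)
    (b : Bool) :
    ∑ z, (if mA R D i z ∧ mG o F (Sum.inr (Sum.inl (t, l, b)) : GC T L E) z then f z else 0) =
      (if D i t l then f (Sum.inr (Sum.inl (t, l, false))) + f (Sum.inr (Sum.inl (t, l, true)))
        else 0) := by
  rw [sum_XC]
  have h3 : ∑ w : W, (if mA R D i (Sum.inr (Sum.inr w) : XC N T L W) ∧
      mG o F (Sum.inr (Sum.inl (t, l, b)) : GC T L E) (Sum.inr (Sum.inr w) : XC N T L W)
      then f (Sum.inr (Sum.inr w)) else 0) = 0 :=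
    sum_eq_zero fun w _ => if_neg fun h => h.1
  have h4 : ∑ x : N, ∑ t' : Option (Fin T), (if mA R D i (Sum.inl (x, t') : XC N T L W) ∧
      mG o F (Sum.inr (Sum.inl (t, l, b)) : GC T L E) (Sum.inl (x, t') : XC N T L W)
      then f (Sum.inl (x, t')) else 0) = 0 :=
    sum_eq_zero fun x _ => sum_eq_zero fun t' _ => if_neg fun h => h.2
  rw [h3, add_zero, h4, zero_add, Finset.sum_eq_single t, Finset.sum_eq_single l]
  · by_cases h : D i t l
    · rw [if_pos h, Fintype.sum_bool, add_comm]
      exact congrArg₂ (· + ·) (if_pos ⟨h, rfl, rfl⟩) (if_pos ⟨h, rfl, rfl⟩)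
    · rw [if_neg h]
      exact sum_eq_zero fun b _ => if_neg fun hh => h hh.1
  · intro l' _ hl'
    exact sum_eq_zero fun b _ => if_neg fun hh => hl' hh.2.2
  · intro h
    exact absurd (mem_univ _) h
  · intro t' _ ht'
    refine sum_eq_zero fun l _ => sum_eq_zero fun b _ => if_neg fun hh => ht' hh.2.1
  · intro h
    exact absurd (mem_univ _) h

open scoped Classical in
/-- a big set and an outside set -/
lemma s_af {Q : Type} [AddCommGroup Q] (f : XC N T L W → Q) (i : I) (r : E × Bool) :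
    ∑ z, (if mA R D i z ∧ mG o F (Sum.inr (Sum.inr r) : GC T L E) z then f z else 0) = 0 := by
  refine sum_eq_zero fun z _ => if_neg fun h => ?_
  rcases z with z | z | z
  · exact h.2
  · exact h.2
  · exact h.1

open scoped Classical in
/-- first active pair -/
lemma s_ss {Q : Type} [AddCommGroup Q] (f : XC N T L W → Q) (t : Fin T) (l : L) :
    sgm (mG o F : GC T L E → XC N T L W → Prop) f
      s(Sum.inr (Sum.inl (t, l, false)), Sum.inr (Sum.inl (t, l, true))) =
      f (Sum.inr (Sum.inl (t, l, false))) + f (Sum.inr (Sum.inl (t, l, true))) := by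
  rw [sgm_mk, sum_XC]
  have h3 : ∑ w : W, (if mG o F (Sum.inr (Sum.inl (t, l, false)) : GC T L E)
      (Sum.inr (Sum.inr w) : XC N T L W) ∧
      mG o F (Sum.inr (Sum.inl (t, l, true)) : GC T L E) (Sum.inr (Sum.inr w) : XC N T L W)
      then f (Sum.inr (Sum.inr w)) else 0) = 0 := by
    refine sum_eq_zero fun w _ => if_neg fun h => ?_
    have := h.2.1
    simp at this
  have h4 : ∑ x : N, ∑ t' : Option (Fin T), (if mG o F (Sum.inr (Sum.inl (t, l, false)) : GC T L E)
      (Sum.inl (x, t') : XC N T L W) ∧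
      mG o F (Sum.inr (Sum.inl (t, l, true)) : GC T L E) (Sum.inl (x, t') : XC N T L W)
      then f (Sum.inl (x, t')) else 0) = 0 :=
    sum_eq_zero fun x _ => sum_eq_zero fun t' _ => if_neg fun h => h.2
  rw [h3, add_zero, h4, zero_add, Finset.sum_eq_single t, Finset.sum_eq_single l]
  · rw [Fintype.sum_bool, add_comm]
    exact congrArg₂ (· + ·) (if_pos ⟨⟨rfl, rfl⟩, rfl, rfl⟩) (if_pos ⟨⟨rfl, rfl⟩, rfl, rfl⟩)
  · intro l' _ hl'
    exact sum_eq_zero fun b _ => if_neg fun hh => hl' hh.2.2
  · intro h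
    exact absurd (mem_univ _) h
  · intro t' _ ht'
    refine sum_eq_zero fun l _ => sum_eq_zero fun b _ => if_neg fun hh => ht' hh.2.1
  · intro h
    exact absurd (mem_univ _) h

open scoped Classical in
/-- second active pair -/
lemma s_sb {Q : Type} [AddCommGroup Q] (f : XC N T L W → Q) (t : Fin T) (l : L) :
    sgm (mG o F : GC T L E → XC N T L W → Prop) f
      s(Sum.inr (Sum.inl (t, l, false)), Sum.inl t) =
      f (Sum.inr (Sum.inl (t, l, false))) + f (Sum.inr (Sum.inr (o t l))) := by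
  rw [sgm_mk, sum_XC]
  have h3 : ∑ w : W, (if mG o F (Sum.inr (Sum.inl (t, l, false)) : GC T L E)
      (Sum.inr (Sum.inr w) : XC N T L W) ∧
      mG o F (Sum.inl t : GC T L E) (Sum.inr (Sum.inr w) : XC N T L W)
      then f (Sum.inr (Sum.inr w)) else 0) = f (Sum.inr (Sum.inr (o t l))) := by
    rw [Finset.sum_eq_single (o t l)]
    · exact if_pos ⟨⟨rfl, rfl⟩, l, rfl⟩
    · intro w _ hw
      exact if_neg fun hh => hw hh.1.2
    · intro h
      exact absurd (mem_univ _) h
  have h4 : ∑ x : N, ∑ t' : Option (Fin T), (if mG o F (Sum.inr (Sum.inl (t, l, false)) : GC T L E)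
      (Sum.inl (x, t') : XC N T L W) ∧
      mG o F (Sum.inl t : GC T L E) (Sum.inl (x, t') : XC N T L W)
      then f (Sum.inl (x, t')) else 0) = 0 :=
    sum_eq_zero fun x _ => sum_eq_zero fun t' _ => if_neg fun h => h.1
  rw [h3, h4, zero_add, Finset.sum_eq_single t, Finset.sum_eq_single l, Fintype.sum_bool]
  · congr 1
    have e : (if mG o F (Sum.inr (Sum.inl (t, l, false)) : GC T L E)
      (Sum.inr (Sum.inl (t, l, true)) : XC N T L W) ∧
      mG o F (Sum.inl t : GC T L E) (Sum.inr (Sum.inl (t, l, true)) : XC N T L W)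
      then f (Sum.inr (Sum.inl (t, l, true))) else 0) = 0 := by
      refine if_neg fun hh => ?_
      have := hh.2.2
      simp at this
    rw [e, zero_add]
    exact if_pos ⟨⟨rfl, rfl⟩, rfl, rfl⟩
  · intro l' _ hl'
    exact sum_eq_zero fun b _ => if_neg fun hh => hl' hh.1.2
  · intro h
    exact absurd (mem_univ _) h
  · intro t' _ ht'
    refine sum_eq_zero fun l _ => sum_eq_zero fun b _ => if_neg fun hh => ht' hh.2.1
  · intro h
    exact absurd (mem_univ _) h

open scoped Classical in
/-- third active pair -/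
lemma s_ff {Q : Type} [AddCommGroup Q] (f : XC N T L W → Q) (r : E) :
    sgm (mG o F : GC T L E → XC N T L W → Prop) f
      s(Sum.inr (Sum.inr (r, false)), Sum.inr (Sum.inr (r, true))) =
      ∑ w, (if F r w then f (Sum.inr (Sum.inr w)) else 0) := by
  rw [sgm_mk, sum_XC]
  have h4 : ∑ x : N, ∑ t' : Option (Fin T), (if mG o F (Sum.inr (Sum.inr (r, false)) : GC T L E)
      (Sum.inl (x, t') : XC N T L W) ∧
      mG o F (Sum.inr (Sum.inr (r, true)) : GC T L E) (Sum.inl (x, t') : XC N T L W)
      then f (Sum.inl (x, t')) else 0) = 0 :=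
    sum_eq_zero fun x _ => sum_eq_zero fun t' _ => if_neg fun h => h.1
  have h5 : ∑ t, ∑ l, ∑ b, (if mG o F (Sum.inr (Sum.inr (r, false)) : GC T L E)
      (Sum.inr (Sum.inl (t, l, b)) : XC N T L W) ∧
      mG o F (Sum.inr (Sum.inr (r, true)) : GC T L E)
        (Sum.inr (Sum.inl (t, l, b)) : XC N T L W)
      then f (Sum.inr (Sum.inl (t, l, b))) else 0) = 0 :=
    sum_eq_zero fun t _ => sum_eq_zero fun l _ => sum_eq_zero fun b _ => if_neg fun h => h.1
  rw [h4, h5, zero_add, zero_add]
  refine sum_congr rfl fun w _ => ?_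
  by_cases h : F r w
  · rw [if_pos h]
    exact if_pos ⟨h, h⟩
  · rw [if_neg h]
    exact if_neg fun hh => h hh.1

theorem core_of_block {Q : Type} [AddCommGroup Q] (φ : Fin T → N → Q) (ω : W → Q)
    (h : BlockRel R D o F φ ω) :
    CoreRel (mA R D : I → XC N T L W → Prop) (mG o F : GC T L E → XC N T L W → Prop) AC
      (EC o φ ω) := by
  classical
  have hz : ∀ x : N, ∑ t : Option (Fin T), EC o φ ω (Sum.inl (x, t) : XC N T L W) = 0 := by
    intro x
    rw [Fintype.sum_option]
    simp only [EC]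
    abel
  refine ⟨?_, ?_, ?_⟩
  · intro i i'
    have := s_aa R D (EC o φ ω : XC N T L W → Q) i i'
    refine Eq.trans ?_ (this.trans ?_)
    · refine sum_congr rfl fun z _ => ?_
      congr
    · simp only [hz, ite_self, sum_const_zero, zero_add]
      refine sum_eq_zero fun t _ => sum_eq_zero fun l _ => ?_
      simp [EC]
  · rintro i (t | ⟨t, l, b⟩ | r)
    · have := s_ab R D o F (EC o φ ω : XC N T L W → Q) i t
      refine Eq.trans ?_ (this.trans ?_)
      · refine sum_congr rfl fun z _ => ?_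
        congr
      · simp only [EC]
        rw [h.row i t, ← sum_add_distrib]
        refine sum_eq_zero fun l _ => ?_
        split_ifs <;> simp
    · have := s_as R D o F (EC o φ ω : XC N T L W → Q) i t l b
      refine Eq.trans ?_ (this.trans ?_)
      · refine sum_congr rfl fun z _ => ?_
        congr
      · simp [EC]
    · have := s_af R D o F (EC o φ ω : XC N T L W → Q) i r
      refine Eq.trans ?_ this
      refine sum_congr rfl fun z _ => ?_
      congr
  · rintro s (⟨t, l, rfl⟩ | ⟨t, l, rfl⟩ | ⟨r, rfl⟩)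
    · rw [s_ss]
      simp [EC]
    · rw [s_sb]
      simp [EC]
    · rw [s_ff]
      exact h.out r

theorem block_of_core (hR : ∀ (Q : Type) [AddCommGroup Q] (f : N → Q),
    (∀ i, ∑ x, (@ite Q (R i x) (Classical.propDecidable _) (f x) 0) = 0) → ∀ x, f x = 0)
    {Q : Type} [AddCommGroup Q] (f : XC N T L W → Q)
    (h : CoreRel (mA R D : I → XC N T L W → Prop) (mG o F : GC T L E → XC N T L W → Prop) AC f) :
    (∀ z, f z = EC o (fun t x => f (Sum.inl (x, some t))) (fun w => f (Sum.inr (Sum.inr w))) z) ∧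
    BlockRel R D o F (fun t x => f (Sum.inl (x, some t))) (fun w => f (Sum.inr (Sum.inr w))) := by
  classical
  have h1 : ∀ t l, f (Sum.inr (Sum.inl (t, l, false))) + f (Sum.inr (Sum.inl (t, l, true))) = 0 :=
    fun t l => by rw [← s_ss o F f t l]; exact h.act _ (Or.inl ⟨t, l, rfl⟩)
  have h2 : ∀ t l, f (Sum.inr (Sum.inl (t, l, false))) + f (Sum.inr (Sum.inr (o t l))) = 0 :=
    fun t l => by rw [← s_sb o F f t l]; exact h.act _ (Or.inr (Or.inl ⟨t, l, rfl⟩))
  have h3 : ∀ r, ∑ w, (if F r w then f (Sum.inr (Sum.inr w)) else 0) = 0 :=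
    fun r => by
      have := s_ff (N := N) (T := T) (L := L) o F f r
      rw [h.act _ (Or.inr (Or.inr ⟨r, rfl⟩))] at this
      exact this.symm
  have h4 : ∀ i t, ∑ x, (if R i x then f (Sum.inl (x, some t)) else 0) +
      ∑ l, (if D i t l then f (Sum.inr (Sum.inl (t, l, false))) else 0) = 0 := by
    intro i t
    have e := s_ab R D o F f i t
    rw [← e]
    refine Eq.trans ?_ (h.ag i (Sum.inl t))
    refine sum_congr rfl fun z _ => ?_
    congr
  have h5 : ∀ x, ∑ t : Option (Fin T), f (Sum.inl (x, t)) = 0 := by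
    refine hR Q (fun x => ∑ t : Option (Fin T), f (Sum.inl (x, t))) ?_
    intro i
    have e := s_aa R D f i i
    have e2 : ∑ t, ∑ l, (if D i t l ∧ D i t l then
        f (Sum.inr (Sum.inl (t, l, false))) + f (Sum.inr (Sum.inl (t, l, true))) else 0) = 0 :=
      sum_eq_zero fun t _ => sum_eq_zero fun l _ => by rw [h1, ite_self]
    rw [e2, add_zero] at e
    have e3 := h.aa i i
    have e4 : ∑ z, (if mA R D i z ∧ mA R D i z then f z else 0) = 0 := by
      refine Eq.trans ?_ e3
      refine sum_congr rfl fun z _ => ?_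
      congr
    rw [e4] at e
    refine Eq.trans (sum_congr rfl fun x _ => ?_) e.symm
    by_cases hh : R i x
    · rw [if_pos hh, if_pos ⟨hh, hh⟩]
    · rw [if_neg hh, if_neg fun hhh => hh hhh.1]
  have h6 : ∀ t l, f (Sum.inr (Sum.inl (t, l, false))) = - f (Sum.inr (Sum.inr (o t l))) :=
    fun t l => eq_neg_of_add_eq_zero_left (h2 t l)
  refine ⟨?_, ⟨?_, ?_⟩⟩
  · rintro (⟨x, _ | t⟩ | ⟨t, l, _ | _⟩ | w)
    · have := h5 x
      rw [Fintype.sum_option] at this
      exact eq_neg_of_add_eq_zero_left this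
    · rfl
    · exact h6 t l
    · have := h1 t l
      rw [h6 t l] at this
      simp only [EC]
      have e := eq_neg_of_add_eq_zero_right this
      rw [e, neg_neg]
    · rfl
  · intro r
    exact h3 r
  · intro i t
    have e := h4 i t
    have e2 : ∑ l, (if D i t l then f (Sum.inr (Sum.inl (t, l, false))) else 0) =
        - ∑ l, (if D i t l then f (Sum.inr (Sum.inr (o t l))) else 0) := by
      rw [← sum_neg_distrib]
      refine sum_congr rfl fun l _ => ?_
      split_ifs
      · exact h6 t l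
      · rw [neg_zero]
    rw [e2, ← sub_eq_add_neg, sub_eq_zero] at e
    exact e

/-- naturality of `EC` -/
lemma EC_map {Q Q' : Type} [AddCommGroup Q] [AddCommGroup Q'] (θ : Q →+ Q') (φ : Fin T → N → Q)
    (ω : W → Q) (z : XC N T L W) :
    EC o (fun t x => θ (φ t x)) (fun w => θ (ω w)) z = θ (EC o φ ω z) := by
  rcases z with ⟨x, _ | t⟩ | ⟨t, l, _ | _⟩ | w <;> simp [EC]

open scoped Classical in
/-- Criterion on the blocks. -/
theorem invRA_block [Fintype I] (hR : ∀ (Q : Type) [AddCommGroup Q] (f : N → Q),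
    (∀ i, ∑ x, (@ite Q (R i x) (Classical.propDecidable _) (f x) 0) = 0) → ∀ x, f x = 0)
    (k : ℕ) (c : Fin T → N → ℤ) (d : W → ℤ) (w₀ : W) (hd : d w₀ = 1)
    (hrel : BlockRel R D o F (fun t x => ((c t x : ℤ) : ZMod k)) (fun w => ((d w : ℤ) : ZMod k)))
    (huniv : ∀ (Q : Type) [AddCommGroup Q] (φ : Fin T → N → Q) (ω : W → Q),
      BlockRel R D o F φ ω → (∀ t x, φ t x = c t x • ω w₀) ∧ (∀ w, ω w = d w • ω w₀) ∧
        (k : ℤ) • ω w₀ = 0) :
    InvRA k (splitG (memX (mA R D : I → XC N T L W → Prop)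
      (mG o F : GC T L E → XC N T L W → Prop) AC)) := by
  classical
  refine invRA_core _ _ AC AC_nd k (EC o c d) (Sum.inr (Sum.inr w₀)) hd ?_ ?_
  · have h := core_of_block R D o F _ _ hrel
    have e : (fun z : XC N T L W => ((EC o c d z : ℤ) : ZMod k)) =
        EC o (fun t x => ((c t x : ℤ) : ZMod k)) (fun w => ((d w : ℤ) : ZMod k)) := by
      funext z
      exact (EC_map o (Int.castAddHom (ZMod k)) c d z).symm
    rw [e]
    exact h
  · intro Q _ f hf
    obtain ⟨h1, h2⟩ := block_of_core R D o F hR f hf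
    obtain ⟨h3, h4, h5⟩ := huniv Q _ _ h2
    refine ⟨fun z => ?_, h5⟩
    rw [h1 z]
    have e1 : (fun (t : Fin T) (x : N) => f (Sum.inl (x, some t))) =
        fun t x => (zmultiplesHom Q (f (Sum.inr (Sum.inr w₀)))) (c t x) := by
      funext t x
      rw [h3 t x]
      simp
    have e2 : (fun w : W => f (Sum.inr (Sum.inr w))) =
        fun w => (zmultiplesHom Q (f (Sum.inr (Sum.inr w₀)))) (d w) := by
      funext w
      rw [h4 w]
      simp
    rw [e1, e2, EC_map]
    simp

end

end Pool.Agent.Lib.MP_b5c453_co.As
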