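import Pool.Agent.Lib.MP_b5c453_co.AsUp

/-!
MP_b5c453_co, sharp asymptotics: sizes and the upper bound.
-/

set_option autoImplicit false
set_option linter.unusedSectionVars false

open Finset

namespace Pool.Agent.Lib.MP_b5c453_co.As

lemma exists_Enum (m : ℕ) (hm : 5 ≤ m) : ∃ (n : ℕ) (b : ℕ → Finset ℕ), Enum m 4 n b := by
  obtain ⟨n, b, h1, h2, h3, h4, h5⟩ := exists_enum m 4 hm
  exact ⟨n, b, ⟨h1, h2, h3, h4, h5⟩⟩

section

variable {m n : ℕ} {b : ℕ → Finset ℕ}

/-- sums over the enumerated sets -/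
lemma sum_enum (h : Enum m 4 n b) {M : Type} [AddCommMonoid M] (F : Finset ℕ → M) :
    ∑ i ∈ range (n + 1), F (b i) =
      ∑ β ∈ (range m).powerset.filter (fun β => ¬ β.card ≤ 4), F β := by
  refine sum_bij (fun i _ => b i) ?_ ?_ ?_ ?_
  · intro i hi
    rw [mem_range] at hi
    have h1 := h.mem i (by omega)
    rw [mem_filter, mem_powerset]
    exact ⟨h1.1, by omega⟩
  · intro i hi j hj hij
    rw [mem_range] at hi hj
    exact h.inj i j (by omega) (by omega) hij
  · intro β hβ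
    rw [mem_filter, mem_powerset] at hβ
    obtain ⟨i, hi, rfl⟩ := h.cov β hβ.1 (by omega)
    exact ⟨i, mem_range.2 (by omega), rfl⟩
  · intro i _
    rfl

lemma card_enum (h : Enum m 4 n b) :
    ((range m).powerset.filter (fun β => β.card ≤ 4)).card + (n + 1) = 2 ^ m := by
  have h1 := sum_enum h (fun _ => 1)
  rw [sum_const, sum_const, card_range, smul_eq_mul, smul_eq_mul, mul_one, mul_one] at h1
  have h2 := card_filter_add_card_filter_not (s := (range m).powerset) (fun β => β.card ≤ 4)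
  rw [card_powerset, card_range, ← h1] at h2
  exact h2

lemma sum_card_range (m : ℕ) : 2 * ∑ β ∈ (range m).powerset, (β.card : ℤ) = m * 2 ^ m := by
  induction m with
  | zero => simp
  | succ m ih =>
    rw [range_add_one, sum_powerset_insert (notMem_range_self)]
    have h1 : ∑ t ∈ (range m).powerset, ((insert m t).card : ℤ) =
        ∑ t ∈ (range m).powerset, ((t.card : ℤ) + 1) := by
      refine sum_congr rfl fun t ht => ?_
      rw [card_insert_of_notMem]
      · push_cast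
        rfl
      · intro h2
        exact notMem_range_self (mem_powerset.1 ht h2)
    rw [h1, sum_add_distrib, sum_const, card_powerset, card_range]
    push_cast
    rw [pow_succ]
    simp only [nsmul_eq_mul, mul_one]
    push_cast
    linarith

lemma expo_le (h : Enum m 4 n b) (hm : 12 ≤ m) :
    2 ^ (m - 1) * (m - 12) - m ≤ ∑ i ∈ range n, ((b i).card - 2) := by
  have h1 : ∑ i ∈ range (n + 1), (((b i).card : ℤ) - 2) =
      ∑ β ∈ (range m).powerset.filter (fun β => ¬ β.card ≤ 4), ((β.card : ℤ) - 2) :=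
    sum_enum h (fun β => (β.card : ℤ) - 2)
  have h2 : ∑ β ∈ (range m).powerset, ((β.card : ℤ) - 6) ≤
      ∑ β ∈ (range m).powerset.filter (fun β => ¬ β.card ≤ 4), ((β.card : ℤ) - 2) := by
    rw [sum_filter]
    refine sum_le_sum fun β _ => ?_
    split_ifs with h3
    · have : (β.card : ℤ) ≤ 4 := by exact_mod_cast h3
      linarith
    · linarith
  have h3 : ∑ β ∈ (range m).powerset, ((β.card : ℤ) - 6) =
      ∑ β ∈ (range m).powerset, (β.card : ℤ) - 6 * 2 ^ m := by
    rw [sum_sub_distrib, sum_const, card_powerset, card_range, nsmul_eq_mul]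
    push_cast
    ring
  have h4 := sum_card_range m
  rw [sum_range_succ, h.last, card_range] at h1
  have h5 : ∑ i ∈ range n, (((b i).card : ℤ) - 2) = ((∑ i ∈ range n, ((b i).card - 2) : ℕ) : ℤ) := by
    rw [Nat.cast_sum]
    refine sum_congr rfl fun i hi => ?_
    rw [mem_range] at hi
    have := (h.mem i hi.le).2
    rw [Nat.cast_sub (by omega)]
    rfl
  obtain ⟨p, rfl⟩ : ∃ p, m = p + 1 := ⟨m - 1, by omega⟩
  have h6 : ((2 ^ (p + 1 - 1) * (p + 1 - 12) : ℕ) : ℤ) = 2 ^ p * ((p : ℤ) + 1 - 12) := by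
    rw [Nat.add_sub_cancel, Nat.cast_mul, Nat.cast_sub hm]
    push_cast
    ring
  have h7 : ((2 ^ (p + 1 - 1) * (p + 1 - 12) : ℕ) : ℤ) ≤
      ((∑ i ∈ range n, ((b i).card - 2) : ℕ) : ℤ) + ((p + 1 : ℕ) : ℤ) := by
    rw [h6, ← h5]
    rw [pow_succ] at h3 h4
    push_cast at h1 h4 ⊢
    nlinarith
  have h8 : 2 ^ (p + 1 - 1) * (p + 1 - 12) ≤ ∑ i ∈ range n, ((b i).card - 2) + (p + 1) := by
    exact_mod_cast h7
  omega

lemma prod_le_GG (h : Enum m 4 n b) :
    (∀ j < n, 0 < GG n (ac b) (j + 1) ∧ GG n (ac b) j ≤ 2 ^ m * GG n (ac b) (j + 1)) ∧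
    (2 : ℤ) ^ (∑ i ∈ range n, ((b i).card - 2)) ≤ GG n (ac b) 0 := by
  obtain ⟨h1, _, h3⟩ := GG_bounds n (ac b) (fun j => (b j).card)
    (fun j hj => (h.mem j hj.le).2) (fun j hj => ac_self h j hj)
    (fun j i hji hi => ac_abs h j i hji hi) n le_rfl
  rw [Nat.sub_self] at h1 h3
  refine ⟨fun j hj => ?_, ?_⟩
  · obtain ⟨_, h5, h6⟩ := h3 j (Nat.zero_le _) hj
    refine ⟨h6, h5.trans ?_⟩
    refine mul_le_mul_of_nonneg_right ?_ h6.le
    refine pow_le_pow_right₀ (by norm_num) ?_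
    have := card_le_card (h.mem j hj.le).1
    rwa [card_range] at this
  · have key : ∀ p ≤ n, (2 : ℤ) ^ (∑ i ∈ Ico (n - p) n, ((b i).card - 2)) ≤
        GG n (ac b) (n - p) := by
      intro p
      induction p with
      | zero =>
        intro _
        rw [Nat.sub_zero, Ico_self, sum_empty, pow_zero, GG_last]
      | succ p ih =>
        intro hp
        have ih' := ih (by omega)
        obtain ⟨j, hj⟩ : ∃ j, n - (p + 1) = j := ⟨_, rfl⟩
        have hj1 : n - p = j + 1 := by omega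
        have hjn : j < n := by omega
        rw [hj1] at ih'
        rw [hj, Finset.sum_eq_sum_Ico_succ_bot hjn, pow_add]
        obtain ⟨h4, _, h6⟩ := h3 j (Nat.zero_le _) hjn
        exact (mul_le_mul_of_nonneg_left ih' (by positivity)).trans h4
    have h4 := key n le_rfl
    rwa [Nat.sub_self, ← range_eq_Ico] at h4

end

open scoped Classical in
lemma card_Priv_le {G : Type} [Fintype G] (Act : Sym2 G → Prop) :
    Fintype.card (Priv Act) ≤ Fintype.card G * Fintype.card G := by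
  refine (Fintype.card_subtype_le _).trans ?_
  rw [← Fintype.card_prod]
  exact Fintype.card_le_of_surjective (fun p : G × G => s(p.1, p.2)) fun z => by
    induction z with
    | _ x y => exact ⟨(x, y), rfl⟩

lemma card_five (A B C D : Type) [Fintype A] [Fintype B] [Fintype C] [Fintype D] :
    Fintype.card ((A ⊕ (B ⊕ Unit)) ⊕ (C ⊕ D)) =
      (Fintype.card A + (Fintype.card B + 1)) + (Fintype.card C + Fintype.card D) := by
  rw [Fintype.card_sum, Fintype.card_sum, Fintype.card_sum, Fintype.card_sum, Fintype.card_unit]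

open scoped Classical in
/-- the upper bound -/
theorem m_le_asym (m T k : ℕ) (hm : 13 ≤ m) (hT : 1 ≤ T) (_hk : 2 ≤ k)
    (hlt : k < 2 ^ (T * (2 ^ (m - 1) * (m - 12) - m))) :
    Pool.Agent.Lib.MP_b5c453_co.m k ≤ (T + 2) * 2 ^ m + 300 * m ^ 2 * T ^ 2 := by
  obtain ⟨n, b, h⟩ := exists_Enum m (by omega)
  obtain ⟨hG1, hG2⟩ := prod_le_GG h
  have hexp := expo_le h (by omega)
  have hG0 : 0 < GG n (ac b) 0 := lt_of_lt_of_le (by positivity) hG2
  have hkG : (k : ℤ) < GG n (ac b) 0 ^ T := by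
    have h1 : (k : ℤ) < 2 ^ (T * (2 ^ (m - 1) * (m - 12) - m)) := by exact_mod_cast hlt
    refine h1.trans_le ?_
    rw [mul_comm T, pow_mul]
    refine pow_le_pow_left₀ (by positivity) ?_ T
    exact (pow_le_pow_right₀ (by norm_num) hexp).trans hG2
  obtain ⟨c, d, hc0, hcT, hd⟩ := all_digits (2 ^ m) n (GG n (ac b)) (GG_last n (ac b)) hG1 hG0 T k
    (by positivity) hkG
  set dg : ℕ → ℕ → ℕ := fun t j => (d t j).toNat with hdg
  have hdg1 : ∀ t < T, ∀ j < n, dg t (j + 1) < 2 ^ m := by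
    intro t ht j hj
    obtain ⟨h1, h2⟩ := (hd t ht).1 j hj
    rw [hdg]
    simp only
    have h3 : ((2 ^ m : ℕ) : ℤ) = 2 ^ m := by push_cast; rfl
    rw [← h3] at h2
    omega
  have hc : ∀ t < T, c (t + 1) = GG n (ac b) 0 * c t + ∑ j ∈ range n, GG n (ac b) (j + 1) *
      (dg t (j + 1) : ℤ) := by
    intro t ht
    rw [(hd t ht).2]
    congr 1
    refine sum_congr rfl fun j hj => ?_
    rw [hdg]
    simp only
    rw [Int.toNat_of_nonneg ((hd t ht).1 j (mem_range.1 hj)).1]
  have hm0 : 0 < m := by omega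
  have hinv := invRA_block (pR m n b) (pD m n T dg) (po m T) (pF m T)
    (fun Q _ f hf => pR_uni h Q f hf) k (labT m n b dg c T) (labW m T c)
    (Sum.inr (Sum.inl (⟨0, hm0⟩, true))) (by simp [labW])
    (blockRel_mod h dg c hdg1 hc k hc0 hcT)
    (fun Q _ φ ω hφ => universal h hm0 dg c hdg1 hc k hc0 hcT Q φ ω hφ)
  set V := (XC (PN m) T (PL m) (PW m T) ⊕ (Priv (AC : Sym2 (GC T (PL m) (PE m)) → Prop) ⊕ Unit)) ⊕
    (PI m n ⊕ GC T (PL m) (PE m)) with hV
  have hcard : Fintype.card V ≤ (T + 2) * 2 ^ m + 300 * m ^ 2 * T ^ 2 := by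
    have hPN : Fintype.card (PN m) = 2 ^ m := by
      rw [Fintype.card_coe, card_powerset, card_range]
    have hPI : Fintype.card (PI m n) = 2 ^ m + 1 := by
      rw [Fintype.card_sum, Fintype.card_sum, Fintype.card_coe, Fintype.card_fin,
        Fintype.card_unit, ← card_enum h]
      ring
    have hGC : Fintype.card (GC T (PL m) (PE m)) = T + (T * ((2 + m) * 2) + (2 + (m + m)) * 2) := by
      simp only [Fintype.card_sum, Fintype.card_prod, Fintype.card_fin, Fintype.card_bool]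
    have hXC : Fintype.card (XC (PN m) T (PL m) (PW m T)) =
        2 ^ m * (T + 1) + (T * ((2 + m) * 2) + ((T + 1) + (m * 2 + 1))) := by
      simp only [Fintype.card_sum, Fintype.card_prod, Fintype.card_fin, Fintype.card_bool,
        Fintype.card_option, Fintype.card_unit, hPN]
    have hPr := card_Priv_le (AC : Sym2 (GC T (PL m) (PE m)) → Prop)
    have hg : T + (T * ((2 + m) * 2) + (2 + (m + m)) * 2) ≤ 15 * (m * T) := by
      obtain ⟨p, rfl⟩ : ∃ p, m = p + 1 := ⟨m - 1, by omega⟩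
      obtain ⟨q, rfl⟩ : ∃ q, T = q + 1 := ⟨T - 1, by omega⟩
      nlinarith [Nat.zero_le (p * q), Nat.zero_le p, Nat.zero_le q]
    have hx : T * ((2 + m) * 2) + ((T + 1) + (m * 2 + 1)) + 2 ≤ 15 * (m * T) := by
      obtain ⟨p, rfl⟩ : ∃ p, m = p + 1 := ⟨m - 1, by omega⟩
      obtain ⟨q, rfl⟩ : ∃ q, T = q + 1 := ⟨T - 1, by omega⟩
      nlinarith [Nat.zero_le (p * q), Nat.zero_le p, Nat.zero_le q]
    have hVc : Fintype.card V = (Fintype.card (XC (PN m) T (PL m) (PW m T)) +
        (Fintype.card (Priv (AC : Sym2 (GC T (PL m) (PE m)) → Prop)) + 1)) +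
        (Fintype.card (PI m n) + Fintype.card (GC T (PL m) (PE m))) := card_five _ _ _ _
    rw [hVc, hXC, hPI]
    rw [hGC] at hPr ⊢
    set g := T + (T * ((2 + m) * 2) + (2 + (m + m)) * 2) with hgdef
    set z := m * T with hz
    have hz1 : 1 ≤ z := by
      rw [hz]
      exact Nat.mul_pos (by omega) (by omega)
    have hgg : g * g ≤ (15 * z) * (15 * z) := Nat.mul_le_mul hg hg
    have hzz : z ≤ z * z := Nat.le_mul_of_pos_left z hz1
    have e1 : m ^ 2 * T ^ 2 = z * z := by rw [hz]; ring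
    have e2 : 300 * m ^ 2 * T ^ 2 = 300 * (z * z) := by rw [← e1]; ring
    rw [e2]
    have e3 : (T + 2) * 2 ^ m = 2 ^ m * (T + 1) + 2 ^ m := by ring
    rw [e3]
    have e4 : (15 * z) * (15 * z) = 225 * (z * z) := by ring
    rw [e4] at hgg
    omega
  refine le_trans ?_ hcard
  unfold Pool.Agent.Lib.MP_b5c453_co.m
  refine Nat.sInf_le ⟨V, inferInstance, _, rfl, ?_, hinv⟩
  refine split_triangle _ (Sum.inl (Sum.inr (Sum.inr (Sum.inl 0))))
    (Sum.inl (Sum.inr (Sum.inr (Sum.inr (Sum.inr ()))))) (Sum.inr (Sum.inr ())) ?_ ?_ ?_ <;> simp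

end Pool.Agent.Lib.MP_b5c453_co.As
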