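import Mathlib

/-!
MP_b5c453_co, sharp asymptotics: enumeration of the subsets of `range m` with at least `s₀`
elements, by size, where consecutive sets differ by a swap or by adding one element (revolving
door).
-/

set_option autoImplicit false

open Finset

namespace Pool.Agent.Lib.MP_b5c453_co.As

/-- the revolving door list of the `s`-subsets of `range n` -/
def rd : ℕ → ℕ → List (Finset ℕ)
  | _, 0 => [∅]
  | 0, _ + 1 => []
  | n + 1, s + 1 => rd n (s + 1) ++ ((rd n s).reverse.map (insert n))

/-- one step: exactly one new element, at most one element is lost -/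
def Step (α β : Finset ℕ) : Prop := (β \ α).card = 1 ∧ (α \ β).card ≤ 1

/-- a swap -/
def Sw (α β : Finset ℕ) : Prop := (β \ α).card = 1 ∧ (α \ β).card = 1

lemma Sw.step {α β : Finset ℕ} (h : Sw α β) : Step α β := ⟨h.1, h.2.le⟩

lemma Sw.symm {α β : Finset ℕ} (h : Sw α β) : Sw β α := ⟨h.2, h.1⟩

lemma Step.card_le {α β : Finset ℕ} (h : Step α β) : α.card ≤ β.card := by
  have h1 := card_sdiff_add_card_inter α β
  have h2 := card_sdiff_add_card_inter β α
  rw [inter_comm] at h2
  have := h.1; have := h.2
  omega

lemma rd_zero (n : ℕ) : rd n 0 = [∅] := by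
  cases n <;> rfl

lemma rd_mem : ∀ (n s : ℕ) (β : Finset ℕ), β ∈ rd n s ↔ β ⊆ range n ∧ β.card = s
  | n, 0, β => by
    rw [rd_zero, List.mem_singleton, card_eq_zero]
    constructor
    · rintro rfl
      exact ⟨empty_subset _, rfl⟩
    · exact fun h => h.2
  | 0, s + 1, β => by
    have : rd 0 (s + 1) = [] := rfl
    rw [this]
    simp only [List.not_mem_nil, range_zero, subset_empty, false_iff, not_and]
    rintro rfl
    simp
  | n + 1, s + 1, β => by
    have h : rd (n + 1) (s + 1) = rd n (s + 1) ++ ((rd n s).reverse.map (insert n)) := rfl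
    rw [h, List.mem_append, List.mem_map, rd_mem n (s + 1)]
    simp only [List.mem_reverse, rd_mem n s]
    constructor
    · rintro (⟨h1, h2⟩ | ⟨γ, ⟨h1, h2⟩, rfl⟩)
      · exact ⟨h1.trans (range_subset_range.2 (Nat.le_succ n)), h2⟩
      · have hn : n ∉ γ := fun hh => by simpa using h1 hh
        refine ⟨?_, by rw [card_insert_of_notMem hn, h2]⟩
        rw [insert_subset_iff]
        exact ⟨by simp, h1.trans (range_subset_range.2 (Nat.le_succ n))⟩
    · rintro ⟨h1, h2⟩
      by_cases hn : n ∈ β
      · right
        refine ⟨β.erase n, ⟨?_, ?_⟩, insert_erase hn⟩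
        · intro x hx
          have h3 := h1 (mem_of_mem_erase hx)
          have h4 := ne_of_mem_erase hx
          rw [mem_range] at *
          omega
        · rw [card_erase_of_mem hn, h2]
          rfl
      · left
        refine ⟨?_, h2⟩
        intro x hx
        have h3 := h1 hx
        have h4 : x ≠ n := fun hh => hn (hh ▸ hx)
        rw [mem_range] at *
        omega

lemma rd_nodup : ∀ n s : ℕ, (rd n s).Nodup
  | n, 0 => by rw [rd_zero]; simp
  | 0, s + 1 => List.nodup_nil
  | n + 1, s + 1 => by
    have h : rd (n + 1) (s + 1) = rd n (s + 1) ++ ((rd n s).reverse.map (insert n)) := rfl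
    rw [h, List.nodup_append]
    refine ⟨rd_nodup n (s + 1), ?_, ?_⟩
    · refine List.Nodup.map_on ?_ (List.nodup_reverse.2 (rd_nodup n s))
      intro a ha b hb hab
      rw [List.mem_reverse, rd_mem] at ha hb
      have ha' : n ∉ a := fun hh => by simpa using ha.1 hh
      have hb' : n ∉ b := fun hh => by simpa using hb.1 hh
      rw [← erase_insert ha', hab, erase_insert hb']
    · intro a ha b hb hab
      rw [rd_mem] at ha
      rw [List.mem_map] at hb
      obtain ⟨γ, -, rfl⟩ := hb
      have : n ∈ a := by rw [hab]; exact mem_insert_self _ _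
      simpa using ha.1 this

lemma rd_head : ∀ n s : ℕ, s ≤ n → (rd n s).head? = some (range s)
  | n, 0, _ => by rw [rd_zero]; simp
  | 0, s + 1, h => absurd h (by omega)
  | n + 1, s + 1, h => by
    have h0 : rd (n + 1) (s + 1) = rd n (s + 1) ++ ((rd n s).reverse.map (insert n)) := rfl
    rw [h0]
    by_cases hs : s + 1 ≤ n
    · rw [List.head?_append, rd_head n (s + 1) hs]
      rfl
    · have hsn : s = n := by omega
      subst hsn
      have h1 : rd s (s + 1) = [] := by
        rw [List.eq_nil_iff_forall_not_mem]
        intro β hβ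
        rw [rd_mem] at hβ
        have := card_le_card hβ.1
        rw [card_range] at this
        omega
      have h2 : rd s s = [range s] := by
        have h3 : ∀ β ∈ rd s s, β = range s := by
          intro β hβ
          rw [rd_mem] at hβ
          exact eq_of_subset_of_card_le hβ.1 (by rw [card_range, hβ.2])
        have h4 : range s ∈ rd s s := by
          rw [rd_mem]
          exact ⟨Subset.rfl, card_range s⟩
        have h5 := rd_nodup s s
        match hh : rd s s with
        | [] => rw [hh] at h4; simp at h4
        | [x] => rw [hh] at h3; rw [h3 x (by simp)]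
        | x :: y :: l =>
          rw [hh] at h3 h5
          have e1 := h3 x (by simp)
          have e2 := h3 y (by simp)
          rw [e1, e2] at h5
          simp at h5
      rw [h1, h2]
      simp [range_add_one]

lemma rd_last (n s : ℕ) (h : s + 1 ≤ n) :
    (rd n (s + 1)).getLast? = some (insert (n - 1) (range s)) := by
  obtain ⟨n, rfl⟩ : ∃ n', n = n' + 1 := ⟨n - 1, by omega⟩
  have h0 : rd (n + 1) (s + 1) = rd n (s + 1) ++ ((rd n s).reverse.map (insert n)) := rfl
  rw [h0, List.getLast?_append, List.getLast?_map, List.getLast?_reverse,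
    rd_head n s (by omega)]
  rfl

lemma sw_insert {n : ℕ} {α β : Finset ℕ} (hα : n ∉ α) (hβ : n ∉ β) (h : Sw α β) :
    Sw (insert n α) (insert n β) := by
  have h1 : insert n β \ insert n α = β \ α := by
    ext x
    simp only [mem_sdiff, mem_insert, not_or]
    constructor
    · rintro ⟨h1 | h1, h2, h3⟩
      · exact absurd h1 h2
      · exact ⟨h1, h3⟩
    · rintro ⟨h1, h2⟩
      exact ⟨Or.inr h1, fun hh => hβ (hh ▸ h1), h2⟩
  have h2 : insert n α \ insert n β = α \ β := by
    ext x
    simp only [mem_sdiff, mem_insert, not_or]
    constructor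
    · rintro ⟨h1 | h1, h2, h3⟩
      · exact absurd h1 h2
      · exact ⟨h1, h3⟩
    · rintro ⟨h1, h2⟩
      exact ⟨Or.inr h1, fun hh => hα (hh ▸ h1), h2⟩
  unfold Sw
  rw [h1, h2]
  exact h

lemma rd_chain : ∀ n s : ℕ, List.IsChain Sw (rd n s)
  | n, 0 => by rw [rd_zero]; exact List.isChain_singleton _
  | 0, s + 1 => List.isChain_nil
  | n + 1, s + 1 => by
    have h0 : rd (n + 1) (s + 1) = rd n (s + 1) ++ ((rd n s).reverse.map (insert n)) := rfl
    rw [h0, List.isChain_append]
    refine ⟨rd_chain n (s + 1), ?_, ?_⟩
    · rw [List.isChain_map]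
      have h1 : List.IsChain Sw (rd n s).reverse := by
        rw [List.isChain_reverse]
        exact (rd_chain n s).imp fun a b h => h.symm
      have h2 : ∀ x ∈ (rd n s).reverse, n ∉ x := by
        intro x hx hn
        rw [List.mem_reverse, rd_mem] at hx
        simpa using hx.1 hn
      exact (List.IsChain.imp_of_mem_imp (fun a b ha hb hab => sw_insert (h2 a ha) (h2 b hb) hab)
        h1)
    · intro x hx y hy
      by_cases hs : s + 1 ≤ n
      · rw [rd_last n s hs] at hx
        rw [List.head?_map, List.head?_reverse] at hy
        have hx' : x = insert (n - 1) (range s) := by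
          simpa using hx.symm
        rcases s with _ | s
        · rw [rd_zero] at hy
          have hy' : y = insert n ∅ := by simpa using hy.symm
          subst hx' hy'
          constructor
          · have : (insert n ∅ : Finset ℕ) \ insert (n - 1) (range 0) = {n} := by
              ext z
              simp only [range_zero, insert_empty_eq, mem_sdiff, mem_singleton]
              omega
            rw [this, card_singleton]
          · have : (insert (n - 1) (range 0) : Finset ℕ) \ insert n ∅ = {n - 1} := by
              ext z
              simp only [range_zero, insert_empty_eq, mem_sdiff, mem_singleton]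
              omega
            rw [this, card_singleton]
        · rw [rd_last n s (by omega)] at hy
          have hy' : y = insert n (insert (n - 1) (range s)) := by simpa using hy.symm
          subst hx' hy'
          constructor
          · have : (insert n (insert (n - 1) (range s)) : Finset ℕ) \
                insert (n - 1) (range (s + 1)) = {n} := by
              ext z
              simp only [mem_sdiff, mem_insert, mem_singleton, mem_range, not_or]
              omega
            rw [this, card_singleton]
          · have : (insert (n - 1) (range (s + 1)) : Finset ℕ) \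
                insert n (insert (n - 1) (range s)) = {s} := by
              ext z
              simp only [mem_sdiff, mem_insert, mem_singleton, mem_range, not_or]
              omega
            rw [this, card_singleton]
      · have h1 : rd n (s + 1) = [] := by
          rw [List.eq_nil_iff_forall_not_mem]
          intro β hβ
          rw [rd_mem] at hβ
          have := card_le_card hβ.1
          rw [card_range] at this
          omega
        rw [h1] at hx
        simp at hx

/-- the list of all subsets with sizes from `s₀ + 1` to `s₀ + 1 + j` -/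
def ll (m s₀ : ℕ) : ℕ → List (Finset ℕ)
  | 0 => rd m (s₀ + 1)
  | j + 1 => ll m s₀ j ++ (if Even j then (rd m (s₀ + 1 + j + 1)).reverse
      else rd m (s₀ + 1 + j + 1))

lemma ll_mem (m s₀ : ℕ) : ∀ j β, β ∈ ll m s₀ j ↔
    β ⊆ range m ∧ s₀ + 1 ≤ β.card ∧ β.card ≤ s₀ + 1 + j
  | 0, β => by
    have : ll m s₀ 0 = rd m (s₀ + 1) := rfl
    rw [this, rd_mem]
    constructor
    · rintro ⟨h1, h2⟩
      exact ⟨h1, by omega, by omega⟩
    · rintro ⟨h1, h2, h3⟩
      exact ⟨h1, by omega⟩
  | j + 1, β => by
    have h : ll m s₀ (j + 1) = ll m s₀ j ++ (if Even j then (rd m (s₀ + 1 + j + 1)).reverse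
      else rd m (s₀ + 1 + j + 1)) := rfl
    have h2 : β ∈ (if Even j then (rd m (s₀ + 1 + j + 1)).reverse
      else rd m (s₀ + 1 + j + 1)) ↔ β ⊆ range m ∧ β.card = s₀ + 1 + j + 1 := by
      split_ifs
      · rw [List.mem_reverse, rd_mem]
      · rw [rd_mem]
    rw [h, List.mem_append, ll_mem m s₀ j, h2]
    constructor
    · rintro (⟨h1, h2, h3⟩ | ⟨h1, h2⟩)
      · exact ⟨h1, h2, by omega⟩
      · exact ⟨h1, by omega, by omega⟩
    · rintro ⟨h1, h2, h3⟩
      by_cases h4 : β.card ≤ s₀ + 1 + j
      · exact Or.inl ⟨h1, h2, h4⟩
      · exact Or.inr ⟨h1, by omega⟩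

lemma ll_nodup (m s₀ : ℕ) : ∀ j, (ll m s₀ j).Nodup
  | 0 => rd_nodup m (s₀ + 1)
  | j + 1 => by
    have h : ll m s₀ (j + 1) = ll m s₀ j ++ (if Even j then (rd m (s₀ + 1 + j + 1)).reverse
      else rd m (s₀ + 1 + j + 1)) := rfl
    rw [h, List.nodup_append]
    refine ⟨ll_nodup m s₀ j, ?_, ?_⟩
    · split_ifs
      · exact List.nodup_reverse.2 (rd_nodup _ _)
      · exact rd_nodup _ _
    · intro a ha b hb hab
      rw [ll_mem] at ha
      have hb' : b.card = s₀ + 1 + j + 1 := by
        split_ifs at hb
        · rw [List.mem_reverse, rd_mem] at hb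
          exact hb.2
        · rw [rd_mem] at hb
          exact hb.2
      rw [hab] at ha
      omega

lemma ll_last (m s₀ : ℕ) : ∀ j, s₀ + 1 + j ≤ m → (ll m s₀ j).getLast? =
    some (if Even j then insert (m - 1) (range (s₀ + j)) else range (s₀ + 1 + j))
  | 0, h => by
    have h1 : ll m s₀ 0 = rd m (s₀ + 1) := rfl
    rw [h1, rd_last m s₀ (by omega)]
    simp
  | j + 1, h => by
    have h1 : ll m s₀ (j + 1) = ll m s₀ j ++ (if Even j then (rd m (s₀ + 1 + j + 1)).reverse
      else rd m (s₀ + 1 + j + 1)) := rfl
    rw [h1, List.getLast?_append]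
    by_cases hj : Even j
    · rw [if_pos hj, List.getLast?_reverse, rd_head m _ (by omega)]
      have : ¬ Even (j + 1) := by rwa [Nat.even_add_one, not_not]
      rw [if_neg this]
      rfl
    · rw [if_neg hj, rd_last m (s₀ + 1 + j) (by omega)]
      have : Even (j + 1) := by rwa [Nat.even_add_one]
      rw [if_pos this]
      have e : s₀ + 1 + j = s₀ + (j + 1) := by omega
      rw [e]
      rfl

lemma ll_chain (m s₀ : ℕ) : ∀ j, s₀ + 1 + j ≤ m → List.IsChain Step (ll m s₀ j)
  | 0, _ => (rd_chain m (s₀ + 1)).imp fun a b h => h.step
  | j + 1, h => by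
    have h1 : ll m s₀ (j + 1) = ll m s₀ j ++ (if Even j then (rd m (s₀ + 1 + j + 1)).reverse
      else rd m (s₀ + 1 + j + 1)) := rfl
    rw [h1, List.isChain_append]
    refine ⟨ll_chain m s₀ j (by omega), ?_, ?_⟩
    · split_ifs
      · rw [List.isChain_reverse]
        exact (rd_chain _ _).imp fun a b h => h.symm.step
      · exact (rd_chain _ _).imp fun a b h => h.step
    · intro x hx y hy
      rw [ll_last m s₀ j (by omega)] at hx
      have hx' := Option.some_injective _ hx
      by_cases hj : Even j
      · rw [if_pos hj] at hx' hy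
        rw [List.head?_reverse, rd_last m (s₀ + 1 + j) (by omega)] at hy
        have hy' := Option.some_injective _ hy
        subst hx' hy'
        constructor
        · have : (insert (m - 1) (range (s₀ + 1 + j)) : Finset ℕ) \
              insert (m - 1) (range (s₀ + j)) = {s₀ + j} := by
            ext z
            simp only [mem_sdiff, mem_insert, mem_singleton, mem_range, not_or]
            omega
          rw [this, card_singleton]
        · have : (insert (m - 1) (range (s₀ + j)) : Finset ℕ) \
              insert (m - 1) (range (s₀ + 1 + j)) = ∅ := by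
            ext z
            simp only [mem_sdiff, mem_insert, mem_range, not_or, notMem_empty, iff_false]
            omega
          rw [this]
          simp
      · rw [if_neg hj] at hx' hy
        rw [rd_head m _ (by omega)] at hy
        have hy' := Option.some_injective _ hy
        subst hx' hy'
        constructor
        · have : (range (s₀ + 1 + j + 1) : Finset ℕ) \ range (s₀ + 1 + j) = {s₀ + 1 + j} := by
            ext z
            simp only [mem_sdiff, mem_singleton, mem_range]
            omega
          rw [this, card_singleton]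
        · have : (range (s₀ + 1 + j) : Finset ℕ) \ range (s₀ + 1 + j + 1) = ∅ := by
            ext z
            simp only [mem_sdiff, mem_range, notMem_empty, iff_false]
            omega
          rw [this]
          simp

/-- The enumeration. -/
theorem exists_enum (m s₀ : ℕ) (hs : s₀ + 1 ≤ m) : ∃ (n : ℕ) (b : ℕ → Finset ℕ),
    (∀ i ≤ n, b i ⊆ range m ∧ s₀ + 1 ≤ (b i).card) ∧
    (∀ β ⊆ range m, s₀ + 1 ≤ β.card → ∃ i ≤ n, b i = β) ∧
    (∀ i j, i ≤ n → j ≤ n → b i = b j → i = j) ∧
    (∀ i < n, Step (b i) (b (i + 1))) ∧ b n = range m := by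
  set l := ll m s₀ (m - (s₀ + 1)) with hl
  have hlast := ll_last m s₀ (m - (s₀ + 1)) (by omega)
  rw [← hl] at hlast
  have hchain := ll_chain m s₀ (m - (s₀ + 1)) (by omega)
  rw [← hl] at hchain
  have hnodup := ll_nodup m s₀ (m - (s₀ + 1))
  rw [← hl] at hnodup
  have hmem : ∀ β, β ∈ l ↔ β ⊆ range m ∧ s₀ + 1 ≤ β.card := by
    intro β
    rw [hl, ll_mem]
    constructor
    · rintro ⟨h1, h2, _⟩
      exact ⟨h1, h2⟩
    · rintro ⟨h1, h2⟩
      have := card_le_card h1
      rw [card_range] at this
      exact ⟨h1, h2, by omega⟩
  have hne : l ≠ [] := by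
    intro h
    rw [h] at hlast
    simp at hlast
  have hlen : 0 < l.length := List.length_pos_iff.2 hne
  refine ⟨l.length - 1, fun i => l.getD i ∅, ?_, ?_, ?_, ?_, ?_⟩
  · intro i hi
    have hi' : i < l.length := by omega
    simp only [List.getD_eq_getElem _ _ hi']
    exact (hmem _).1 (List.getElem_mem hi')
  · intro β h1 h2
    obtain ⟨i, hi, h3⟩ := List.getElem_of_mem ((hmem β).2 ⟨h1, h2⟩)
    refine ⟨i, by omega, ?_⟩
    simp only [List.getD_eq_getElem _ _ hi, h3]
  · intro i j hi hj hij
    have hi' : i < l.length := by omega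
    have hj' : j < l.length := by omega
    simp only [List.getD_eq_getElem _ _ hi', List.getD_eq_getElem _ _ hj'] at hij
    exact (hnodup.getElem_inj_iff).1 hij
  · intro i hi
    have hi' : i < l.length := by omega
    have hj' : i + 1 < l.length := by omega
    simp only [List.getD_eq_getElem _ _ hi', List.getD_eq_getElem _ _ hj']
    exact List.isChain_iff_getElem.1 hchain i hj'
  · simp only [List.getD_eq_getElem _ _ (by omega : l.length - 1 < l.length)]
    have h1 := List.getLast?_eq_getElem? (l := l)
    rw [hlast] at h1
    have h2 : l[l.length - 1]? = some l[l.length - 1] := List.getElem?_eq_getElem (by omega)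
    rw [h2] at h1
    have h3 := Option.some_injective _ h1
    rw [← h3]
    split_ifs with h4
    · have e : s₀ + (m - (s₀ + 1)) = m - 1 := by omega
      rw [e]
      ext z
      simp only [mem_insert, mem_range]
      omega
    · congr 1
      omega

end Pool.Agent.Lib.MP_b5c453_co.As
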