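import Mathlib

/-!
# MP_b5c453_co: the limit from the two bounds
-/

set_option autoImplicit false

namespace Pool.Agent.Lib.MP_b5c453_co.As

open Filter Topology

/-- the block length -/
def blk (m : ℕ) : ℕ := 2 ^ (m - 1) * (m - 12) - m

theorem blk_add (j : ℕ) : blk (j + 13) = 2 ^ (j + 12) * (j + 1) - (j + 13) := by
  unfold blk
  rw [show j + 13 - 1 = j + 12 by omega, show j + 13 - 12 = j + 1 by omega]

theorem pow_ge (j : ℕ) : 4096 * (j + 1) ≤ 2 ^ (j + 12) := by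
  induction j with
  | zero => norm_num
  | succ j ih =>
    rw [show j + 1 + 12 = (j + 12) + 1 by omega, pow_succ]
    omega

theorem blk_cast (j : ℕ) : (blk (j + 13) : ℤ) = 2 ^ (j + 12) * (j + 1) - (j + 13) := by
  have h := pow_ge j
  have h1 : j + 13 ≤ 2 ^ (j + 12) * (j + 1) := by nlinarith
  rw [blk_add, Nat.cast_sub h1]
  push_cast
  ring

theorem blk_ge (j : ℕ) : j + 1 ≤ blk (j + 13) := by
  have h := pow_ge j
  have h1 := blk_cast j
  zify at h ⊢
  nlinarith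

theorem blk_succ_le (j : ℕ) : blk (j + 14) ≤ 5 * blk (j + 13) := by
  have h := pow_ge j
  have h1 := blk_cast j
  have h2 := blk_cast (j + 1)
  rw [show j + 1 + 13 = j + 14 by omega] at h2
  zify at h ⊢
  rw [h1, h2]
  push_cast
  rw [show j + 1 + 12 = (j + 12) + 1 by omega, pow_succ]
  nlinarith

theorem blk_succ_le' (j : ℕ) : blk (j + 14) ≤ 2 ^ (j + 13) * (j + 13) := by
  have h := pow_ge j
  have h2 := blk_cast (j + 1)
  rw [show j + 1 + 13 = j + 14 by omega] at h2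
  zify at h ⊢
  rw [h2]
  push_cast
  rw [show j + 1 + 12 = j + 13 by omega]
  have h3 : (0 : ℤ) < 2 ^ (j + 13) := by positivity
  nlinarith

/-- normalised block length -/
noncomputable def uu (m : ℕ) : ℝ := (1 / 2) * (1 - 12 / (m : ℝ)) - (1 / 2) ^ m

theorem blk_uu (j : ℕ) : (blk (j + 13) : ℝ) =
    uu (j + 13) * (2 ^ (j + 13) * ((j + 13 : ℕ) : ℝ)) := by
  have h1 : ((blk (j + 13) : ℤ) : ℝ) = ((2 ^ (j + 12) * (j + 1) - (j + 13) : ℤ) : ℝ) := by
    rw [blk_cast j]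
  push_cast at h1
  rw [h1]
  unfold uu
  push_cast
  have h2 : ((j : ℝ) + 13) ≠ 0 := by positivity
  have h3 : (2 : ℝ) ^ (j + 13) ≠ 0 := by positivity
  have h4 : (1 / 2 : ℝ) ^ (j + 13) = 1 / 2 ^ (j + 13) := by
    rw [div_pow, one_pow]
  rw [h4]
  have h5 : (2 : ℝ) ^ (j + 13) = 2 * 2 ^ (j + 12) := by
    rw [show j + 13 = (j + 12) + 1 by omega, pow_succ]
    ring
  rw [h5]
  have h6 : (2 : ℝ) ^ (j + 12) ≠ 0 := by positivity
  field_simp
  ring

theorem tendsto_uu : Tendsto uu atTop (𝓝 (1 / 2)) := by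
  have h1 : Tendsto (fun m : ℕ => (12 : ℝ) / (m : ℝ)) atTop (𝓝 0) :=
    tendsto_const_div_atTop_nhds_zero_nat 12
  have h2 : Tendsto (fun m : ℕ => (1 / 2 : ℝ) ^ m) atTop (𝓝 0) :=
    tendsto_pow_atTop_nhds_zero_of_lt_one (by norm_num) (by norm_num)
  have h3 := (((tendsto_const_nhds (x := (1 : ℝ))).sub h1).const_mul (1 / 2 : ℝ)).sub h2
  have h4 : (1 / 2 : ℝ) * (1 - 0) - 0 = 1 / 2 := by norm_num
  rw [h4] at h3
  exact h3

/-- `log₂ (T₀ m 2 ^ m)` -/
noncomputable def dd (T0 m : ℕ) : ℝ :=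
  (Real.log T0 + m * Real.log 2 + Real.log m) / Real.log 2

theorem tendsto_dd (T0 : ℕ) : Tendsto (fun m : ℕ => dd T0 m / (m : ℝ)) atTop (𝓝 1) := by
  have hl : Real.log 2 ≠ 0 := (Real.log_pos (by norm_num)).ne'
  have h1 : Tendsto (fun m : ℕ => (Real.log T0) / (m : ℝ)) atTop (𝓝 0) :=
    tendsto_const_div_atTop_nhds_zero_nat _
  have h2 : Tendsto (fun m : ℕ => Real.log (m : ℝ) / (m : ℝ)) atTop (𝓝 0) := by
    have := (Real.tendsto_pow_log_div_mul_add_atTop 1 0 1 one_ne_zero).comp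
      (tendsto_natCast_atTop_atTop (R := ℝ))
    refine this.congr fun m => ?_
    simp
  have h3 := ((h1.div_const (Real.log 2)).add (tendsto_const_nhds (x := (1 : ℝ)))).add
    (h2.div_const (Real.log 2))
  have h4 : (0 : ℝ) / Real.log 2 + 1 + 0 / Real.log 2 = 1 := by simp
  rw [h4] at h3
  refine h3.congr' ?_
  filter_upwards [eventually_gt_atTop 0] with m hm
  have hm' : (m : ℝ) ≠ 0 := by positivity
  unfold dd
  field_simp

/-- the upper bound -/
noncomputable def gg (C T0 m : ℕ) : ℝ :=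
  (dd T0 m / (m : ℝ)) * (uu m)⁻¹ * ((1 + 3 / (T0 : ℝ)) + 25 * C * T0 * ((m : ℝ) ^ 2 / 2 ^ m))

theorem tendsto_gg (C T0 : ℕ) :
    Tendsto (gg C T0) atTop (𝓝 (2 * (1 + 3 / (T0 : ℝ)))) := by
  have h1 := tendsto_uu.inv₀ (by norm_num)
  have h2 : Tendsto (fun m : ℕ => (m : ℝ) ^ 2 / 2 ^ m) atTop (𝓝 0) :=
    tendsto_pow_const_div_const_pow_of_one_lt 2 (by norm_num)
  have h3 := ((tendsto_dd T0).mul h1).mul
    ((tendsto_const_nhds (x := (1 + 3 / (T0 : ℝ)))).add (h2.const_mul (25 * (C : ℝ) * T0)))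
  have h4 : (1 : ℝ) * (1 / 2)⁻¹ * (1 + 3 / (T0 : ℝ) + 25 * C * T0 * 0) =
      2 * (1 + 3 / (T0 : ℝ)) := by norm_num
  rw [h4] at h3
  exact h3

/-- the pointwise upper bound -/
theorem upper (M : ℕ → ℕ) (C : ℕ)
    (hup : ∀ m T k : ℕ, 13 ≤ m → 1 ≤ T → 2 ≤ k →
      k < 2 ^ (T * (2 ^ (m - 1) * (m - 12) - m)) → M k ≤ (T + 2) * 2 ^ m + C * m ^ 2 * T ^ 2)
    (T0 j k : ℕ) (hT0 : 1 ≤ T0) (hk : 3 ≤ k) (h1 : T0 * blk (j + 13) ≤ Nat.log 2 k)
    (h2 : Nat.log 2 k < T0 * blk (j + 14)) :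
    (M k : ℝ) * Real.log (Real.log k) / Real.log k ≤ gg C T0 (j + 13) := by
  set l := Nat.log 2 k with hl
  set b := blk (j + 13) with hb
  have hb0 : 0 < b := lt_of_lt_of_le (Nat.succ_pos _) (blk_ge j)
  set T := l / b + 1 with hT
  have hkT : k < 2 ^ (T * b) := by
    have h3 : k < 2 ^ (l + 1) := Nat.lt_pow_succ_log_self (by norm_num) k
    refine h3.trans_le (Nat.pow_le_pow_right (by norm_num) ?_)
    have := Nat.lt_div_mul_add (a := l) hb0
    rw [hT]
    nlinarith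
  have hM := hup (j + 13) T k (by omega) (Nat.le_add_left 1 _) (by omega) hkT
  have hT5 : T ≤ 5 * T0 := by
    have h3 : l < (5 * T0) * b := by
      have := blk_succ_le j
      nlinarith
    have h4 : l / b < 5 * T0 := (Nat.div_lt_iff_lt_mul hb0).2 h3
    omega
  have hl0 : 0 < l := by
    have : 0 < T0 * b := Nat.mul_pos (by omega) hb0
    omega
  -- real quantities
  have hlog2 : 0 < Real.log 2 := Real.log_pos (by norm_num)
  have hlog2' : Real.log 2 ≤ 1 := by
    have := Real.log_two_lt_d9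
    linarith
  have hL1 : (l : ℝ) * Real.log 2 ≤ Real.log k := by
    rw [← Real.log_pow]
    refine Real.log_le_log (by positivity) ?_
    have : 2 ^ l ≤ k := Nat.pow_log_le_self 2 (by omega)
    exact_mod_cast this
  have hL2 : Real.log k ≤ ((l : ℝ) + 1) := by
    have h3 : k < 2 ^ (l + 1) := Nat.lt_pow_succ_log_self (by norm_num) k
    have h4 : Real.log k ≤ ((l + 1 : ℕ) : ℝ) * Real.log 2 := by
      rw [← Real.log_pow]
      refine Real.log_le_log (by positivity) ?_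
      exact_mod_cast h3.le
    push_cast at h4
    have h5 : (0 : ℝ) ≤ (l : ℝ) + 1 := by positivity
    nlinarith
  have hLpos : 0 < Real.log k := by
    have : (0 : ℝ) < l := by exact_mod_cast hl0
    nlinarith
  have hLone : 1 ≤ Real.log k := by
    have h3 : Real.log 3 ≤ Real.log k := Real.log_le_log (by norm_num) (by exact_mod_cast hk)
    have h4 : 1 ≤ Real.log 3 := by
      rw [Real.le_log_iff_exp_le (by norm_num)]
      have := Real.exp_one_lt_d9
      linarith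
    linarith
  have hLL0 : 0 ≤ Real.log (Real.log k) := Real.log_nonneg hLone
  have hLL : Real.log (Real.log k) ≤ dd T0 (j + 13) * Real.log 2 := by
    have h3 : Real.log k ≤ T0 * (2 ^ (j + 13) * ((j + 13 : ℕ) : ℝ)) := by
      refine hL2.trans ?_
      have h4 : l + 1 ≤ T0 * (2 ^ (j + 13) * (j + 13)) :=
        le_trans h2 (Nat.mul_le_mul_left _ (blk_succ_le' j))
      exact_mod_cast h4
    have h4 := Real.log_le_log hLpos h3
    have hT0' : (T0 : ℝ) ≠ 0 := by positivity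
    have hj' : ((j + 13 : ℕ) : ℝ) ≠ 0 := by positivity
    rw [Real.log_mul hT0' (by positivity), Real.log_mul (by positivity) hj', Real.log_pow] at h4
    unfold dd
    rw [div_mul_cancel₀ _ hlog2.ne']
    linarith
  have hdd : 0 ≤ dd T0 (j + 13) := by
    by_contra hneg
    push Not at hneg
    nlinarith
  have hMr : (M k : ℝ) ≤ ((l : ℝ) / b + 3) * 2 ^ (j + 13) +
      25 * C * ((j + 13 : ℕ) : ℝ) ^ 2 * (T0 : ℝ) ^ 2 := by
    have h3 : (M k : ℝ) ≤ ((T : ℝ) + 2) * 2 ^ (j + 13) + C * ((j + 13 : ℕ) : ℝ) ^ 2 * (T : ℝ) ^ 2 := by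
      exact_mod_cast hM
    have h4 : (T : ℝ) ≤ (l : ℝ) / b + 1 := by
      rw [hT]
      push_cast
      have := Nat.cast_div_le (α := ℝ) (m := l) (n := b)
      linarith
    have h5 : (T : ℝ) ≤ 5 * T0 := by exact_mod_cast hT5
    have h6 : (T : ℝ) ^ 2 ≤ (5 * T0) ^ 2 := pow_le_pow_left₀ (by positivity) h5 2
    have h7 : (0 : ℝ) ≤ 2 ^ (j + 13) := by positivity
    have h8 : (0 : ℝ) ≤ C * ((j + 13 : ℕ) : ℝ) ^ 2 := by positivity
    nlinarith [mul_le_mul_of_nonneg_right h4 h7, mul_le_mul_of_nonneg_left h6 h8]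
  have hbr : (0 : ℝ) < b := by exact_mod_cast hb0
  have hlr : (0 : ℝ) < l := by exact_mod_cast hl0
  have hT0r : (0 : ℝ) < T0 := by exact_mod_cast hT0
  have hlb : (T0 : ℝ) * b ≤ l := by exact_mod_cast h1
  -- the estimate
  have step1 : (M k : ℝ) * Real.log (Real.log k) / Real.log k ≤
      (((l : ℝ) / b + 3) * 2 ^ (j + 13) + 25 * C * ((j + 13 : ℕ) : ℝ) ^ 2 * (T0 : ℝ) ^ 2) *
        (dd T0 (j + 13) / l) := by
    rw [mul_div_assoc]
    refine mul_le_mul hMr ?_ (div_nonneg hLL0 hLpos.le) (by positivity)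
    rw [div_le_div_iff₀ hLpos hlr]
    calc Real.log (Real.log k) * (l : ℝ) ≤ (dd T0 (j + 13) * Real.log 2) * l :=
          mul_le_mul_of_nonneg_right hLL hlr.le
      _ = dd T0 (j + 13) * ((l : ℝ) * Real.log 2) := by ring
      _ ≤ dd T0 (j + 13) * Real.log k := mul_le_mul_of_nonneg_left hL1 hdd
  refine step1.trans ?_
  have step2 : (((l : ℝ) / b + 3) * 2 ^ (j + 13) +
      25 * C * ((j + 13 : ℕ) : ℝ) ^ 2 * (T0 : ℝ) ^ 2) * (dd T0 (j + 13) / l) =
      dd T0 (j + 13) * (2 ^ (j + 13) / b + (3 * 2 ^ (j + 13) +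
        25 * C * ((j + 13 : ℕ) : ℝ) ^ 2 * (T0 : ℝ) ^ 2) / l) := by
    field_simp
    ring
  rw [step2]
  have step3 : (3 * 2 ^ (j + 13) + 25 * C * ((j + 13 : ℕ) : ℝ) ^ 2 * (T0 : ℝ) ^ 2) / (l : ℝ) ≤
      (3 * 2 ^ (j + 13) + 25 * C * ((j + 13 : ℕ) : ℝ) ^ 2 * (T0 : ℝ) ^ 2) / ((T0 : ℝ) * b) :=
    div_le_div_of_nonneg_left (by positivity) (by positivity) hlb
  refine (mul_le_mul_of_nonneg_left (add_le_add_right step3 _) hdd).trans (le_of_eq ?_)
  have hbu := blk_uu j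
  rw [← hb] at hbu
  have hu0 : uu (j + 13) ≠ 0 := by
    intro h0
    rw [h0, zero_mul] at hbu
    exact hbr.ne' hbu
  have hj' : ((j + 13 : ℕ) : ℝ) ≠ 0 := by positivity
  rw [hbu]
  unfold gg
  field_simp
  ring

theorem lim_of_bounds (M : ℕ → ℕ) (C : ℕ) (hlow : ∀ k, 2 ≤ k → k ^ 2 ≤ (M k) ^ (M k))
    (hup : ∀ m T k : ℕ, 13 ≤ m → 1 ≤ T → 2 ≤ k →
      k < 2 ^ (T * (2 ^ (m - 1) * (m - 12) - m)) → M k ≤ (T + 2) * 2 ^ m + C * m ^ 2 * T ^ 2) :
    Filter.Tendsto (fun k : ℕ => (M k : ℝ) * Real.log (Real.log k) / Real.log k)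
      Filter.atTop (nhds 2) := by
  have hlogk : Tendsto (fun k : ℕ => Real.log (k : ℝ)) atTop atTop :=
    Real.tendsto_log_atTop.comp tendsto_natCast_atTop_atTop
  have hloglog : Tendsto (fun k : ℕ => Real.log (Real.log (k : ℝ))) atTop atTop :=
    Real.tendsto_log_atTop.comp hlogk
  refine tendsto_order.2 ⟨fun a ha => ?_, fun a ha => ?_⟩
  · filter_upwards [eventually_ge_atTop 2, hlogk.eventually_ge_atTop 1,
      hloglog.eventually_ge_atTop 2] with k hk hL hLL
    refine lt_of_lt_of_le ha ?_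
    have hL0 : 0 < Real.log k := by linarith
    have hLL0 : 0 < Real.log (Real.log k) := by linarith
    rw [le_div_iff₀ hL0]
    have hM0 : 0 < M k := by
      rcases Nat.eq_zero_or_pos (M k) with h | h
      · have := hlow k hk
        rw [h] at this
        nlinarith
      · exact h
    have hMr : (0 : ℝ) < M k := by exact_mod_cast hM0
    have h1 : 2 * Real.log k ≤ M k * Real.log (M k) := by
      have h2 : ((k : ℝ)) ^ 2 ≤ (M k : ℝ) ^ (M k) := by exact_mod_cast hlow k hk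
      have h3 := Real.log_le_log (by positivity) h2
      rw [Real.log_pow, Real.log_pow] at h3
      exact_mod_cast h3
    by_cases h2 : (M k : ℝ) ≤ Real.log k
    · have h3 := Real.log_le_log hMr h2
      calc 2 * Real.log k ≤ M k * Real.log (M k) := h1
        _ ≤ M k * Real.log (Real.log k) := mul_le_mul_of_nonneg_left h3 hMr.le
    · push Not at h2
      nlinarith
  · obtain ⟨T0, hT0⟩ := exists_nat_gt (6 / (a - 2) + 1)
    have ha' : 0 < a - 2 := by linarith
    have hT1 : (1 : ℝ) < T0 := by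
      have : 0 < 6 / (a - 2) := by positivity
      linarith
    have hT0' : 1 ≤ T0 := by
      have : 1 < T0 := by exact_mod_cast hT1
      omega
    have hlt : 2 * (1 + 3 / (T0 : ℝ)) < a := by
      have h1 : 6 / (a - 2) < T0 := by linarith
      rw [div_lt_iff₀ ha'] at h1
      have h2 : 6 / (T0 : ℝ) < a - 2 := by
        rw [div_lt_iff₀ (by linarith)]
        linarith
      have h3 : 2 * (1 + 3 / (T0 : ℝ)) = 2 + 6 / T0 := by ring
      rw [h3]
      linarith
    obtain ⟨m0, hm0⟩ := eventually_atTop.1 ((tendsto_order.1 (tendsto_gg C T0)).2 a hlt)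
    have hlog : Tendsto (fun k : ℕ => Nat.log 2 k) atTop atTop := by
      refine tendsto_atTop.2 fun b => ?_
      filter_upwards [eventually_ge_atTop (2 ^ b)] with k hk
      exact Nat.le_log_of_pow_le (by norm_num) hk
    filter_upwards [eventually_ge_atTop 3, hlog.eventually_ge_atTop (T0 * blk (m0 + 13))]
      with k hk hkl
    have hex : ∃ i, Nat.log 2 k < T0 * blk (m0 + i + 14) := by
      refine ⟨Nat.log 2 k, ?_⟩
      have h1 := blk_ge (m0 + Nat.log 2 k + 1)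
      rw [show m0 + Nat.log 2 k + 1 + 13 = m0 + Nat.log 2 k + 14 by omega] at h1
      nlinarith
    classical
    set i := Nat.find hex with hi
    have h2 : Nat.log 2 k < T0 * blk (m0 + i + 14) := Nat.find_spec hex
    have h1 : T0 * blk (m0 + i + 13) ≤ Nat.log 2 k := by
      rcases Nat.eq_zero_or_pos i with h0 | h0
      · rw [h0]
        exact hkl
      · have h3 := Nat.find_min hex (m := i - 1) (by omega)
        rw [show m0 + (i - 1) + 14 = m0 + i + 13 by omega] at h3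
        omega
    exact (upper M C hup T0 (m0 + i) k hT0' hk h1 h2).trans_lt (hm0 _ (by omega))

end Pool.Agent.Lib.MP_b5c453_co.As
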