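import Pool.Agent.Lib.MP_b5c453_co.Lower

/-!
# MP_b5c453_co: the lower bound from Hadamard's inequality
-/

set_option autoImplicit false

namespace Pool.Agent.Lib.MP_b5c453_co.As

open Finset Matrix

/-- Hadamard's inequality for real matrices (rows). -/
theorem hadamard {n : ℕ} (A : Matrix (Fin n) (Fin n) ℝ) :
    A.det ^ 2 ≤ ∏ i, ∑ j, (A i j) ^ 2 := by
  have : Fact (Module.finrank ℝ (EuclideanSpace ℝ (Fin n)) = n) := ⟨by simp⟩
  set b := EuclideanSpace.basisFun (Fin n) ℝ with hb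
  set v : Fin n → EuclideanSpace ℝ (Fin n) := fun i => WithLp.toLp 2 (A i) with hv
  have h1 := (b.toBasis.orientation).abs_volumeForm_apply_le v
  rw [(b.toBasis.orientation).volumeForm_robust' b v] at h1
  have h2 : b.toBasis.det v = A.det := by
    rw [Module.Basis.det_apply, ← Matrix.det_transpose]
    congr 1
  rw [h2] at h1
  calc A.det ^ 2 = |A.det| ^ 2 := (sq_abs _).symm
    _ ≤ (∏ i, ‖v i‖) ^ 2 := pow_le_pow_left₀ (abs_nonneg _) h1 2
    _ = ∏ i, ∑ j, (A i j) ^ 2 := by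
      rw [← Finset.prod_pow]
      refine Finset.prod_congr rfl fun i _ => ?_
      rw [EuclideanSpace.norm_sq_eq]
      refine Finset.sum_congr rfl fun j _ => ?_
      rw [Real.norm_eq_abs, sq_abs]

/-- a `0/1` matrix has `det ^ 2 ≤ n ^ n` -/
theorem det_sq_le {V : Type} [Fintype V] [DecidableEq V] (M : Matrix V V ℤ)
    (h01 : ∀ i j, M i j = 0 ∨ M i j = 1) :
    M.det ^ 2 ≤ ((Fintype.card V : ℕ) : ℤ) ^ Fintype.card V := by
  set e := Fintype.equivFin V with he
  set A : Matrix (Fin (Fintype.card V)) (Fin (Fintype.card V)) ℝ :=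
    (M.reindex e e).map (fun z : ℤ => (z : ℝ)) with hA
  have hdet : A.det = (M.det : ℝ) := by
    have h1 : A.det = (((M.reindex e e).det : ℤ) : ℝ) := by
      rw [hA]
      exact ((Int.castRingHom ℝ).map_det (M.reindex e e)).symm
    rw [h1, Matrix.det_reindex_self]
  have h2 := hadamard A
  rw [hdet] at h2
  have h3 : ∏ i, ∑ j, (A i j) ^ 2 ≤ ∏ _i : Fin (Fintype.card V), (Fintype.card V : ℝ) := by
    refine Finset.prod_le_prod (fun i _ => Finset.sum_nonneg fun j _ => sq_nonneg _) fun i _ => ?_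
    calc ∑ j, (A i j) ^ 2 ≤ ∑ _j : Fin (Fintype.card V), (1 : ℝ) := by
          refine Finset.sum_le_sum fun j _ => ?_
          have : A i j = ((M (e.symm i) (e.symm j) : ℤ) : ℝ) := rfl
          rw [this]
          rcases h01 (e.symm i) (e.symm j) with h | h <;> rw [h] <;> simp
      _ = (Fintype.card V : ℝ) := by simp
  rw [Finset.prod_const, Finset.card_univ, Fintype.card_fin] at h3
  have h4 := h2.trans h3
  exact_mod_cast h4

theorem InvRA.sq_le {V : Type} [Fintype V] {G : SimpleGraph V} {k : ℕ}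
    (hk : 1 ≤ k) (h : InvRA k G) : k ^ 2 ≤ (Fintype.card V) ^ (Fintype.card V) := by
  classical
  obtain ⟨M, h01, hdet, hdvd⟩ := exists_det hk h
  have h1 := det_sq_le M h01
  have h2 : (k : ℤ) ≤ |M.det| := Int.le_of_dvd (abs_pos.mpr hdet) ((dvd_abs _ _).mpr hdvd)
  have h3 : (k : ℤ) ^ 2 ≤ M.det ^ 2 := by
    rw [← sq_abs M.det]
    exact pow_le_pow_left₀ (by positivity) h2 2
  exact_mod_cast h3.trans h1

theorem sq_le (k : ℕ) (hk : 2 ≤ k) : k ^ 2 ≤ (m k) ^ (m k) := by
  obtain ⟨N, hN, _⟩ := exists_size_le_log k hk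
  obtain ⟨V, hV, G, hcard, _, hG⟩ := Nat.sInf_mem (⟨N, hN⟩ : (sizes k).Nonempty)
  have := InvRA.sq_le (by omega) hG
  rw [m_eq]
  rwa [hcard] at this

end Pool.Agent.Lib.MP_b5c453_co.As
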