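import Pool.Agent.Lib.MP_b5c453_co.Cover

/-!
MP_b5c453_co, sharp asymptotics: the split graph of a set system and its RA lattice.
-/

set_option autoImplicit false

open Finset

namespace Pool.Agent.Lib.MP_b5c453_co.As

/-- The split graph of a set system `mem : Y → X → Prop`: `X` is a clique, `Y` is independent and
`y` is joined to the elements of its set. -/
def splitG {X Y : Type} (mem : Y → X → Prop) : SimpleGraph (X ⊕ Y) where
  Adj
    | Sum.inl x, Sum.inl x' => x ≠ x'
    | Sum.inl x, Sum.inr y => mem y x
    | Sum.inr y, Sum.inl x => mem y x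
    | Sum.inr _, Sum.inr _ => False
  symm := ⟨by
    rintro (x | y) (x' | y') h
    · exact Ne.symm h
    · exact h
    · exact h
    · exact h⟩
  loopless := ⟨by
    rintro (x | y) h
    · exact h rfl
    · exact h⟩

section closed

variable {X Y : Type} (mem : Y → X → Prop)

lemma inl_inl (x x' : X) : (Sum.inl x' : X ⊕ Y) ∈ closedNbhd (splitG mem) (Sum.inl x) := by
  by_cases h : x' = x
  · left; rw [h]
  · right; exact Ne.symm h

lemma inl_inr (x : X) (y : Y) :
    (Sum.inr y : X ⊕ Y) ∈ closedNbhd (splitG mem) (Sum.inl x) ↔ mem y x := by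
  constructor
  · rintro (h | h)
    · cases h
    · exact h
  · intro h
    right; exact h

lemma inr_inl (x : X) (y : Y) :
    (Sum.inl x : X ⊕ Y) ∈ closedNbhd (splitG mem) (Sum.inr y) ↔ mem y x := by
  constructor
  · rintro (h | h)
    · cases h
    · exact h
  · intro h
    right; exact h

lemma inr_inr (y y' : Y) :
    (Sum.inr y' : X ⊕ Y) ∈ closedNbhd (splitG mem) (Sum.inr y) ↔ y' = y := by
  constructor
  · rintro (h | h)
    · exact Sum.inr_injective h
    · exact absurd h (fun hh => hh)
  · intro h
    left; rw [h]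

end closed

open scoped Classical in
/-- Criterion for the split graph of a set system to be `1/k`-RA. -/
theorem invRA_split {X Y : Type} [Fintype X] [Fintype Y]
    (mem : Y → X → Prop) (hproper : ∀ y, ∃ x, ¬ mem y x) (k : ℕ) (c : X → ℤ) (x₀ : X)
    (hc : c x₀ = 1) (h1 : (k : ℤ) ∣ ∑ x, c x)
    (h2 : ∀ y y', (k : ℤ) ∣ ∑ x, if mem y x ∧ mem y' x then c x else 0)
    (h3 : ∀ (Q : Type) [AddCommGroup Q] (f : X → Q), ∑ x, f x = 0 →
      (∀ y y', ∑ x, (if mem y x ∧ mem y' x then f x else 0) = 0) →
      (∀ x, f x = c x • f x₀) ∧ (k : ℤ) • f x₀ = 0) :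
    InvRA k (splitG mem) := by
  classical
  set G := splitG mem with hG
  set c' : X ⊕ Y → ℤ := Sum.elim c 0 with hc'
  set f : X ⊕ Y → ((X ⊕ Y → ℤ) ⧸ rowLattice G) := fun v =>
    (rowLattice G).mkQ (Pi.single v 1) with hf
  have hrel := fun u v => quot_rel G u v
  have hrel' : ∀ u v, ∑ x, (if Sum.inl x ∈ closedNbhd G u ∩ closedNbhd G v then f (Sum.inl x)
      else 0) + ∑ y, (if Sum.inr y ∈ closedNbhd G u ∩ closedNbhd G v then f (Sum.inr y)
      else 0) = 0 := by
    intro u v
    have := hrel u v
    rw [Fintype.sum_sum_type] at this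
    exact this
  -- the sets
  have hset : ∀ y, ∑ x, (if mem y x then f (Sum.inl x) else 0) = 0 := by
    intro y
    obtain ⟨x, hx⟩ := hproper y
    have h := hrel' (Sum.inl x) (Sum.inr y)
    simp only [Set.mem_inter_iff, hG, inl_inl, inl_inr, inr_inl, inr_inr, true_and] at h
    have e : ∑ y', (if mem y' x ∧ y' = y then f (Sum.inr y') else 0) = 0 := by
      refine Finset.sum_eq_zero fun y' _ => ?_
      rw [if_neg]
      rintro ⟨h1, h2⟩
      rw [h2] at h1
      exact hx h1
    rw [e, add_zero] at h
    exact h
  have hy : ∀ y, f (Sum.inr y) = 0 := by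
    intro y
    have h := hrel' (Sum.inr y) (Sum.inr y)
    simp only [Set.mem_inter_iff, hG, inr_inl, inr_inr, and_self] at h
    rw [hset y, zero_add, Finset.sum_ite_eq' univ y] at h
    simpa using h
  have hX : ∑ x, f (Sum.inl x) = 0 := by
    have h := hrel' (Sum.inl x₀) (Sum.inl x₀)
    simp only [Set.mem_inter_iff, hG, inl_inl, inl_inr, and_self, if_true, hy, ite_self,
      Finset.sum_const_zero, add_zero] at h
    exact h
  have hpair : ∀ y y', ∑ x, (if mem y x ∧ mem y' x then f (Sum.inl x) else 0) = 0 := by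
    intro y y'
    have h := hrel' (Sum.inr y) (Sum.inr y')
    simp only [Set.mem_inter_iff, hG, inr_inl, hy, ite_self,
      Finset.sum_const_zero, add_zero] at h
    exact h
  obtain ⟨hfc, hfk⟩ := h3 _ (fun x => f (Sum.inl x)) hX hpair
  refine invRA_of_criterion G k c' (Sum.inl x₀) hc ?_ ?_ ?_
  · -- divisibility
    have key : ∀ u v, ∑ z, c' z * indVec (closedNbhd G u ∩ closedNbhd G v) z =
        ∑ x, if Sum.inl x ∈ closedNbhd G u ∩ closedNbhd G v then c x else 0 := by
      intro u v
      rw [Fintype.sum_sum_type]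
      have e : ∑ y, c' (Sum.inr y) * indVec (closedNbhd G u ∩ closedNbhd G v) (Sum.inr y) = 0 := by
        refine Finset.sum_eq_zero fun y _ => ?_
        simp [hc']
      rw [e, add_zero]
      refine Finset.sum_congr rfl fun x _ => ?_
      unfold indVec
      split_ifs <;> simp [hc']
    intro u v
    rw [key]
    rcases u with x | y <;> rcases v with x' | y'
    · simp only [Set.mem_inter_iff, hG, inl_inl, and_self, if_true]
      exact h1
    · simp only [Set.mem_inter_iff, hG, inl_inl, inr_inl, true_and]
      have := h2 y' y'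
      simpa only [and_self] using this
    · simp only [Set.mem_inter_iff, hG, inl_inl, inr_inl, and_true]
      have := h2 y y
      simpa only [and_self] using this
    · simp only [Set.mem_inter_iff, hG, inr_inl]
      exact h2 y y'
  · intro z
    have h : (rowLattice G).mkQ (Pi.single z 1 - c' z • Pi.single (Sum.inl x₀) 1) = 0 := by
      rw [map_sub, map_smul]
      rcases z with x | y
      · have := hfc x
        rw [sub_eq_zero]
        exact this
      · have := hy y
        simp only [hf] at this
        rw [this]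
        simp [hc']
    rwa [Submodule.mkQ_apply, Submodule.Quotient.mk_eq_zero] at h
  · have h : (rowLattice G).mkQ ((k : ℤ) • Pi.single (Sum.inl x₀) 1) = 0 := by
      rw [map_smul]
      exact hfk
    rwa [Submodule.mkQ_apply, Submodule.Quotient.mk_eq_zero] at h

/-- the split graph has a triangle as soon as `X` has three elements -/
theorem split_triangle {X Y : Type} (mem : Y → X → Prop) (a b c : X) (hab : a ≠ b) (hac : a ≠ c)
    (hbc : b ≠ c) : ¬ (splitG mem).CliqueFree 3 := by
  classical
  intro h
  refine h {Sum.inl a, Sum.inl b, Sum.inl c} ?_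
  rw [SimpleGraph.is3Clique_triple_iff]
  exact ⟨hab, hac, hbc⟩

end Pool.Agent.Lib.MP_b5c453_co.As
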