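import Pool.Agent.Lib.MP_b5c453_co.AsChain
import Pool.Agent.Lib.MP_b5c453_co.AsCore

/-!
MP_b5c453_co, sharp asymptotics: the concrete family of rows, digits and outside sets, and the
universal solution of its relations.
-/

set_option autoImplicit false
set_option linter.unusedSectionVars false

open Finset

namespace Pool.Agent.Lib.MP_b5c453_co.As

/-- points of a block -/
abbrev PN (m : ℕ) : Type := {x : Finset ℕ // x ∈ (range m).powerset}

/-- rows -/
abbrev PI (m n : ℕ) : Type :=
  {x : Finset ℕ // x ∈ (range m).powerset.filter (fun β => β.card ≤ 4)} ⊕ (Fin (n + 1) ⊕ Unit)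

/-- digit names -/
abbrev PL (m : ℕ) : Type := Bool ⊕ Fin m

/-- outside points -/
abbrev PW (m T : ℕ) : Type := Fin (T + 1) ⊕ ((Fin m × Bool) ⊕ Unit)

/-- outside relations -/
abbrev PE (m : ℕ) : Type := Bool ⊕ (Fin m ⊕ Fin m)

/-- the rows -/
def pR (m n : ℕ) (b : ℕ → Finset ℕ) : PI m n → PN m → Prop
  | Sum.inl β, η => β.1 ⊆ η.1
  | Sum.inr (Sum.inl i), η =>
      if (i : ℕ) = 0 then b 0 ⊆ η.1 else CR (b ((i : ℕ) - 1)) (b (i : ℕ)) η.1
  | Sum.inr (Sum.inr _), η => range m ⊆ η.1

/-- the digits -/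
def pD (m n T : ℕ) (dg : ℕ → ℕ → ℕ) : PI m n → Fin T → PL m → Prop
  | Sum.inl _, _, _ => False
  | Sum.inr (Sum.inl i), _, Sum.inl false => (i : ℕ) = 0
  | Sum.inr (Sum.inl _), _, Sum.inl true => False
  | Sum.inr (Sum.inl i), t, Sum.inr l => (i : ℕ) ≠ 0 ∧ (dg t i).testBit l = true
  | Sum.inr (Sum.inr _), _, Sum.inl true => True
  | Sum.inr (Sum.inr _), _, _ => False

/-- the outside points of the digits -/
def po (m T : ℕ) : Fin T → PL m → PW m T
  | t, Sum.inl false => Sum.inl t.castSucc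
  | t, Sum.inl true => Sum.inl t.succ
  | _, Sum.inr l => Sum.inr (Sum.inl (l, false))

/-- the outside sets -/
def pF (m T : ℕ) : PE m → PW m T → Prop
  | Sum.inl false, Sum.inl t => t = 0
  | Sum.inl true, Sum.inl t => t = Fin.last T
  | Sum.inl _, Sum.inr _ => False
  | Sum.inr _, Sum.inl _ => False
  | Sum.inr (Sum.inl l), Sum.inr (Sum.inl z) => z.1 = l
  | Sum.inr (Sum.inl _), Sum.inr (Sum.inr _) => False
  | Sum.inr (Sum.inr l), Sum.inr (Sum.inl (j, true)) => j = l
  | Sum.inr (Sum.inr l), Sum.inr (Sum.inl (j, false)) => j < l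
  | Sum.inr (Sum.inr _), Sum.inr (Sum.inr _) => True

/-- extension by zero -/
def ex {Q : Type} [AddCommGroup Q] {m : ℕ} (φ : PN m → Q) (η : Finset ℕ) : Q :=
  if h : η ∈ (range m).powerset then φ ⟨η, h⟩ else 0

section

variable {Q : Type} [AddCommGroup Q] {m n T : ℕ} {b : ℕ → Finset ℕ}

lemma ex_coe (φ : PN m → Q) (x : PN m) : ex φ x.1 = φ x := by
  unfold ex
  rw [dif_pos x.2]

lemma sum_PN (φ : PN m → Q) (R : PN m → Prop) [DecidablePred R] (P : Finset ℕ → Prop)
    [DecidablePred P] (h : ∀ x : PN m, R x ↔ P x.1) :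
    ∑ x, (if R x then φ x else 0) = ∑ η ∈ (range m).powerset, (if P η then ex φ η else 0) := by
  rw [← Finset.sum_coe_sort (range m).powerset (fun η => if P η then ex φ η else 0)]
  refine sum_congr rfl fun x _ => ?_
  rw [ex_coe]
  by_cases h1 : R x
  · rw [if_pos h1, if_pos ((h x).1 h1)]
  · rw [if_neg h1, if_neg (fun h2 => h1 ((h x).2 h2))]

open scoped Classical in
/-- the row relations in terms of upper sums -/
lemma rows_iff (φ : PN m → Q) (y : PI m n → Q) :
    (∀ i, ∑ x, (if pR m n b i x then φ x else 0) = y i) ↔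
      (∀ β : {x : Finset ℕ // x ∈ (range m).powerset.filter (fun β => β.card ≤ 4)},
        TT m (ex φ) β.1 = y (Sum.inl β)) ∧
      TT m (ex φ) (b 0) = y (Sum.inr (Sum.inl 0)) ∧
      (∀ i (hi : i < n), ∑ η ∈ (range m).powerset, (if CR (b i) (b (i + 1)) η then ex φ η else 0) =
        y (Sum.inr (Sum.inl ⟨i + 1, by omega⟩))) ∧
      TT m (ex φ) (range m) = y (Sum.inr (Sum.inr ())) := by
  have e1 : ∀ β : {x : Finset ℕ // x ∈ (range m).powerset.filter (fun β => β.card ≤ 4)},
      ∑ x, (if pR m n b (Sum.inl β) x then φ x else 0) = TT m (ex φ) β.1 := by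
    intro β
    rw [sum_PN φ (pR m n b (Sum.inl β)) (fun η => β.1 ⊆ η) (fun x => Iff.rfl)]
    unfold TT
    refine sum_congr rfl fun η _ => ?_
    congr
  have e2 : ∑ x, (if pR m n b (Sum.inr (Sum.inl 0)) x then φ x else 0) =
      TT m (ex φ) (b 0) := by
    rw [sum_PN φ _ (fun η => b 0 ⊆ η) (fun x => by simp [pR])]
    unfold TT
    refine sum_congr rfl fun η _ => ?_
    congr
  have e3 : ∀ i (hi : i < n), ∑ x, (if pR m n b (Sum.inr (Sum.inl ⟨i + 1, by omega⟩)) x then φ x
      else 0) = ∑ η ∈ (range m).powerset, (if CR (b i) (b (i + 1)) η then ex φ η else 0) := by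
    intro i hi
    rw [sum_PN φ _ (fun η => CR (b i) (b (i + 1)) η) (fun x => by simp [pR])]
  have e4 : ∑ x, (if pR m n b (Sum.inr (Sum.inr ())) x then φ x else 0) =
      TT m (ex φ) (range m) := by
    rw [sum_PN φ (pR m n b (Sum.inr (Sum.inr ()))) (fun η => range m ⊆ η) (fun x => Iff.rfl)]
    unfold TT
    refine sum_congr rfl fun η _ => ?_
    congr
  constructor
  · intro hh
    refine ⟨fun β => ?_, ?_, fun i hi => ?_, ?_⟩
    · rw [← e1, hh]
    · rw [← e2, hh]
    · rw [← hh, ← e3 i hi]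
    · rw [← e4, hh]
  · rintro ⟨h1, h2, h3, h4⟩ i
    rcases i with β | i | u
    · rw [e1, h1]
    · rcases i with ⟨i, hi⟩
      cases i with
      | zero => exact e2.trans h2
      | succ i => exact (e3 i (by omega)).trans (h3 i (by omega))
    · exact e4.trans h4

/-- uniqueness: the rows determine the labels -/
lemma rows_unique (h : Enum m 4 n b) (f : Finset ℕ → Q)
    (h1 : ∀ β ⊆ range m, β.card ≤ 4 → TT m f β = 0) (h2 : TT m f (b 0) = 0)
    (h3 : ∀ i < n, ∑ η ∈ (range m).powerset, (if CR (b i) (b (i + 1)) η then f η else 0) = 0) :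
    ∀ β ⊆ range m, f β = 0 := by
  have key : ∀ i ≤ n, TT m f (b i) = 0 := by
    intro i
    induction i using Nat.strong_induction_on with
    | _ i ih =>
      intro hi
      cases i with
      | zero => exact h2
      | succ i =>
        have h4 := chain_step h f h1 i (by omega)
        rw [h3 i (by omega)] at h4
        have h5 : ∑ j ∈ range (i + 1), ac b i j • TT m f (b j) = 0 := by
          refine sum_eq_zero fun j hj => ?_
          rw [mem_range] at hj
          rw [ih j hj (by omega), smul_zero]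
        rw [h5, zero_sub] at h4
        exact neg_eq_zero.1 h4.symm
  refine TT_inj m f fun β hβ => ?_
  by_cases h4 : β.card ≤ 4
  · exact h1 β hβ h4
  · obtain ⟨i, hi, rfl⟩ := h.cov β hβ (by omega)
    exact key i hi

/-- the rows are unimodular -/
lemma pR_uni (h : Enum m 4 n b) (Q : Type) [AddCommGroup Q] (f : PN m → Q)
    (hf : ∀ i, ∑ x, (@ite Q (pR m n b i x) (Classical.propDecidable _) (f x) 0) = 0) :
    ∀ x, f x = 0 := by
  have h1 := (rows_iff (b := b) f (fun _ => 0)).1 (fun i => hf i)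
  obtain ⟨h2, h3, h4, _⟩ := h1
  intro x
  rw [← ex_coe f x]
  refine rows_unique h (ex f) ?_ h3 (fun i hi => h4 i hi) x.1 (mem_powerset.1 x.2)
  intro β hβ hc
  exact h2 ⟨β, mem_filter.2 ⟨mem_powerset.2 hβ, hc⟩⟩

lemma sum_ite_any {ι : Type} [Fintype ι] (a : ι) (f : ι → Q) (inst : ∀ x, Decidable (x = a)) :
    ∑ x, (@ite Q (x = a) (inst x) (f x) 0) = f a := by
  rw [sum_eq_single a]
  · rw [if_pos rfl]
  · intro x _ hx
    rw [if_neg hx]
  · intro h
    exact absurd (mem_univ _) h

open scoped Classical in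
/-- outside sums -/
lemma out_iff (ω : PW m T → Q) :
    (∀ r, ∑ w, (if pF m T r w then ω w else 0) = 0) ↔
      ω (Sum.inl 0) = 0 ∧ ω (Sum.inl (Fin.last T)) = 0 ∧
      (∀ l : Fin m, ω (Sum.inr (Sum.inl (l, true))) + ω (Sum.inr (Sum.inl (l, false))) = 0) ∧
      ∀ l : Fin m, ω (Sum.inr (Sum.inl (l, true))) +
        ∑ j : Fin m, (if j < l then ω (Sum.inr (Sum.inl (j, false))) else 0) +
        ω (Sum.inr (Sum.inr ())) = 0 := by
  have e1 : ∑ w, (if pF m T (Sum.inl false) w then ω w else 0) = ω (Sum.inl 0) := by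
    rw [Fintype.sum_sum_type]
    simp only [pF, ↓reduceIte, sum_const_zero, add_zero]
    exact sum_ite_any _ (fun x => ω (Sum.inl x)) _
  have e2 : ∑ w, (if pF m T (Sum.inl true) w then ω w else 0) = ω (Sum.inl (Fin.last T)) := by
    rw [Fintype.sum_sum_type]
    simp only [pF, ↓reduceIte, sum_const_zero, add_zero]
    exact sum_ite_any _ (fun x => ω (Sum.inl x)) _
  have e3 : ∀ l : Fin m, ∑ w, (if pF m T (Sum.inr (Sum.inl l)) w then ω w else 0) =
      ω (Sum.inr (Sum.inl (l, true))) + ω (Sum.inr (Sum.inl (l, false))) := by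
    intro l
    rw [Fintype.sum_sum_type, Fintype.sum_sum_type, Fintype.sum_prod_type]
    simp only [pF, ↓reduceIte, sum_const_zero, add_zero, zero_add, Fintype.sum_bool,
      Finset.sum_add_distrib]
    exact congrArg₂ (· + ·) (sum_ite_any l (fun x => ω (Sum.inr (Sum.inl (x, true)))) _)
      (sum_ite_any l (fun x => ω (Sum.inr (Sum.inl (x, false)))) _)
  have e4 : ∀ l : Fin m, ∑ w, (if pF m T (Sum.inr (Sum.inr l)) w then ω w else 0) =
      ω (Sum.inr (Sum.inl (l, true))) +
        ∑ j : Fin m, (if j < l then ω (Sum.inr (Sum.inl (j, false))) else 0) +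
        ω (Sum.inr (Sum.inr ())) := by
    intro l
    rw [Fintype.sum_sum_type, Fintype.sum_sum_type, Fintype.sum_prod_type]
    simp only [pF, ↓reduceIte, sum_const_zero, zero_add, Fintype.sum_bool,
      Finset.sum_add_distrib]
    refine congrArg₂ (· + ·) (congrArg₂ (· + ·)
      (sum_ite_any l (fun x => ω (Sum.inr (Sum.inl (x, true)))) _) ?_) ?_
    · refine sum_congr rfl fun j _ => ?_
      congr
    · simp
  constructor
  · intro hh
    refine ⟨?_, ?_, fun l => ?_, fun l => ?_⟩
    · rw [← e1, hh]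
    · rw [← e2, hh]
    · rw [← e3, hh]
    · rw [← e4, hh]
  · rintro ⟨h1, h2, h3, h4⟩ r
    rcases r with (_ | _) | (l | l)
    · rw [e1, h1]
    · rw [e2, h2]
    · rw [e3, h3]
    · rw [e4, h4]

open scoped Classical in
/-- digit sums -/
lemma dig_small (dg : ℕ → ℕ → ℕ) (ω : PW m T → Q) (t : Fin T)
    (β : {x : Finset ℕ // x ∈ (range m).powerset.filter (fun β => β.card ≤ 4)}) :
    ∑ l, (if pD m n T dg (Sum.inl β) t l then ω (po m T t l) else 0) = 0 := by
  refine sum_eq_zero fun l _ => ?_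
  simp [pD]

open scoped Classical in
lemma dig_zero (dg : ℕ → ℕ → ℕ) (ω : PW m T → Q) (t : Fin T) :
    ∑ l, (if pD m n T dg (Sum.inr (Sum.inl 0)) t l then ω (po m T t l) else 0) =
      ω (Sum.inl t.castSucc) := by
  rw [Fintype.sum_sum_type, Fintype.sum_bool]
  simp [pD, po]

open scoped Classical in
lemma dig_succ (dg : ℕ → ℕ → ℕ) (ω : PW m T → Q) (t : Fin T) (i : ℕ) (hi : i < n) :
    ∑ l, (if pD m n T dg (Sum.inr (Sum.inl ⟨i + 1, by omega⟩)) t l then ω (po m T t l) else 0) =
      ∑ l : Fin m, (if (dg t (i + 1)).testBit l = true then ω (Sum.inr (Sum.inl (l, false)))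
        else 0) := by
  rw [Fintype.sum_sum_type, Fintype.sum_bool]
  simp [pD, po]

open scoped Classical in
lemma dig_out (dg : ℕ → ℕ → ℕ) (ω : PW m T → Q) (t : Fin T) :
    ∑ l, (if pD m n T dg (Sum.inr (Sum.inr ())) t l then ω (po m T t l) else 0) =
      ω (Sum.inl t.succ) := by
  rw [Fintype.sum_sum_type, Fintype.sum_bool]
  simp [pD, po]

/-- all row relations -/
def Rows (m n T : ℕ) (b : ℕ → Finset ℕ) (dg : ℕ → ℕ → ℕ) (φ : Fin T → PN m → Q)
    (ω : PW m T → Q) : Prop :=
  ∀ t : Fin T, (∀ β ⊆ range m, β.card ≤ 4 → TT m (ex (φ t)) β = 0) ∧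
    TT m (ex (φ t)) (b 0) = ω (Sum.inl t.castSucc) ∧
    (∀ i < n, ∑ η ∈ (range m).powerset, (if CR (b i) (b (i + 1)) η then ex (φ t) η else 0) =
      ∑ l : Fin m, (if (dg t (i + 1)).testBit l = true then ω (Sum.inr (Sum.inl (l, false)))
        else 0)) ∧
    TT m (ex (φ t)) (range m) = ω (Sum.inl t.succ)

lemma blockRel_iff (dg : ℕ → ℕ → ℕ) (φ : Fin T → PN m → Q) (ω : PW m T → Q) :
    BlockRel (pR m n b) (pD m n T dg) (po m T) (pF m T) φ ω ↔
      (ω (Sum.inl 0) = 0 ∧ ω (Sum.inl (Fin.last T)) = 0 ∧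
      (∀ l : Fin m, ω (Sum.inr (Sum.inl (l, true))) + ω (Sum.inr (Sum.inl (l, false))) = 0) ∧
      ∀ l : Fin m, ω (Sum.inr (Sum.inl (l, true))) +
        ∑ j : Fin m, (if j < l then ω (Sum.inr (Sum.inl (j, false))) else 0) +
        ω (Sum.inr (Sum.inr ())) = 0) ∧ Rows m n T b dg φ ω := by
  classical
  constructor
  · rintro ⟨h1, h2⟩
    refine ⟨(out_iff ω).1 ?_, fun t => ?_⟩
    · intro r
      refine Eq.trans ?_ (h1 r)
      refine sum_congr rfl fun w _ => ?_
      congr
    · have h3 := (rows_iff (b := b) (n := n) (φ t) (fun i => ∑ l,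
        (if pD m n T dg i t l then ω (po m T t l) else 0))).1 (fun i => by
          refine Eq.trans ?_ ((h2 i t).trans ?_)
          · refine sum_congr rfl fun w _ => ?_
            congr
          · refine sum_congr rfl fun w _ => ?_
            congr)
      obtain ⟨h4, h5, h6, h7⟩ := h3
      refine ⟨fun β hβ hc => ?_, ?_, fun i hi => ?_, ?_⟩
      · have h8 := h4 ⟨β, mem_filter.2 ⟨mem_powerset.2 hβ, hc⟩⟩
        have h9 := dig_small (n := n) dg ω t ⟨β, mem_filter.2 ⟨mem_powerset.2 hβ, hc⟩⟩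
        refine h8.trans (Eq.trans ?_ h9)
        refine sum_congr rfl fun w _ => ?_
        congr
      · have h9 := dig_zero (n := n) dg ω t
        refine h5.trans (Eq.trans ?_ h9)
        refine sum_congr rfl fun w _ => ?_
        congr
      · have h9 := dig_succ (n := n) dg ω t i hi
        refine (h6 i hi).trans (Eq.trans ?_ h9)
        refine sum_congr rfl fun w _ => ?_
        congr
      · have h9 := dig_out (n := n) dg ω t
        refine h7.trans (Eq.trans ?_ h9)
        refine sum_congr rfl fun w _ => ?_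
        congr
  · rintro ⟨h1, h2⟩
    refine ⟨fun r => ?_, fun i t => ?_⟩
    · refine Eq.trans ?_ ((out_iff ω).2 h1 r)
      refine sum_congr rfl fun w _ => ?_
      congr
    · obtain ⟨h4, h5, h6, h7⟩ := h2 t
      have h3 := (rows_iff (b := b) (n := n) (φ t) (fun i => ∑ l,
        (if pD m n T dg i t l then ω (po m T t l) else 0))).2 ⟨fun β => ?_, ?_, fun i hi => ?_, ?_⟩
      · refine Eq.trans ?_ ((h3 i).trans ?_)
        · refine sum_congr rfl fun w _ => ?_
          congr
        · refine sum_congr rfl fun w _ => ?_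
          congr
      · have h8 := mem_filter.1 β.2
        rw [h4 β.1 (mem_powerset.1 h8.1) h8.2]
        refine (dig_small (n := n) dg ω t β).symm.trans ?_
        refine sum_congr rfl fun w _ => ?_
        congr
      · rw [h5]
        refine (dig_zero (n := n) dg ω t).symm.trans ?_
        refine sum_congr rfl fun w _ => ?_
        congr
      · rw [h6 i hi]
        refine (dig_succ (n := n) dg ω t i hi).symm.trans ?_
        refine sum_congr rfl fun w _ => ?_
        congr
      · rw [h7]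
        refine (dig_out (n := n) dg ω t).symm.trans ?_
        refine sum_congr rfl fun w _ => ?_
        congr

end

end Pool.Agent.Lib.MP_b5c453_co.As
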