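import Pool.Agent.Lib.MP_b5c453_co.AsSys

/-!
MP_b5c453_co, sharp asymptotics: the set system is universal for `k`.
-/

set_option autoImplicit false
set_option linter.unusedSectionVars false

open Finset

namespace Pool.Agent.Lib.MP_b5c453_co.As

section

variable {m n T : ℕ} {b : ℕ → Finset ℕ}

lemma TT_congr {Q : Type} [AddCommGroup Q] (f g : Finset ℕ → Q)
    (h : ∀ η ∈ (range m).powerset, f η = g η) (β : Finset ℕ) : TT m f β = TT m g β := by
  unfold TT
  refine sum_congr rfl fun η hη => ?_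
  rw [h η hη]

lemma ex_map {Q Q' : Type} [AddCommGroup Q] [AddCommGroup Q'] (θ : Q →+ Q') (φ : PN m → Q)
    (η : Finset ℕ) : ex (fun x => θ (φ x)) η = θ (ex φ η) := by
  unfold ex
  split_ifs
  · rfl
  · rw [map_zero]

lemma TT_ex_mob (v : Finset ℕ → ℤ) (β : Finset ℕ) (hβ : β ⊆ range m) :
    TT m (ex (fun x : PN m => mob m v x.1)) β = v β := by
  rw [TT_congr _ (mob m v), TT_mob m v β hβ]
  intro η hη
  unfold ex
  rw [dif_pos hη]

lemma Rows.map {Q Q' : Type} [AddCommGroup Q] [AddCommGroup Q'] (θ : Q →+ Q')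
    {dg : ℕ → ℕ → ℕ} {φ : Fin T → PN m → Q} {ω : PW m T → Q} (h : Rows m n T b dg φ ω) :
    Rows m n T b dg (fun t x => θ (φ t x)) (fun w => θ (ω w)) := by
  intro t
  obtain ⟨h1, h2, h3, h4⟩ := h t
  have e : (ex fun x => θ (φ t x)) = fun η => θ (ex (φ t) η) := by
    funext η
    exact ex_map θ (φ t) η
  refine ⟨fun β hβ hc => ?_, ?_, fun i hi => ?_, ?_⟩
  · rw [e, TT_map, h1 β hβ hc, map_zero]
  · rw [e, TT_map, h2]
  · have h5 := congrArg θ (h3 i hi)
    rw [map_sum, map_sum] at h5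
    rw [e]
    refine Eq.trans ?_ (h5.trans ?_)
    · refine sum_congr rfl fun η _ => ?_
      split_ifs <;> simp
    · refine sum_congr rfl fun η _ => ?_
      split_ifs <;> simp
  · rw [e, TT_map, h4]

/-- integer labels of the blocks -/
def labT (m n : ℕ) (b : ℕ → Finset ℕ) (dg : ℕ → ℕ → ℕ) (c : ℕ → ℤ) (T : ℕ) :
    Fin T → PN m → ℤ :=
  fun t x => mob m (val n b (sol (ac b) (c t) (fun i => dg t i))) x.1

/-- integer labels of the outside points -/
def labW (m T : ℕ) (c : ℕ → ℤ) : PW m T → ℤ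
  | Sum.inl t => c t
  | Sum.inr (Sum.inl (l, false)) => - 2 ^ (l : ℕ)
  | Sum.inr (Sum.inl (l, true)) => 2 ^ (l : ℕ)
  | Sum.inr (Sum.inr _) => -1

lemma sol_last (dg : ℕ → ℕ → ℕ) (c : ℕ → ℤ) (t : ℕ)
    (hc : c (t + 1) = GG n (ac b) 0 * c t + ∑ j ∈ range n, GG n (ac b) (j + 1) *
      (dg t (j + 1) : ℤ)) :
    sol (ac b) (c t) (fun i => dg t i) n = c (t + 1) := by
  have h := response n (ac b) (sol (ac b) (c t) (fun i => (dg t i : ℤ))) (fun i => (dg t i : ℤ))
    (fun i _ => by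
      rw [sol_succ]
      simp only [smul_eq_mul])
  rw [h, hc, sol_zero]
  simp only [smul_eq_mul]

/-- the rows over the integers -/
lemma rowsZ (h : Enum m 4 n b) (dg : ℕ → ℕ → ℕ) (c : ℕ → ℤ)
    (hdg : ∀ t < T, ∀ j < n, dg t (j + 1) < 2 ^ m)
    (hc : ∀ t < T, c (t + 1) = GG n (ac b) 0 * c t + ∑ j ∈ range n, GG n (ac b) (j + 1) *
      (dg t (j + 1) : ℤ)) :
    Rows m n T b dg (labT m n b dg c T) (labW m T c) := by
  intro t
  set v := val n b (sol (ac b) (c t) (fun i => dg t i)) with hv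
  have hT : ∀ β ⊆ range m, TT m (ex (labT m n b dg c T t)) β = v β := fun β hβ =>
    TT_ex_mob v β hβ
  have hs : ∀ β ⊆ range m, β.card ≤ 4 → TT m (ex (labT m n b dg c T t)) β = 0 := by
    intro β hβ hcard
    rw [hT β hβ, hv, val_small h _ β hcard]
  have hch : ∀ i ≤ n, TT m (ex (labT m n b dg c T t)) (b i) =
      sol (ac b) (c t) (fun i => dg t i) i := by
    intro i hi
    rw [hT _ (h.mem i hi).1, hv, val_chain h _ i hi]
  refine ⟨hs, ?_, ?_, ?_⟩
  · rw [hch 0 (Nat.zero_le _), sol_zero]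
    rfl
  · intro i hi
    rw [chain_step h _ hs i hi, hch (i + 1) hi, sol_succ]
    have h1 : ∑ j ∈ range (i + 1), ac b i j • TT m (ex (labT m n b dg c T t)) (b j) =
        ∑ j ∈ range (i + 1), ac b i j * sol (ac b) (c t) (fun i => dg t i) j := by
      refine sum_congr rfl fun j hj => ?_
      rw [mem_range] at hj
      rw [hch j (by omega), smul_eq_mul]
    rw [h1]
    have h2 : ∑ l : Fin m, (if (dg t (i + 1)).testBit l = true then
        labW m T c (Sum.inr (Sum.inl (l, false))) else 0) = - (dg t (i + 1) : ℤ) := by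
      rw [← sum_bits m _ (hdg t t.2 i hi), ← sum_neg_distrib]
      refine sum_congr rfl fun l _ => ?_
      simp only [labW]
      split_ifs <;> simp
    rw [h2]
    ring
  · rw [← h.last, hch n le_rfl, sol_last dg c t (hc t t.2)]
    simp [labW]

lemma sum_lt_pow (l : Fin m) : ∑ j : Fin m, (if j < l then (2 : ℤ) ^ (j : ℕ) else 0) =
    2 ^ (l : ℕ) - 1 := by
  have h1 : ∑ j : Fin m, (if j < l then (2 : ℤ) ^ (j : ℕ) else 0) =
      ∑ j ∈ range m, (if j < (l : ℕ) then (2 : ℤ) ^ j else 0) := by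
    rw [sum_range]
    rfl
  rw [h1, ← sum_filter]
  have h2 : (range m).filter (fun j => j < (l : ℕ)) = range l := by
    ext j
    rw [mem_filter, mem_range, mem_range]
    have := l.2
    omega
  rw [h2]
  have : ∀ p : ℕ, ∑ j ∈ range p, (2 : ℤ) ^ j = 2 ^ p - 1 := by
    intro p
    induction p with
    | zero => simp
    | succ p ih =>
      rw [sum_range_succ, ih, pow_succ]
      ring
  exact this l

/-- the relations modulo `k` -/
lemma blockRel_mod (h : Enum m 4 n b) (dg : ℕ → ℕ → ℕ) (c : ℕ → ℤ)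
    (hdg : ∀ t < T, ∀ j < n, dg t (j + 1) < 2 ^ m)
    (hc : ∀ t < T, c (t + 1) = GG n (ac b) 0 * c t + ∑ j ∈ range n, GG n (ac b) (j + 1) *
      (dg t (j + 1) : ℤ)) (k : ℕ) (hc0 : c 0 = 0) (hcT : c T = k) :
    BlockRel (pR m n b) (pD m n T dg) (po m T) (pF m T)
      (fun t x => ((labT m n b dg c T t x : ℤ) : ZMod k))
      (fun w => ((labW m T c w : ℤ) : ZMod k)) := by
  rw [blockRel_iff]
  refine ⟨⟨?_, ?_, fun l => ?_, fun l => ?_⟩, ?_⟩
  · simp [labW, hc0]
  · simp [labW, hcT]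
  · simp [labW]
  · have h1 := congrArg (fun z : ℤ => (z : ZMod k)) (sum_lt_pow l)
    simp only [labW]
    have h2 : ∑ j : Fin m, (if j < l then (((- 2 ^ (j : ℕ) : ℤ)) : ZMod k) else 0) =
        - ((∑ j : Fin m, (if j < l then (2 : ℤ) ^ (j : ℕ) else 0) : ℤ) : ZMod k) := by
      rw [Int.cast_sum, ← sum_neg_distrib]
      refine sum_congr rfl fun j _ => ?_
      split_ifs <;> simp
    rw [h2, sum_lt_pow]
    push_cast
    ring
  · exact (rowsZ h dg c hdg hc).map (Int.castAddHom (ZMod k))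

/-- universality -/
lemma universal (h : Enum m 4 n b) (hm : 0 < m) (dg : ℕ → ℕ → ℕ) (c : ℕ → ℤ)
    (hdg : ∀ t < T, ∀ j < n, dg t (j + 1) < 2 ^ m)
    (hc : ∀ t < T, c (t + 1) = GG n (ac b) 0 * c t + ∑ j ∈ range n, GG n (ac b) (j + 1) *
      (dg t (j + 1) : ℤ)) (k : ℕ) (hc0 : c 0 = 0) (hcT : c T = k)
    (Q : Type) [AddCommGroup Q] (φ : Fin T → PN m → Q) (ω : PW m T → Q)
    (hφ : BlockRel (pR m n b) (pD m n T dg) (po m T) (pF m T) φ ω) :
    (∀ t x, φ t x = labT m n b dg c T t x • ω (Sum.inr (Sum.inl (⟨0, hm⟩, true)))) ∧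
      (∀ w, ω w = labW m T c w • ω (Sum.inr (Sum.inl (⟨0, hm⟩, true)))) ∧
      (k : ℤ) • ω (Sum.inr (Sum.inl (⟨0, hm⟩, true))) = 0 := by
  rw [blockRel_iff] at hφ
  obtain ⟨⟨h1, h2, h3, h4⟩, h5⟩ := hφ
  set g := ω (Sum.inr (Sum.inl (⟨0, hm⟩, true))) with hg
  have hw : ∀ l : Fin m, ω (Sum.inr (Sum.inl (l, false))) = - ω (Sum.inr (Sum.inl (l, true))) :=
    fun l => eq_neg_of_add_eq_zero_right (h3 l)
  have hz' : ω (Sum.inr (Sum.inr ())) = - g := by
    have h6 := h4 ⟨0, hm⟩
    have h7 : ∑ j : Fin m, (if j < ⟨0, hm⟩ then ω (Sum.inr (Sum.inl (j, false))) else 0) = 0 := by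
      refine sum_eq_zero fun j _ => ?_
      rw [if_neg]
      intro h8
      exact absurd (Fin.lt_def.1 h8) (by simp)
    rw [h7, add_zero] at h6
    exact eq_neg_of_add_eq_zero_right h6
  have hv : ∀ (i : ℕ) (hi : i < m), ω (Sum.inr (Sum.inl (⟨i, hi⟩, true))) = (2 ^ i : ℤ) • g := by
    intro i
    induction i using Nat.strong_induction_on with
    | _ i ih =>
      intro hi
      have h6 := h4 ⟨i, hi⟩
      have h7 : ∑ j : Fin m, (if j < ⟨i, hi⟩ then ω (Sum.inr (Sum.inl (j, false))) else 0) =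
          - (∑ j : Fin m, (if j < (⟨i, hi⟩ : Fin m) then (2 : ℤ) ^ (j : ℕ) else 0)) • g := by
        rw [neg_smul, sum_smul, ← sum_neg_distrib]
        refine sum_congr rfl fun j _ => ?_
        split_ifs with h8
        · rw [hw j, ih j (Fin.lt_def.1 h8) j.2]
        · simp
      rw [h7, sum_lt_pow, hz'] at h6
      have h8 : ω (Sum.inr (Sum.inl (⟨i, hi⟩, true))) =
          (2 ^ i - 1 : ℤ) • g + g := by
        have h9 : ω (Sum.inr (Sum.inl (⟨i, hi⟩, true))) =
          (ω (Sum.inr (Sum.inl (⟨i, hi⟩, true))) + -(2 ^ i - 1 : ℤ) • g + -g) +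
            ((2 ^ i - 1 : ℤ) • g + g) := by
          rw [neg_smul]
          abel
        rw [h9, h6, zero_add]
      rw [h8, sub_smul, one_smul]
      abel
  have hwl : ∀ l : Fin m, ω (Sum.inr (Sum.inl (l, false))) = (- 2 ^ (l : ℕ) : ℤ) • g := by
    intro l
    rw [hw l, hv l l.2, neg_smul]
  have hZ := rowsZ (T := T) h dg c hdg hc
  have key : ∀ (t : ℕ) (ht : t ≤ T), ω (Sum.inl ⟨t, by omega⟩) = c t • g ∧
      ∀ (s : ℕ) (hs : s < t), ∀ x, φ ⟨s, by omega⟩ x = labT m n b dg c T ⟨s, by omega⟩ x • g := by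
    intro t
    induction t with
    | zero =>
      intro _
      refine ⟨?_, fun s hs => by omega⟩
      rw [hc0, zero_smul]
      exact h1
    | succ t ih =>
      intro ht
      obtain ⟨ih1, ih2⟩ := ih (by omega)
      obtain ⟨a1, a2, a3, a4⟩ := h5 ⟨t, by omega⟩
      obtain ⟨z1, z2, z3, z4⟩ := hZ ⟨t, by omega⟩
      set ψ := ex (φ ⟨t, by omega⟩) with hψ
      set ζ := ex (labT m n b dg c T ⟨t, by omega⟩) with hζ
      have hTg : ∀ β, TT m (fun η => ζ η • g) β = TT m ζ β • g := fun β =>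
        TT_map m ((zmultiplesHom Q) g) ζ β
      have hdiff : ∀ β ⊆ range m, ψ β - ζ β • g = 0 := by
        refine rows_unique h (fun η => ψ η - ζ η • g) ?_ ?_ ?_
        · intro β hβ hcard
          rw [TT_sub, hTg, a1 β hβ hcard, z1 β hβ hcard, zero_smul, sub_zero]
        · rw [TT_sub, hTg, a2, z2]
          have e : ω (Sum.inl (Fin.castSucc ⟨t, by omega⟩)) = c t • g := ih1
          rw [e]
          simp [labW]
        · intro i hi
          have e : ∑ η ∈ (range m).powerset, (if CR (b i) (b (i + 1)) η then ψ η - ζ η • g else 0)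
              = ∑ η ∈ (range m).powerset, (if CR (b i) (b (i + 1)) η then ψ η else 0) -
              (∑ η ∈ (range m).powerset, (if CR (b i) (b (i + 1)) η then ζ η else 0)) • g := by
            rw [sum_smul, ← sum_sub_distrib]
            refine sum_congr rfl fun η _ => ?_
            split_ifs <;> simp
          rw [e, a3 i hi, z3 i hi, sum_smul, ← sum_sub_distrib]
          refine sum_eq_zero fun l _ => ?_
          split_ifs
          · rw [hwl l]
            simp [labW]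
          · simp
      have hTT : TT m ψ (range m) = TT m ζ (range m) • g := by
        rw [← hTg]
        refine TT_congr _ _ (fun η hη => ?_) _
        exact sub_eq_zero.1 (hdiff η (mem_powerset.1 hη))
      refine ⟨?_, ?_⟩
      · rw [a4, z4] at hTT
        have e : ω (Sum.inl (Fin.succ ⟨t, by omega⟩)) = ω (Sum.inl ⟨t + 1, by omega⟩) := rfl
        rw [← e, hTT]
        simp [labW]
      · intro s hs x
        rcases Nat.eq_or_lt_of_le (Nat.lt_succ_iff.1 hs) with h6 | h6
        · subst h6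
          have h7 := sub_eq_zero.1 (hdiff x.1 (mem_powerset.1 x.2))
          rw [hψ, hζ, ex_coe, ex_coe] at h7
          exact h7
        · exact ih2 s h6 x
  refine ⟨?_, ?_, ?_⟩
  · intro t x
    exact (key T le_rfl).2 t t.2 x
  · rintro (t | ⟨l, _ | _⟩ | u)
    · have := (key t (Nat.lt_succ_iff.1 t.2)).1
      simpa [labW] using this
    · exact hwl l
    · exact hv l l.2
    · rw [hz']
      simp [labW]
  · have h6 := (key T le_rfl).1
    rw [hcT] at h6
    rw [← h6]
    exact h2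

end

end Pool.Agent.Lib.MP_b5c453_co.As
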