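import Mathlib

/-!
Definitions for problem MP_b5c453_co (RA matrices of graphs, `1/k`-RA graphs, crown graphs,
pyramids) and a criterion for a graph to be `1/k`-RA.
-/

set_option autoImplicit false

open Finset

open scoped Classical in
/-- The `0/1` indicator vector of a set of vertices. -/
noncomputable def Pool.Agent.Lib.MP_b5c453_co.indVec {V : Type*} (S : Set V) : V → ℤ :=
  fun x => if x ∈ S then 1 else 0

namespace Pool.Agent.Lib.MP_b5c453_co

/-- The closed neighbourhood `N[v]`. -/
def closedNbhd {V : Type*} (G : SimpleGraph V) (v : V) : Set V := {x | x = v ∨ G.Adj v x}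

/-- The lattice spanned over `ℤ` by the rows of the RA matrix `C_G`, that is, by the indicator
vectors of all `N[u] ∩ N[v]` (`u = v` allowed). -/
noncomputable def rowLattice {V : Type*} (G : SimpleGraph V) : Submodule ℤ (V → ℤ) :=
  Submodule.span ℤ {r | ∃ u v : V, r = indVec (closedNbhd G u ∩ closedNbhd G v)}

/-- `G` is `1/k`-RA: the elementary divisors of `C_G` are `1, …, 1, k`, i.e. in Smith normal form
there is a `ℤ`-basis `b` of `ℤ^V` such that the row lattice of `C_G` is spanned by all `b x`
with `x ≠ x₀` and by `k • b x₀`. -/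
def InvRA {V : Type*} [Fintype V] (k : ℕ) (G : SimpleGraph V) : Prop :=
  ∃ (b : Module.Basis V ℤ (V → ℤ)) (x₀ : V),
    rowLattice G = Submodule.span ℤ ({r | ∃ x : V, x ≠ x₀ ∧ r = b x} ∪ {(k : ℤ) • b x₀})

/-- the transvection `y ↦ y - (∑ x, a x * y x) • e` -/
noncomputable def transv {V : Type*} [Fintype V] [DecidableEq V] (a : V → ℤ) (x₀ : V)
    (ha : a x₀ = 0) : (V → ℤ) ≃ₗ[ℤ] (V → ℤ) where
  toFun y := y - (∑ x, a x * y x) • Pi.single x₀ 1
  invFun y := y + (∑ x, a x * y x) • Pi.single x₀ 1
  map_add' y z := by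
    simp only [Pi.add_apply, mul_add, sum_add_distrib, add_smul]
    abel
  map_smul' c y := by
    simp only [Pi.smul_apply, smul_eq_mul, RingHom.id_apply]
    rw [smul_sub, smul_smul, mul_sum]
    congr 2
    refine sum_congr rfl fun x _ => by ring
  left_inv y := by
    have h : ∀ s : ℤ, ∑ x, a x * (y - s • (Pi.single x₀ 1 : V → ℤ)) x = ∑ x, a x * y x := by
      intro s
      refine sum_congr rfl fun x _ => ?_
      by_cases hx : x = x₀
      · subst hx; simp [ha]
      · simp [Pi.single_eq_of_ne hx]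
    simp only [h]
    abel
  right_inv y := by
    have h : ∀ s : ℤ, ∑ x, a x * (y + s • (Pi.single x₀ 1 : V → ℤ)) x = ∑ x, a x * y x := by
      intro s
      refine sum_congr rfl fun x _ => ?_
      by_cases hx : x = x₀
      · subst hx; simp [ha]
      · simp [Pi.single_eq_of_ne hx]
    simp only [h]
    abel

/-- Criterion: if `c : V → ℤ` satisfies `c x₀ = 1`, every row of `C_G` has `c`-sum divisible by
`k`, every `e_x - c_x e_{x₀}` lies in the row lattice and so does `k e_{x₀}`, then `G` is
`1/k`-RA. -/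
theorem invRA_of_criterion {V : Type*} [Fintype V] [DecidableEq V] (G : SimpleGraph V) (k : ℕ)
    (c : V → ℤ) (x₀ : V) (hc : c x₀ = 1)
    (hrow : ∀ u v : V, (k : ℤ) ∣ ∑ x, c x * indVec (closedNbhd G u ∩ closedNbhd G v) x)
    (hgen : ∀ x, (Pi.single x 1 - c x • Pi.single x₀ 1 : V → ℤ) ∈ rowLattice G)
    (hk : ((k : ℤ) • Pi.single x₀ 1 : V → ℤ) ∈ rowLattice G) : InvRA k G := by
  classical
  let a : V → ℤ := fun x => if x = x₀ then 0 else c x
  have ha : a x₀ = 0 := by simp [a]
  let b : Module.Basis V ℤ (V → ℤ) := (Pi.basisFun ℤ V).map (transv a x₀ ha)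
  have hb' : ∀ x, b x = Pi.single x 1 - a x • Pi.single x₀ 1 := by
    intro x
    have h1 : ∑ z, a z * (Pi.single x 1 : V → ℤ) z = a x := by
      rw [Finset.sum_eq_single x]
      · simp
      · intro z _ hz
        simp [Pi.single_eq_of_ne hz]
      · intro h
        exact absurd (mem_univ x) h
    have h2 : b x = (Pi.single x 1 : V → ℤ) -
        (∑ z, a z * (Pi.single x 1 : V → ℤ) z) • Pi.single x₀ 1 := by
      simp only [b, Module.Basis.map_apply, Pi.basisFun_apply]
      rfl
    rw [h2, h1]
  have hb0 : b x₀ = Pi.single x₀ 1 := by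
    rw [hb', ha, zero_smul, sub_zero]
  have hb : ∀ x, x ≠ x₀ → b x = Pi.single x 1 - c x • Pi.single x₀ 1 := by
    intro x hx
    rw [hb']
    simp [a, hx]
  refine ⟨b, x₀, le_antisymm ?_ ?_⟩
  · unfold rowLattice
    rw [Submodule.span_le]
    rintro r ⟨u, v, rfl⟩
    set y := indVec (closedNbhd G u ∩ closedNbhd G v) with hy
    obtain ⟨m, hm⟩ := hrow u v
    have hdec : y = (∑ x ∈ univ.erase x₀, y x • b x) + m • ((k : ℤ) • b x₀) := by
      have h1 : ∑ x ∈ univ.erase x₀, y x • b x =
          ∑ x ∈ univ.erase x₀, (y x • (Pi.single x 1 : V → ℤ) -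
            (c x * y x) • (Pi.single x₀ 1 : V → ℤ)) := by
        refine sum_congr rfl fun x hx => ?_
        rw [hb x (ne_of_mem_erase hx), smul_sub, smul_smul, mul_comm (y x)]
      rw [h1, sum_sub_distrib, ← sum_smul, hb0, smul_smul]
      have h2 : ∑ x ∈ univ.erase x₀, c x * y x = k * m - y x₀ := by
        have h3 := add_sum_erase univ (fun x => c x * y x) (mem_univ x₀)
        simp only [hc, one_mul] at h3
        rw [hm] at h3
        linarith
      rw [h2]
      have h4 : ∑ x ∈ univ.erase x₀, y x • (Pi.single x 1 : V → ℤ) =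
          y - y x₀ • (Pi.single x₀ 1 : V → ℤ) := by
        have h5 := add_sum_erase univ (fun x => y x • (Pi.single x 1 : V → ℤ)) (mem_univ x₀)
        have h6 : ∑ x, y x • (Pi.single x 1 : V → ℤ) = y := by
          funext z
          simp [Finset.sum_apply, Pi.single_apply]
        rw [h6] at h5
        exact eq_sub_of_add_eq' h5
      rw [h4, sub_smul, mul_comm m (k : ℤ)]
      abel
    rw [SetLike.mem_coe, hdec]
    refine Submodule.add_mem _ (Submodule.sum_mem _ fun x hx => ?_) ?_
    · refine Submodule.smul_mem _ _ (Submodule.subset_span (Or.inl ⟨x, ne_of_mem_erase hx, rfl⟩))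
    · refine Submodule.smul_mem _ _ (Submodule.subset_span (Or.inr rfl))
  · rw [Submodule.span_le]
    rintro r (⟨x, hx, rfl⟩ | hr)
    · rw [SetLike.mem_coe, hb x hx]
      exact hgen x
    · rw [Set.mem_singleton_iff] at hr
      subst hr
      rw [hb0]
      exact hk

/-- `1/k`-RA determines `k`. -/
theorem InvRA.dvd {V : Type*} [Fintype V] {G : SimpleGraph V} {k l : ℕ}
    (hk : InvRA k G) (hl : InvRA l G) : k ∣ l := by
  classical
  obtain ⟨b, x₀, hb⟩ := hk
  obtain ⟨b', x₀', hb'⟩ := hl
  -- `l • y` lies in the row lattice for every `y`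
  have h1 : ∀ y : V → ℤ, (l : ℤ) • y ∈ rowLattice G := by
    intro y
    rw [hb', ← b'.sum_repr y, smul_sum]
    refine Submodule.sum_mem _ fun x _ => ?_
    by_cases hx : x = x₀'
    · subst hx
      rw [smul_comm]
      exact Submodule.smul_mem _ _ (Submodule.subset_span (Or.inr rfl))
    · exact Submodule.smul_mem _ _ (Submodule.smul_mem _ _
        (Submodule.subset_span (Or.inl ⟨x, hx, rfl⟩)))
  -- the coordinate at `x₀` of any element of the row lattice is divisible by `k`
  have h2 : ∀ y ∈ rowLattice G, (k : ℤ) ∣ b.repr y x₀ := by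
    intro y hy
    rw [hb] at hy
    refine Submodule.span_induction ?_ ?_ ?_ ?_ hy
    · rintro r (⟨x, hx, rfl⟩ | hr)
      · simp [Finsupp.single_apply, hx]
      · rw [Set.mem_singleton_iff] at hr
        subst hr
        rw [map_smul, Finsupp.smul_apply, Module.Basis.repr_self, Finsupp.single_eq_same,
          smul_eq_mul, mul_one]
    · simp
    · intro y z _ _ hy hz
      rw [map_add, Finsupp.add_apply]
      exact dvd_add hy hz
    · intro a y _ hy
      rw [map_smul, Finsupp.smul_apply, smul_eq_mul]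
      exact Dvd.dvd.mul_left hy a
  have h3 := h2 _ (h1 (b x₀))
  simp only [map_smul, Module.Basis.repr_self, Finsupp.smul_apply, Finsupp.single_eq_same,
    smul_eq_mul, mul_one] at h3
  exact_mod_cast h3

theorem InvRA.unique {V : Type*} [Fintype V] {G : SimpleGraph V} {k l : ℕ}
    (hk : InvRA k G) (hl : InvRA l G) : k = l :=
  Nat.dvd_antisymm (hk.dvd hl) (hl.dvd hk)

/-- `m k`: the least number of vertices of a graph containing a triangle which is `1/k`-RA. -/
noncomputable def m (k : ℕ) : ℕ :=
  sInf {n : ℕ | ∃ (V : Type) (_ : Fintype V) (G : SimpleGraph V),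
    Fintype.card V = n ∧ ¬ G.CliqueFree 3 ∧ InvRA k G}

/-- The crown graph `Cr(2n) = K₂ × K_n`. -/
def crown (n : ℕ) : SimpleGraph (Fin n × Bool) where
  Adj p q := p.1 ≠ q.1 ∧ p.2 ≠ q.2
  symm := ⟨fun _ _ h => ⟨h.1.symm, h.2.symm⟩⟩
  loopless := ⟨fun _ h => h.1 rfl⟩

/-- The pyramid over a graph: add one new vertex adjacent to every vertex. -/
def pyramid {V : Type*} (G : SimpleGraph V) : SimpleGraph (Option V) where
  Adj
    | none, none => False
    | none, some _ => True
    | some _, none => True
    | some a, some b => G.Adj a b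
  symm := ⟨by
    rintro (_ | a) (_ | b) h
    · exact h
    · trivial
    · trivial
    · exact G.adj_symm h⟩
  loopless := ⟨by
    rintro (_ | a) h
    · exact h
    · exact G.loopless.irrefl a h⟩

end Pool.Agent.Lib.MP_b5c453_co
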