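import Pool.Agent.Lib.MP_b5c453_co.Basic

/-!
The signed double cover of a graph `H` with one extra isolated vertex, and the computation of the
cokernel of its RA matrix in terms of the adjacency matrix of `H`.
-/

set_option autoImplicit false

open Finset

namespace Pool.Agent.Lib.MP_b5c453_co

/-- adjacency of `H` extended to `Option U` by an isolated vertex `none` -/
def HA {U : Type} (H : SimpleGraph U) : Option U → Option U → Prop
  | some a, some b => H.Adj a b
  | _, _ => False

lemma HA_self {U : Type} (H : SimpleGraph U) (a : Option U) : ¬ HA H a a := by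
  rcases a with _ | a
  · exact id
  · exact H.loopless.irrefl a

lemma HA_symm {U : Type} (H : SimpleGraph U) {a b : Option U} (h : HA H a b) : HA H b a := by
  rcases a with _ | a <;> rcases b with _ | b
  · exact h
  · exact h
  · exact h
  · exact H.adj_symm h

/-- The signed double cover: two vertices over different points of `Option U` are joined iff
they have opposite signs in case of an edge of `H`, equal signs otherwise. -/
def dcov {U : Type} (H : SimpleGraph U) : SimpleGraph (Option U × Bool) where
  Adj p q := p.1 ≠ q.1 ∧ (HA H p.1 q.1 ↔ p.2 ≠ q.2)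
  symm := ⟨fun _ _ h => ⟨h.1.symm, ⟨fun h1 => (h.2.mp (HA_symm H h1)).symm,
    fun h1 => HA_symm H (h.2.mpr h1.symm)⟩⟩⟩
  loopless := ⟨fun _ h => h.1 rfl⟩

lemma mem_closed {U : Type} (H : SimpleGraph U) (p q : Option U × Bool) :
    q ∈ closedNbhd (dcov H) p ↔ (HA H p.1 q.1 ↔ p.2 ≠ q.2) := by
  unfold closedNbhd
  constructor
  · rintro (rfl | h)
    · exact ⟨fun h => absurd h (HA_self H _), fun h => absurd rfl h⟩
    · exact h.2
  · intro h
    by_cases h1 : p.1 = q.1
    · left
      refine Prod.ext h1.symm ?_
      by_contra h2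
      have h3 := h.mpr (Ne.symm h2)
      rw [h1] at h3
      exact HA_self H _ h3
    · exact Or.inr ⟨h1, h⟩

/-- sign of a Boolean -/
def sg (b : Bool) : ℤ := if b then 1 else -1

open scoped Classical in
/-- extension of `c` to `Option U` with total sum zero -/
noncomputable def cext {U : Type} [Fintype U] (c : U → ℤ) : Option U → ℤ
  | none => - ∑ y, c y
  | some y => c y

lemma sum_cext {U : Type} [Fintype U] (c : U → ℤ) : ∑ d, cext c d = 0 := by
  rw [Fintype.sum_option]
  simp [cext]

open scoped Classical in
lemma sum_HA_dvd {U : Type} [Fintype U] (H : SimpleGraph U) (k : ℕ) (c : U → ℤ)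
    (hrow : ∀ u, (k : ℤ) ∣ ∑ y, if H.Adj u y then c y else 0) (a : Option U) :
    (k : ℤ) ∣ ∑ d, if HA H a d then cext c d else 0 := by
  rw [Fintype.sum_option]
  rcases a with _ | u
  · simp [HA]
  · obtain ⟨A, hA⟩ := hrow u
    refine ⟨A, ?_⟩
    have e : (if HA H (some u) none then cext c none else 0) = 0 := if_neg (fun h => h)
    rw [← hA, e, zero_add]
    refine sum_congr rfl fun y _ => ?_
    by_cases h : H.Adj u y <;> simp [HA, cext, h]

open scoped Classical in
lemma row_dvd {U : Type} [Fintype U] (H : SimpleGraph U) (k : ℕ) (c : U → ℤ)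
    (hrow : ∀ u, (k : ℤ) ∣ ∑ y, if H.Adj u y then c y else 0) (p q : Option U × Bool) :
    (k : ℤ) ∣ ∑ x : Option U × Bool, (sg x.2 * cext c x.1) *
      indVec (closedNbhd (dcov H) p ∩ closedNbhd (dcov H) q) x := by
  obtain ⟨A, hA⟩ := sum_HA_dvd H k c hrow p.1
  obtain ⟨B, hB⟩ := sum_HA_dvd H k c hrow q.1
  refine ⟨-(sg p.2 * A + sg q.2 * B), ?_⟩
  have key : 2 * ∑ x : Option U × Bool, (sg x.2 * cext c x.1) *
      indVec (closedNbhd (dcov H) p ∩ closedNbhd (dcov H) q) x =
      ∑ d, (sg p.2 * (cext c d - 2 * (if HA H p.1 d then cext c d else 0)) +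
        sg q.2 * (cext c d - 2 * (if HA H q.1 d then cext c d else 0))) := by
    rw [Fintype.sum_prod_type, mul_sum]
    refine sum_congr rfl fun d _ => ?_
    rw [Fintype.sum_bool]
    unfold indVec
    simp only [Set.mem_inter_iff, mem_closed]
    obtain ⟨p1, p2⟩ := p
    obtain ⟨q1, q2⟩ := q
    by_cases h1 : HA H p1 d <;> by_cases h2 : HA H q1 d <;> cases p2 <;> cases q2 <;>
      simp [h1, h2, sg] <;> ring
  rw [sum_add_distrib, ← mul_sum, ← mul_sum, sum_sub_distrib, sum_sub_distrib, ← mul_sum,
    ← mul_sum, sum_cext, hA, hB] at key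
  linarith [key]

open scoped Classical in
/-- Relations in the quotient by the row lattice. -/
lemma quot_rel {V : Type} [Fintype V] [DecidableEq V] (G : SimpleGraph V) (u v : V) :
    ∑ x, (if x ∈ closedNbhd G u ∩ closedNbhd G v then
      (rowLattice G).mkQ (Pi.single x 1) else 0) = 0 := by
  have h1 : (rowLattice G).mkQ (indVec (closedNbhd G u ∩ closedNbhd G v)) = 0 := by
    rw [Submodule.mkQ_apply, Submodule.Quotient.mk_eq_zero]
    exact Submodule.subset_span ⟨u, v, rfl⟩
  have h2 : indVec (closedNbhd G u ∩ closedNbhd G v) =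
      ∑ x, (if x ∈ closedNbhd G u ∩ closedNbhd G v then (Pi.single x 1 : V → ℤ) else 0) := by
    funext z
    rw [Finset.sum_apply]
    rw [Finset.sum_eq_single z]
    · unfold indVec
      split_ifs <;> simp
    · intro x _ hx
      split_ifs
      · rw [Pi.single_eq_of_ne hx.symm]
      · rfl
    · intro h
      exact absurd (mem_univ z) h
  rw [h2, map_sum] at h1
  refine Eq.trans ?_ h1
  refine sum_congr rfl fun x _ => ?_
  split_ifs
  · rfl
  · rw [map_zero]

open scoped Classical in
/-- The general theorem on double covers. -/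
theorem invRA_dcov {U : Type} [Fintype U] [DecidableEq U] (H : SimpleGraph U) (k : ℕ)
    (c : U → ℤ) (u₀ : U) (hc : c u₀ = 1)
    (hrow : ∀ u, (k : ℤ) ∣ ∑ y, if H.Adj u y then c y else 0)
    (hgen : ∀ (Q : Type) [AddCommGroup Q] (g : U → Q),
      (∀ u, ∑ y, (if H.Adj u y then g y else 0) = 0) →
        (∀ x, g x = c x • g u₀) ∧ (k : ℤ) • g u₀ = 0)
    (hT : ∀ (Q : Type) [AddCommGroup Q] (f : U → Q),
      (∀ u v, ∑ y, (if H.Adj u y ∧ H.Adj v y then f y else 0) = 0) → ∀ x, f x = 0) :
    InvRA k (dcov H) := by
  set R := rowLattice (dcov H) with hR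
  let g : Option U × Bool → ((Option U × Bool → ℤ) ⧸ R) := fun x => R.mkQ (Pi.single x 1)
  have rel : ∀ p q : Option U × Bool,
      ∑ x, (if x ∈ closedNbhd (dcov H) p ∩ closedNbhd (dcov H) q then g x else 0) = 0 :=
    fun p q => quot_rel (dcov H) p q
  -- relation (1)
  have r1 : ∀ (s : Bool) (u : U), ∑ y, (if H.Adj u y then g (some y, s) else 0) = 0 := by
    intro s u
    have h := rel (none, s) (some u, !s)
    rw [Fintype.sum_prod_type, Fintype.sum_option] at h
    refine Eq.trans ?_ h
    rw [Fintype.sum_bool]
    have e0 : ∀ t : Bool, (if ((none : Option U), t) ∈ closedNbhd (dcov H) (none, s) ∩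
        closedNbhd (dcov H) (some u, !s) then g (none, t) else 0) = 0 := by
      intro t
      rw [if_neg]
      rw [Set.mem_inter_iff, mem_closed, mem_closed]
      cases s <;> cases t <;> simp [HA]
    rw [e0, e0, add_zero, zero_add]
    refine sum_congr rfl fun y _ => ?_
    rw [Fintype.sum_bool]
    simp only [Set.mem_inter_iff, mem_closed]
    by_cases h1 : H.Adj u y <;> cases s <;> simp [HA, h1]
  -- relation (2)
  have r2 : ∀ s : Bool, g (none, s) + ∑ y, g (some y, s) = 0 := by
    intro s
    have h := rel (none, s) (none, s)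
    rw [Fintype.sum_prod_type, Fintype.sum_option] at h
    refine Eq.trans ?_ h
    rw [Fintype.sum_bool]
    congr 1
    · simp only [Set.mem_inter_iff, mem_closed]
      cases s <;> simp [HA]
    · refine sum_congr rfl fun y _ => ?_
      rw [Fintype.sum_bool]
      simp only [Set.mem_inter_iff, mem_closed]
      cases s <;> simp [HA]
  -- relation (3)
  have r3 : ∀ u v : U, ∑ y, (if H.Adj u y ∧ H.Adj v y then
      (g (some y, true) + g (some y, false)) else 0) = 0 := by
    intro u v
    have h := rel (some u, true) (some v, false)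
    rw [Fintype.sum_prod_type, Fintype.sum_option, Fintype.sum_bool] at h
    have e0 : ∀ t : Bool, (if ((none : Option U), t) ∈ closedNbhd (dcov H) (some u, true) ∩
        closedNbhd (dcov H) (some v, false) then g (none, t) else 0) = 0 := by
      intro t
      rw [if_neg]
      rw [Set.mem_inter_iff, mem_closed, mem_closed]
      cases t <;> simp [HA]
    rw [e0, e0, add_zero, zero_add] at h
    have e1 : ∀ y : U, (∑ t : Bool, (if (some y, t) ∈ closedNbhd (dcov H) (some u, true) ∩
        closedNbhd (dcov H) (some v, false) then g (some y, t) else 0)) =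
        (if H.Adj v y then g (some y, true) else 0) +
        (if H.Adj u y then g (some y, false) else 0) -
        (if H.Adj u y ∧ H.Adj v y then (g (some y, true) + g (some y, false)) else 0) := by
      intro y
      rw [Fintype.sum_bool]
      simp only [Set.mem_inter_iff, mem_closed]
      by_cases h1 : H.Adj u y <;> by_cases h2 : H.Adj v y <;> simp [HA, h1, h2]
    rw [Finset.sum_congr rfl (fun y _ => e1 y), sum_sub_distrib, sum_add_distrib, r1 true v,
      r1 false u, add_zero, zero_sub, neg_eq_zero] at h
    exact h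
  have hf := hT _ (fun y => g (some y, true) + g (some y, false)) r3
  have hg := hgen _ (fun y => g (some y, true)) (r1 true)
  have hneg : ∀ y, g (some y, false) = - g (some y, true) := fun y =>
    (neg_eq_of_add_eq_zero_right (hf y)).symm
  have hnone : ∀ s, g (none, s) = - ∑ y, g (some y, s) := fun s =>
    eq_neg_of_add_eq_zero_left (r2 s)
  have hall : ∀ x : Option U × Bool, g x = (sg x.2 * cext c x.1) • g (some u₀, true) := by
    have hplus : ∀ d : Option U, g (d, true) = cext c d • g (some u₀, true) := by
      rintro (_ | y)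
      · rw [hnone]
        simp only [cext, neg_smul, sum_smul]
        congr 1
        exact sum_congr rfl fun y _ => hg.1 y
      · exact hg.1 y
    have hminus : ∀ d : Option U, g (d, false) = - g (d, true) := by
      rintro (_ | y)
      · rw [hnone, hnone, ← sum_neg_distrib, neg_neg]
        refine sum_congr rfl fun y _ => ?_
        rw [hneg y, neg_neg]
      · exact hneg y
    rintro ⟨d, s⟩
    cases s
    · rw [hminus, hplus]
      simp [sg]
    · rw [hplus]
      simp [sg]
  refine invRA_of_criterion (dcov H) k (fun x => sg x.2 * cext c x.1) (some u₀, true) ?_ ?_ ?_ ?_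
  · simp [sg, cext, hc]
  · exact row_dvd H k c hrow
  · intro x
    have h := hall x
    rw [← sub_eq_zero] at h
    have h2 : R.mkQ (Pi.single x 1 - (sg x.2 * cext c x.1) •
        (Pi.single (some u₀, true) 1 : Option U × Bool → ℤ)) = 0 := by
      rw [map_sub, map_smul]
      exact h
    rwa [Submodule.mkQ_apply, Submodule.Quotient.mk_eq_zero] at h2
  · have h2 : R.mkQ ((k : ℤ) • (Pi.single (some u₀, true) 1 : Option U × Bool → ℤ)) = 0 := by
      rw [map_smul]
      exact hg.2
    rwa [Submodule.mkQ_apply, Submodule.Quotient.mk_eq_zero] at h2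

/-- The double cover contains a triangle if `H` has two distinct non-adjacent vertices. -/
theorem dcov_triangle {U : Type} (H : SimpleGraph U) (a b : U) (hab : a ≠ b)
    (h : ¬ H.Adj a b) : ¬ (dcov H).CliqueFree 3 := by
  classical
  intro hfree
  refine hfree {(none, true), (some a, true), (some b, true)} ?_
  rw [SimpleGraph.is3Clique_iff]
  refine ⟨_, _, _, ?_, ?_, ?_, rfl⟩
  · exact ⟨by simp, by simp [HA]⟩
  · exact ⟨by simp, by simp [HA]⟩
  · exact ⟨by simpa using hab, by simpa [HA] using h⟩

lemma card_dcov {U : Type} [Fintype U] : Fintype.card (Option U × Bool) =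
    2 * (Fintype.card U + 1) := by
  rw [Fintype.card_prod, Fintype.card_option, Fintype.card_bool, mul_comm]

end Pool.Agent.Lib.MP_b5c453_co
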