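import Pool.Agent.Lib.MP_b5c453_co.Cover

/-!
The binary gadget: a bipartite graph on `6 (n + 1)` vertices attached to a vertex `u` of a base
graph, which acts on the relations of the adjacency matrix like a loop of weight `- 2 * h` at
`u`, where `h` is the number with binary digits `b 0, …, b n` (most significant digit first).
-/

set_option autoImplicit false

open Finset

namespace Pool.Agent.Lib.MP_b5c453_co

/-- vertex type of the gadget graph: base vertices, equation vertices, variable vertices -/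
abbrev GV (W : Type) (n : ℕ) : Type := W ⊕ ((Fin (n + 1) × Fin 3) ⊕ (Fin (n + 1) × Fin 3))

/-- adjacency between equation vertex `(i, t)` and variable vertex `(j, s)` -/
def gR {n : ℕ} (x y : Fin (n + 1) × Fin 3) : Prop :=
  (x.1 = y.1 ∧ (y.2 = 0 ∨ y.2 = x.2)) ∨ (x.2 = 0 ∧ y.2 ≠ 0 ∧ (y.1 : ℕ) + 1 = x.1)

/-- adjacency of the gadget graph -/
def gAdj {W : Type} (H : SimpleGraph W) (u : W) (n : ℕ) (b : ℕ → Bool) : GV W n → GV W n → Prop
  | Sum.inl w, Sum.inl w' => H.Adj w w'
  | Sum.inl w, Sum.inr (Sum.inl x) => w = u ∧ x.2 = 0 ∧ b x.1 = true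
  | Sum.inr (Sum.inl x), Sum.inl w => w = u ∧ x.2 = 0 ∧ b x.1 = true
  | Sum.inl w, Sum.inr (Sum.inr y) => w = u ∧ y.2 = 0 ∧ (y.1 : ℕ) = n
  | Sum.inr (Sum.inr y), Sum.inl w => w = u ∧ y.2 = 0 ∧ (y.1 : ℕ) = n
  | Sum.inr (Sum.inl x), Sum.inr (Sum.inr y) => gR x y
  | Sum.inr (Sum.inr y), Sum.inr (Sum.inl x) => gR x y
  | _, _ => False

/-- the gadget graph -/
def gad {W : Type} (H : SimpleGraph W) (u : W) (n : ℕ) (b : ℕ → Bool) :
    SimpleGraph (GV W n) where
  Adj := gAdj H u n b
  symm := ⟨by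
    rintro (w | x | y) (w' | x' | y') h
    · exact H.adj_symm h
    · exact h
    · exact h
    · exact h
    · exact h
    · exact h
    · exact h
    · exact h
    · exact h⟩
  loopless := ⟨by
    rintro (w | x | y) h
    · exact H.loopless.irrefl w h
    · exact h
    · exact h⟩

set_option linter.unusedSectionVars false

section Sums

variable {W : Type} [Fintype W] (H : SimpleGraph W) (u : W) (n : ℕ) (b : ℕ → Bool)
  {Q : Type} [AddCommGroup Q] (g : GV W n → Q)

/-- sum over the predecessor index -/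
def predSum {n : ℕ} (f : Fin (n + 1) → Q) (i : Fin (n + 1)) : Q :=
  ∑ j : Fin (n + 1), if (j : ℕ) + 1 = i then f j else 0

/-- sum over the successor index -/
def succSum {n : ℕ} (f : Fin (n + 1) → Q) (j : Fin (n + 1)) : Q :=
  ∑ i : Fin (n + 1), if (j : ℕ) + 1 = i then f i else 0

lemma predSum_zero {n : ℕ} (f : Fin (n + 1) → Q) (i : Fin (n + 1)) (hi : (i : ℕ) = 0) :
    predSum f i = 0 := by
  unfold predSum
  refine Finset.sum_eq_zero fun j _ => if_neg ?_
  omega

lemma predSum_succ {n : ℕ} (f : Fin (n + 1) → Q) (i j : Fin (n + 1)) (hi : (j : ℕ) + 1 = i) :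
    predSum f i = f j := by
  unfold predSum
  rw [Finset.sum_eq_single j]
  · exact if_pos hi
  · intro l _ hl
    refine if_neg fun h => hl (Fin.ext (by omega))
  · intro h
    exact absurd (mem_univ _) h

lemma succSum_last {n : ℕ} (f : Fin (n + 1) → Q) (j : Fin (n + 1)) (hj : (j : ℕ) = n) :
    succSum f j = 0 := by
  unfold succSum
  refine Finset.sum_eq_zero fun i _ => if_neg ?_
  have := i.2
  omega

lemma succSum_succ {n : ℕ} (f : Fin (n + 1) → Q) (i j : Fin (n + 1)) (hi : (j : ℕ) + 1 = i) :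
    succSum f j = f i := by
  unfold succSum
  rw [Finset.sum_eq_single i]
  · exact if_pos hi
  · intro l _ hl
    refine if_neg fun h => hl (Fin.ext (by omega))
  · intro h
    exact absurd (mem_univ _) h

/-- general decomposition of a sum over the gadget graph -/
lemma gsum (P : GV W n → Prop) [DecidablePred P] :
    ∑ y, (if P y then g y else 0) =
      (∑ w, if P (Sum.inl w) then g (Sum.inl w) else 0) +
      ((∑ i : Fin (n + 1), ((if P (Sum.inr (Sum.inl (i, 0))) then g (Sum.inr (Sum.inl (i, 0))) else 0) +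
        (if P (Sum.inr (Sum.inl (i, 1))) then g (Sum.inr (Sum.inl (i, 1))) else 0) +
        (if P (Sum.inr (Sum.inl (i, 2))) then g (Sum.inr (Sum.inl (i, 2))) else 0))) +
      (∑ i : Fin (n + 1), ((if P (Sum.inr (Sum.inr (i, 0))) then g (Sum.inr (Sum.inr (i, 0))) else 0) +
        (if P (Sum.inr (Sum.inr (i, 1))) then g (Sum.inr (Sum.inr (i, 1))) else 0) +
        (if P (Sum.inr (Sum.inr (i, 2))) then g (Sum.inr (Sum.inr (i, 2))) else 0)))) := by
  rw [Fintype.sum_sum_type, Fintype.sum_sum_type, Fintype.sum_prod_type, Fintype.sum_prod_type]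
  simp only [Fin.sum_univ_three]

variable {H u n b}

lemma adj_ww (w w' : W) : (gad H u n b).Adj (Sum.inl w) (Sum.inl w') ↔ H.Adj w w' := Iff.rfl

lemma adj_we (w : W) (i : Fin (n + 1)) (t : Fin 3) :
    (gad H u n b).Adj (Sum.inl w) (Sum.inr (Sum.inl (i, t))) ↔ (w = u ∧ t = 0 ∧ b i = true) :=
  Iff.rfl

lemma adj_ew (w : W) (i : Fin (n + 1)) (t : Fin 3) :
    (gad H u n b).Adj (Sum.inr (Sum.inl (i, t))) (Sum.inl w) ↔ (w = u ∧ t = 0 ∧ b i = true) :=
  Iff.rfl

lemma adj_wv (w : W) (i : Fin (n + 1)) (t : Fin 3) :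
    (gad H u n b).Adj (Sum.inl w) (Sum.inr (Sum.inr (i, t))) ↔ (w = u ∧ t = 0 ∧ (i : ℕ) = n) :=
  Iff.rfl

lemma adj_vw (w : W) (i : Fin (n + 1)) (t : Fin 3) :
    (gad H u n b).Adj (Sum.inr (Sum.inr (i, t))) (Sum.inl w) ↔ (w = u ∧ t = 0 ∧ (i : ℕ) = n) :=
  Iff.rfl

lemma adj_ee (x y : Fin (n + 1) × Fin 3) :
    (gad H u n b).Adj (Sum.inr (Sum.inl x)) (Sum.inr (Sum.inl y)) ↔ False :=
  Iff.rfl

lemma adj_vv (x y : Fin (n + 1) × Fin 3) :
    (gad H u n b).Adj (Sum.inr (Sum.inr x)) (Sum.inr (Sum.inr y)) ↔ False :=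
  Iff.rfl

lemma adj_ev (i j : Fin (n + 1)) (t s : Fin 3) :
    (gad H u n b).Adj (Sum.inr (Sum.inl (i, t))) (Sum.inr (Sum.inr (j, s))) ↔
      ((i = j ∧ (s = 0 ∨ s = t)) ∨ (t = 0 ∧ s ≠ 0 ∧ (j : ℕ) + 1 = i)) :=
  Iff.rfl

lemma adj_ve (i j : Fin (n + 1)) (t s : Fin 3) :
    (gad H u n b).Adj (Sum.inr (Sum.inr (j, s))) (Sum.inr (Sum.inl (i, t))) ↔
      ((i = j ∧ (s = 0 ∨ s = t)) ∨ (t = 0 ∧ s ≠ 0 ∧ (j : ℕ) + 1 = i)) :=
  Iff.rfl

open scoped Classical in
lemma sum_eq0 (i : Fin (n + 1)) :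
    ∑ y, (if (gad H u n b).Adj (Sum.inr (Sum.inl (i, 0))) y then g y else 0) =
      (if b i then g (Sum.inl u) else 0) + (g (Sum.inr (Sum.inr (i, 0))) +
        predSum (fun j => g (Sum.inr (Sum.inr (j, 1))) + g (Sum.inr (Sum.inr (j, 2)))) i) := by
  rw [gsum]
  simp only [adj_ew, adj_ee, adj_ev]
  congr 1
  · by_cases h : b i
    · simp [h]
    · simp [h]
  · unfold predSum
    simp [Finset.sum_add_distrib, Finset.sum_ite_eq, add_assoc]
    rw [← sum_add_distrib]
    refine sum_congr rfl fun j _ => ?_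
    split_ifs <;> simp

open scoped Classical in
lemma sum_eq1 (i : Fin (n + 1)) :
    ∑ y, (if (gad H u n b).Adj (Sum.inr (Sum.inl (i, 1))) y then g y else 0) =
      g (Sum.inr (Sum.inr (i, 0))) + g (Sum.inr (Sum.inr (i, 1))) := by
  rw [gsum]
  simp only [adj_ew, adj_ee, adj_ev]
  simp [Finset.sum_add_distrib, Finset.sum_ite_eq]

open scoped Classical in
lemma sum_eq2 (i : Fin (n + 1)) :
    ∑ y, (if (gad H u n b).Adj (Sum.inr (Sum.inl (i, 2))) y then g y else 0) =
      g (Sum.inr (Sum.inr (i, 0))) + g (Sum.inr (Sum.inr (i, 2))) := by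
  rw [gsum]
  simp only [adj_ew, adj_ee, adj_ev]
  simp [Finset.sum_add_distrib, Finset.sum_ite_eq]

open scoped Classical in
lemma sum_va0 (j : Fin (n + 1)) :
    ∑ y, (if (gad H u n b).Adj (Sum.inr (Sum.inr (j, 0))) y then g y else 0) =
      (if (j : ℕ) = n then g (Sum.inl u) else 0) + (g (Sum.inr (Sum.inl (j, 0))) +
        g (Sum.inr (Sum.inl (j, 1))) + g (Sum.inr (Sum.inl (j, 2)))) := by
  rw [gsum]
  simp only [adj_vw, adj_vv, adj_ve]
  congr 1
  · by_cases h : (j : ℕ) = n
    · simp [h]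
    · simp [h]
  · simp [Finset.sum_add_distrib, Finset.sum_ite_eq']

open scoped Classical in
lemma sum_va1 (j : Fin (n + 1)) :
    ∑ y, (if (gad H u n b).Adj (Sum.inr (Sum.inr (j, 1))) y then g y else 0) =
      g (Sum.inr (Sum.inl (j, 1))) + succSum (fun i => g (Sum.inr (Sum.inl (i, 0)))) j := by
  rw [gsum]
  simp only [adj_vw, adj_vv, adj_ve]
  unfold succSum
  simp [Finset.sum_add_distrib, Finset.sum_ite_eq']
  rw [add_comm]

open scoped Classical in
lemma sum_va2 (j : Fin (n + 1)) :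
    ∑ y, (if (gad H u n b).Adj (Sum.inr (Sum.inr (j, 2))) y then g y else 0) =
      g (Sum.inr (Sum.inl (j, 2))) + succSum (fun i => g (Sum.inr (Sum.inl (i, 0)))) j := by
  rw [gsum]
  simp only [adj_vw, adj_vv, adj_ve]
  unfold succSum
  simp [Finset.sum_add_distrib, Finset.sum_ite_eq']
  rw [add_comm]

open scoped Classical in
lemma sum_ww (w : W) :
    ∑ y, (if (gad H u n b).Adj (Sum.inl w) y then g y else 0) =
      (∑ w', if H.Adj w w' then g (Sum.inl w') else 0) +
      (if w = u then (∑ i : Fin (n + 1), if b i then g (Sum.inr (Sum.inl (i, 0))) else 0) +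
        g (Sum.inr (Sum.inr (Fin.last n, 0))) else 0) := by
  rw [gsum]
  simp only [adj_ww, adj_we, adj_wv]
  congr 1
  by_cases h : w = u
  · simp only [h, true_and, if_true]
    congr 1
    · simp
    · rw [Finset.sum_eq_single (Fin.last n)]
      · simp
      · intro j _ hj
        have : (j : ℕ) ≠ n := fun h => hj (Fin.ext h)
        simp [this]
      · intro h
        exact absurd (mem_univ _) h
  · simp [h]

open scoped Classical in
lemma int_eq12 (i : Fin (n + 1)) :
    ∑ y, (if (gad H u n b).Adj (Sum.inr (Sum.inl (i, 1))) y ∧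
      (gad H u n b).Adj (Sum.inr (Sum.inl (i, 2))) y then g y else 0) =
      g (Sum.inr (Sum.inr (i, 0))) := by
  rw [gsum]
  simp only [adj_ew, adj_ee, adj_ev]
  simp [Finset.sum_add_distrib, Finset.sum_ite_eq]

open scoped Classical in
lemma int_va01 (i : Fin (n + 1)) :
    ∑ y, (if (gad H u n b).Adj (Sum.inr (Sum.inr (i, 0))) y ∧
      (gad H u n b).Adj (Sum.inr (Sum.inr (i, 1))) y then g y else 0) =
      g (Sum.inr (Sum.inl (i, 1))) := by
  rw [gsum]
  simp only [adj_vw, adj_vv, adj_ve]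
  have h : ∀ j : Fin (n + 1), ¬ (j = i ∧ (i : ℕ) + 1 = j) := by
    rintro j ⟨rfl, h⟩
    omega
  simp [Finset.sum_add_distrib, Finset.sum_ite_eq', h]

open scoped Classical in
lemma int_va02 (i : Fin (n + 1)) :
    ∑ y, (if (gad H u n b).Adj (Sum.inr (Sum.inr (i, 0))) y ∧
      (gad H u n b).Adj (Sum.inr (Sum.inr (i, 2))) y then g y else 0) =
      g (Sum.inr (Sum.inl (i, 2))) := by
  rw [gsum]
  simp only [adj_vw, adj_vv, adj_ve]
  have h : ∀ j : Fin (n + 1), ¬ (j = i ∧ (i : ℕ) + 1 = j) := by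
    rintro j ⟨rfl, h⟩
    omega
  simp [Finset.sum_add_distrib, Finset.sum_ite_eq', h]

open scoped Classical in
lemma int_va12 (j : Fin (n + 1)) :
    ∑ y, (if (gad H u n b).Adj (Sum.inr (Sum.inr (j, 1))) y ∧
      (gad H u n b).Adj (Sum.inr (Sum.inr (j, 2))) y then g y else 0) =
      succSum (fun i => g (Sum.inr (Sum.inl (i, 0)))) j := by
  rw [gsum]
  simp only [adj_vw, adj_vv, adj_ve]
  unfold succSum
  simp [Finset.sum_add_distrib]

open scoped Classical in
lemma int_ww (w w' : W) :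
    ∑ y, (if (gad H u n b).Adj (Sum.inl w) y ∧ (gad H u n b).Adj (Sum.inl w') y
      then g y else 0) =
      (∑ x, if H.Adj w x ∧ H.Adj w' x then g (Sum.inl x) else 0) +
      (if w = u ∧ w' = u then (∑ i : Fin (n + 1), if b i then g (Sum.inr (Sum.inl (i, 0))) else 0) +
        g (Sum.inr (Sum.inr (Fin.last n, 0))) else 0) := by
  rw [gsum]
  simp only [adj_ww, adj_we, adj_wv]
  congr 1
  by_cases h : w = u
  · by_cases h' : w' = u
    · simp only [h, h', true_and, if_true, and_self]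
      congr 1
      · simp
      · rw [Finset.sum_eq_single (Fin.last n)]
        · simp
        · intro j _ hj
          have : (j : ℕ) ≠ n := fun h => hj (Fin.ext h)
          simp [this]
        · intro h
          exact absurd (mem_univ _) h
    · simp [h']
  · simp [h]

/-- digit value -/
def bv (b : ℕ → Bool) (i : ℕ) : ℤ := if b i then 1 else 0

/-- the number with digits `b 0, …, b i` -/
def hh (b : ℕ → Bool) : ℕ → ℤ
  | 0 => bv b 0
  | (i + 1) => 2 * hh b i + bv b (i + 1)

lemma ite_bv {Q : Type} [AddCommGroup Q] (b : ℕ → Bool) (i : ℕ) (x : Q) :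
    (if b i then x else 0) = bv b i • x := by
  unfold bv
  split_ifs <;> simp

lemma sum_digits (b : ℕ → Bool) (n : ℕ) :
    ∑ i ∈ range (n + 1), bv b i * 2 ^ (n - i) = hh b n := by
  induction n with
  | zero => simp [hh]
  | succ n ih =>
    rw [sum_range_succ, hh, ← ih, mul_sum]
    congr 1
    · refine sum_congr rfl fun i hi => ?_
      have h1 : n + 1 - i = (n - i) + 1 := by
        have := mem_range.mp hi
        omega
      rw [h1, pow_succ]
      ring
    · simp

open scoped Classical in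
/-- solving the relations at the gadget vertices -/
lemma solve_gadget
    (he : ∀ x, ∑ y, (if (gad H u n b).Adj (Sum.inr x) y then g y else 0) = 0) :
    (∀ i : Fin (n + 1), g (Sum.inr (Sum.inr (i, 0))) = -(hh b i • g (Sum.inl u)) ∧
      g (Sum.inr (Sum.inr (i, 1))) = hh b i • g (Sum.inl u) ∧
      g (Sum.inr (Sum.inr (i, 2))) = hh b i • g (Sum.inl u)) ∧
    (∀ i : Fin (n + 1), g (Sum.inr (Sum.inl (i, 0))) = -((2 : ℤ) ^ (n - i) • g (Sum.inl u)) ∧
      g (Sum.inr (Sum.inl (i, 1))) =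
        (if (i : ℕ) = n then 0 else (2 : ℤ) ^ (n - i - 1)) • g (Sum.inl u) ∧
      g (Sum.inr (Sum.inl (i, 2))) =
        (if (i : ℕ) = n then 0 else (2 : ℤ) ^ (n - i - 1)) • g (Sum.inl u)) := by
  have e0 := fun i : Fin (n + 1) => (sum_eq0 g i).symm.trans (he (Sum.inl (i, 0)))
  have e1 := fun i : Fin (n + 1) => (sum_eq1 g i).symm.trans (he (Sum.inl (i, 1)))
  have e2 := fun i : Fin (n + 1) => (sum_eq2 g i).symm.trans (he (Sum.inl (i, 2)))
  have v0 := fun i : Fin (n + 1) => (sum_va0 g i).symm.trans (he (Sum.inr (i, 0)))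
  have v1 := fun i : Fin (n + 1) => (sum_va1 g i).symm.trans (he (Sum.inr (i, 1)))
  have v2 := fun i : Fin (n + 1) => (sum_va2 g i).symm.trans (he (Sum.inr (i, 2)))
  have a1 : ∀ i : Fin (n + 1), g (Sum.inr (Sum.inr (i, 1))) = - g (Sum.inr (Sum.inr (i, 0))) :=
    fun i => (neg_eq_of_add_eq_zero_right (e1 i)).symm
  have a2 : ∀ i : Fin (n + 1), g (Sum.inr (Sum.inr (i, 2))) = - g (Sum.inr (Sum.inr (i, 0))) :=
    fun i => (neg_eq_of_add_eq_zero_right (e2 i)).symm
  have up : ∀ (i : ℕ) (hi : i < n + 1),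
      g (Sum.inr (Sum.inr (⟨i, hi⟩, 0))) = -(hh b i • g (Sum.inl u)) := by
    intro i
    induction i with
    | zero =>
      intro hi
      have h := e0 ⟨0, hi⟩
      rw [predSum_zero _ _ rfl, add_zero, ite_bv] at h
      simp only [hh]
      exact (neg_eq_of_add_eq_zero_right h).symm
    | succ i ih =>
      intro hi
      have h := e0 ⟨i + 1, hi⟩
      rw [predSum_succ _ ⟨i + 1, hi⟩ ⟨i, by omega⟩ rfl, a1, a2, ih (by omega), ite_bv] at h
      simp only [hh]
      have h2 : g (Sum.inr (Sum.inr (⟨i + 1, hi⟩, 0))) +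
          (2 * hh b i + bv b (i + 1)) • g (Sum.inl u) = 0 := by
        rw [← h]
        simp only [add_smul, mul_smul, two_smul, neg_neg]
        abel
      exact eq_neg_of_add_eq_zero_left h2
  have down : ∀ (d : ℕ) (i : Fin (n + 1)), (i : ℕ) + d = n →
      g (Sum.inr (Sum.inl (i, 0))) = -((2 : ℤ) ^ d • g (Sum.inl u)) := by
    intro d
    induction d with
    | zero =>
      intro i hi
      have hi' : (i : ℕ) = n := by omega
      have h := v0 i
      have h1 := v1 i
      have h2 := v2 i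
      rw [succSum_last _ _ hi', add_zero] at h1 h2
      rw [h1, h2, if_pos hi', add_zero, add_zero] at h
      rw [pow_zero, one_smul]
      exact (neg_eq_of_add_eq_zero_right h).symm
    | succ d ih =>
      intro i hi
      have hi' : (i : ℕ) ≠ n := by omega
      let j : Fin (n + 1) := ⟨(i : ℕ) + 1, by omega⟩
      have hj : (i : ℕ) + 1 = j := rfl
      have h := v0 i
      have h1 := v1 i
      have h2 := v2 i
      have h3 := ih j (by rw [← hj]; omega)
      rw [succSum_succ _ j i hj, h3] at h1 h2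
      have h1' := eq_neg_of_add_eq_zero_left h1
      have h2' := eq_neg_of_add_eq_zero_left h2
      rw [h1', h2', if_neg hi', zero_add, neg_neg] at h
      have h4 : g (Sum.inr (Sum.inl (i, 0))) + (2 : ℤ) ^ (d + 1) • g (Sum.inl u) = 0 := by
        rw [← h, pow_succ, mul_smul, two_smul, smul_add]
        abel
      exact eq_neg_of_add_eq_zero_left h4
  constructor
  · rintro ⟨i, hi⟩
    refine ⟨up i hi, ?_, ?_⟩
    · rw [a1, up i hi, neg_neg]
    · rw [a2, up i hi, neg_neg]
  · intro i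
    have hi := i.2
    refine ⟨down (n - i) i (by omega), ?_, ?_⟩
    · by_cases h : (i : ℕ) = n
      · rw [if_pos h, zero_smul]
        have h1 := v1 i
        rwa [succSum_last _ _ h, add_zero] at h1
      · rw [if_neg h]
        let j : Fin (n + 1) := ⟨(i : ℕ) + 1, by omega⟩
        have hj : (i : ℕ) + 1 = j := rfl
        have h1 := v1 i
        rw [succSum_succ _ j i hj, down (n - i - 1) j (by rw [← hj]; omega)] at h1
        rw [eq_neg_of_add_eq_zero_left h1, neg_neg]
    · by_cases h : (i : ℕ) = n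
      · rw [if_pos h, zero_smul]
        have h1 := v2 i
        rwa [succSum_last _ _ h, add_zero] at h1
      · rw [if_neg h]
        let j : Fin (n + 1) := ⟨(i : ℕ) + 1, by omega⟩
        have hj : (i : ℕ) + 1 = j := rfl
        have h1 := v2 i
        rw [succSum_succ _ j i hj, down (n - i - 1) j (by rw [← hj]; omega)] at h1
        rw [eq_neg_of_add_eq_zero_left h1, neg_neg]

end Sums

end Pool.Agent.Lib.MP_b5c453_co
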