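import Pool.Agent.Lib.MP_b5c453_co.Gadget

/-!
The cokernel of the double cover of a gadget graph.
-/

set_option autoImplicit false
set_option linter.unusedSectionVars false

open Finset

namespace Pool.Agent.Lib.MP_b5c453_co

section

variable {W : Type} [Fintype W] {H : SimpleGraph W} {u : W} {n : ℕ} {b : ℕ → Bool}

/-- solution vector on the gadget graph -/
def cg (c0 : W → ℤ) (u : W) (n : ℕ) (b : ℕ → Bool) : GV W n → ℤ
  | Sum.inl w => c0 w
  | Sum.inr (Sum.inl (i, t)) =>
      (if t = 0 then -((2 : ℤ) ^ (n - i)) else (if (i : ℕ) = n then 0 else (2 : ℤ) ^ (n - i - 1))) *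
        c0 u
  | Sum.inr (Sum.inr (i, t)) => (if t = 0 then -(hh b i) else hh b i) * c0 u

lemma hh_pred (b : ℕ → Bool) (i : ℕ) : hh b (i + 1) = 2 * hh b i + bv b (i + 1) := rfl

lemma sum_fin_digits {Q : Type} [AddCommGroup Q] (b : ℕ → Bool) (n : ℕ) (x : Q) :
    ∑ i : Fin (n + 1), (if b i then -((2 : ℤ) ^ (n - i) • x) else 0) = -(hh b n • x) := by
  have h1 : ∀ i : Fin (n + 1), (if b i then -((2 : ℤ) ^ (n - i) • x) else 0) =
      -((bv b i * 2 ^ (n - i)) • x) := by
    intro i
    rw [ite_bv, smul_neg, mul_smul]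
  rw [Finset.sum_congr rfl (fun i _ => h1 i), sum_neg_distrib, ← sum_smul, ← sum_digits b n,
    Fin.sum_univ_eq_sum_range (fun i => bv b i * 2 ^ (n - i)) (n + 1)]

open scoped Classical in
lemma cg_row (c0 : W → ℤ) (k : ℕ)
    (hrow : ∀ w, (k : ℤ) ∣ (∑ w', if H.Adj w w' then c0 w' else 0) +
      (if w = u then (-2 * hh b n) * c0 u else 0)) (x : GV W n) :
    (k : ℤ) ∣ ∑ y, if (gad H u n b).Adj x y then cg c0 u n b y else 0 := by
  rcases x with w | ⟨i, t⟩ | ⟨j, t⟩
  · rw [sum_ww]
    have h1 : (∑ i : Fin (n + 1), if b i then cg c0 u n b (Sum.inr (Sum.inl (i, 0))) else 0) =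
        -(hh b n * c0 u) := by
      have h2 := sum_fin_digits b n (c0 u)
      simp only [smul_eq_mul] at h2
      rw [← h2]
      refine sum_congr rfl fun i _ => ?_
      congr 1
      simp [cg]
    have h3 : cg c0 u n b (Sum.inr (Sum.inr (Fin.last n, 0))) = -(hh b n * c0 u) := by
      simp [cg]
    rw [h1, h3]
    have h4 := hrow w
    have h5 : (-(hh b n * c0 u) + -(hh b n * c0 u)) = (-2 * hh b n) * c0 u := by ring
    rw [h5]
    exact h4
  · have hz : (∑ y, if (gad H u n b).Adj (Sum.inr (Sum.inl (i, t))) y then cg c0 u n b y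
        else 0) = 0 := by
      fin_cases t
      · refine (sum_eq0 _ i).trans ?_
        rw [ite_bv]
        obtain ⟨i, hi⟩ := i
        rcases i with _ | i
        · rw [predSum_zero _ _ rfl]
          simp [cg, hh]
        · rw [predSum_succ _ ⟨i + 1, hi⟩ ⟨i, by omega⟩ rfl]
          simp only [cg, hh_pred, if_true, smul_eq_mul]
          simp
          ring
      · refine (sum_eq1 _ i).trans ?_
        simp [cg]
      · refine (sum_eq2 _ i).trans ?_
        simp [cg]
    rw [hz]
    exact dvd_zero _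
  · have hA : cg c0 u n b (Sum.inr (Sum.inl (j, 1))) +
        succSum (fun i => cg c0 u n b (Sum.inr (Sum.inl (i, 0)))) j = 0 := by
      by_cases hj : (j : ℕ) = n
      · rw [succSum_last _ _ hj]
        simp [cg, hj]
      · have hj2 := j.2
        rw [succSum_succ _ ⟨(j : ℕ) + 1, by omega⟩ j rfl]
        simp only [cg, if_true, hj, if_false]
        have h1 : n - (j : ℕ) - 1 = n - ((j : ℕ) + 1) := by omega
        rw [h1]
        simp
    have hB : cg c0 u n b (Sum.inr (Sum.inl (j, 2))) = cg c0 u n b (Sum.inr (Sum.inl (j, 1))) := by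
      simp [cg]
    have hz : (∑ y, if (gad H u n b).Adj (Sum.inr (Sum.inr (j, t))) y then cg c0 u n b y
        else 0) = 0 := by
      fin_cases t
      · refine (sum_va0 _ j).trans ?_
        rw [hB]
        by_cases hj : (j : ℕ) = n
        · rw [if_pos hj]
          simp [cg, hj]
        · have hj2 := j.2
          rw [if_neg hj]
          simp only [cg, if_true, hj, if_false]
          have h1 : n - (j : ℕ) = (n - (j : ℕ) - 1) + 1 := by omega
          rw [h1, pow_succ]
          simp
          ring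
      · exact (sum_va1 _ j).trans hA
      · refine (sum_va2 _ j).trans ?_
        rw [hB]
        exact hA
    rw [hz]
    exact dvd_zero _

open scoped Classical in
/-- vanishing of all functions whose sums over common neighbourhoods vanish -/
lemma gad_T (hpos : ∃ i ≤ n, b i = true)
    (hT : ∀ (Q : Type) [AddCommGroup Q] (f : W → Q),
      (∀ w w', ∑ x, (if H.Adj w x ∧ H.Adj w' x then f x else 0) = 0) → f u = 0 → ∀ x, f x = 0)
    (Q : Type) [AddCommGroup Q] (f : GV W n → Q)
    (hf : ∀ x x', ∑ y, (if (gad H u n b).Adj x y ∧ (gad H u n b).Adj x' y then f y else 0) = 0) :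
    ∀ y, f y = 0 := by
  have hself : ∀ x, ∑ y, (if (gad H u n b).Adj x y then f y else 0) = 0 := by
    intro x
    have h := hf x x
    simp only [and_self] at h
    exact h
  have va0 : ∀ i : Fin (n + 1), f (Sum.inr (Sum.inr (i, 0))) = 0 := fun i =>
    (int_eq12 f i).symm.trans (hf _ _)
  have va1 : ∀ i : Fin (n + 1), f (Sum.inr (Sum.inr (i, 1))) = 0 := by
    intro i
    have h := (sum_eq1 f i).symm.trans (hself _)
    rwa [va0, zero_add] at h
  have va2 : ∀ i : Fin (n + 1), f (Sum.inr (Sum.inr (i, 2))) = 0 := by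
    intro i
    have h := (sum_eq2 f i).symm.trans (hself _)
    rwa [va0, zero_add] at h
  have eq1 : ∀ i : Fin (n + 1), f (Sum.inr (Sum.inl (i, 1))) = 0 := fun i =>
    (int_va01 f i).symm.trans (hf _ _)
  have eq2 : ∀ i : Fin (n + 1), f (Sum.inr (Sum.inl (i, 2))) = 0 := fun i =>
    (int_va02 f i).symm.trans (hf _ _)
  have hu : f (Sum.inl u) = 0 := by
    obtain ⟨i, hi, hbi⟩ := hpos
    have h := (sum_eq0 f (⟨i, by omega⟩ : Fin (n + 1))).symm.trans (hself _)
    have h2 : predSum (fun j => f (Sum.inr (Sum.inr (j, 1))) + f (Sum.inr (Sum.inr (j, 2))))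
        (⟨i, by omega⟩ : Fin (n + 1)) = 0 := by
      unfold predSum
      refine Finset.sum_eq_zero fun j _ => ?_
      simp only [va1, va2, add_zero, ite_self]
    rw [h2, va0, add_zero, add_zero, if_pos hbi] at h
    exact h
  have eq0 : ∀ i : Fin (n + 1), f (Sum.inr (Sum.inl (i, 0))) = 0 := by
    intro i
    have h := (sum_va0 f i).symm.trans (hself _)
    rw [hu, eq1, eq2, ite_self, zero_add, add_zero, add_zero] at h
    exact h
  have hbase := hT Q (fun w => f (Sum.inl w)) ?_ hu
  · rintro (w | ⟨i, t⟩ | ⟨i, t⟩)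
    · exact hbase w
    · fin_cases t
      · exact eq0 i
      · exact eq1 i
      · exact eq2 i
    · fin_cases t
      · exact va0 i
      · exact va1 i
      · exact va2 i
  · intro w w'
    have h := (int_ww f w w').symm.trans (hf _ _)
    have h2 : (∑ i : Fin (n + 1), if b i then f (Sum.inr (Sum.inl (i, 0))) else 0) = 0 := by
      refine Finset.sum_eq_zero fun i _ => ?_
      rw [eq0, ite_self]
    rw [h2, va0, add_zero, ite_self, add_zero] at h
    exact h

open scoped Classical in
/-- The double cover of a gadget graph. -/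
theorem invRA_gad (w0 : W) (k : ℕ) (c0 : W → ℤ) (hc0 : c0 w0 = 1)
    (hpos : ∃ i ≤ n, b i = true)
    (hrow : ∀ w, (k : ℤ) ∣ (∑ w', if H.Adj w w' then c0 w' else 0) +
      (if w = u then (-2 * hh b n) * c0 u else 0))
    (hgen : ∀ (Q : Type) [AddCommGroup Q] (g : W → Q),
      (∀ w, (∑ w', if H.Adj w w' then g w' else 0) +
        (if w = u then (-2 * hh b n) • g u else 0) = 0) →
        (∀ x, g x = c0 x • g w0) ∧ (k : ℤ) • g w0 = 0)
    (hT : ∀ (Q : Type) [AddCommGroup Q] (f : W → Q),
      (∀ w w', ∑ x, (if H.Adj w x ∧ H.Adj w' x then f x else 0) = 0) → f u = 0 →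
        ∀ x, f x = 0) :
    InvRA k (dcov (gad H u n b)) := by
  refine invRA_dcov (gad H u n b) k (cg c0 u n b) (Sum.inl w0) hc0 (cg_row c0 k hrow) ?_
    (fun Q _ f hf => gad_T hpos hT Q f hf)
  intro Q _ g hg
  obtain ⟨hva, heq⟩ := solve_gadget g (fun x => hg (Sum.inr x))
  have hbase := hgen Q (fun w => g (Sum.inl w)) ?_
  · obtain ⟨h1, h2⟩ := hbase
    refine ⟨?_, h2⟩
    rintro (w | ⟨i, t⟩ | ⟨i, t⟩)
    · exact h1 w
    · obtain ⟨e0, e1, e2⟩ := heq i
      have hu : g (Sum.inl u) = c0 u • g (Sum.inl w0) := h1 u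
      fin_cases t
      · refine e0.trans ?_
        rw [hu, ← mul_smul, ← neg_smul]
        simp [cg]
      · refine e1.trans ?_
        rw [hu, ← mul_smul]
        simp [cg]
      · refine e2.trans ?_
        rw [hu, ← mul_smul]
        simp [cg]
    · obtain ⟨e0, e1, e2⟩ := hva i
      have hu : g (Sum.inl u) = c0 u • g (Sum.inl w0) := h1 u
      fin_cases t
      · refine e0.trans ?_
        rw [hu, ← mul_smul, ← neg_smul]
        simp [cg]
      · refine e1.trans ?_
        rw [hu, ← mul_smul]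
        simp [cg]
      · refine e2.trans ?_
        rw [hu, ← mul_smul]
        simp [cg]
  · intro w
    have h := (sum_ww g w).symm.trans (hg (Sum.inl w))
    have h2 : (∑ i : Fin (n + 1), if b i then g (Sum.inr (Sum.inl (i, 0))) else 0) =
        -(hh b n • g (Sum.inl u)) := by
      rw [← sum_fin_digits b n (g (Sum.inl u))]
      refine sum_congr rfl fun i _ => ?_
      rw [(heq i).1]
    have h3 := (hva (Fin.last n)).1
    rw [Fin.val_last] at h3
    rw [h2, h3] at h
    have h4 : (-(hh b n • g (Sum.inl u)) + -(hh b n • g (Sum.inl u))) =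
        (-2 * hh b n) • g (Sum.inl u) := by
      rw [mul_smul, neg_smul, two_smul, neg_add]
    rw [h4] at h
    exact h

end

end Pool.Agent.Lib.MP_b5c453_co
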