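import Pool.Agent.Lib.MP_b5c453_co.Cover

/-!
Double covers of friendship graphs (even `k`) and of wheels (odd `k`): `1/k`-RA graphs with a
triangle on `2 k + 4` vertices.
-/

set_option autoImplicit false

open Finset

namespace Pool.Agent.Lib.MP_b5c453_co

/-- The friendship graph: `f` triangles sharing the vertex `none`. -/
def friend (f : ℕ) : SimpleGraph (Option (Fin f × Bool)) where
  Adj
    | none, none => False
    | none, some _ => True
    | some _, none => True
    | some p, some q => p.1 = q.1 ∧ p.2 ≠ q.2
  symm := ⟨by
    rintro (_ | p) (_ | q) h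
    · exact h
    · trivial
    · trivial
    · exact ⟨h.1.symm, h.2.symm⟩⟩
  loopless := ⟨by
    rintro (_ | p) h
    · exact h
    · exact h.2 rfl⟩

open scoped Classical in
lemma friend_sum_some {Q : Type} [AddCommGroup Q] (f : ℕ) (g : Option (Fin f × Bool) → Q)
    (i : Fin f) (b : Bool) :
    ∑ y, (if (friend f).Adj (some (i, b)) y then g y else 0) = g none + g (some (i, !b)) := by
  rw [Fintype.sum_option]
  congr 1
  · exact if_pos trivial
  rw [Finset.sum_eq_single (i, !b)]
  · rw [if_pos]
    exact ⟨rfl, by cases b <;> simp⟩
  · rintro ⟨j, b'⟩ _ hne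
    rw [if_neg]
    rintro ⟨h1, h2⟩
    apply hne
    simp only at h1 h2
    subst h1
    cases b <;> cases b' <;> simp_all
  · intro h
    exact absurd (mem_univ _) h

open scoped Classical in
lemma friend_sum_none {Q : Type} [AddCommGroup Q] (f : ℕ) (g : Option (Fin f × Bool) → Q) :
    ∑ y, (if (friend f).Adj none y then g y else 0) = ∑ p, g (some p) := by
  rw [Fintype.sum_option]
  have e : (if (friend f).Adj none none then g none else 0) = 0 := if_neg (fun h => h)
  rw [e, zero_add]
  exact sum_congr rfl fun p _ => if_pos trivial

theorem invRA_friend (f : ℕ) (hf : 1 ≤ f) : InvRA (2 * f) (dcov (friend f)) := by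
  classical
  refine invRA_dcov (friend f) (2 * f) (fun y => if y = none then 1 else -1) none (by simp)
    ?_ ?_ ?_
  · rintro (_ | ⟨i, b⟩)
    · rw [friend_sum_none]
      refine ⟨-1, ?_⟩
      simp [Fintype.card_prod]
      ring
    · rw [friend_sum_some]
      simp
  · intro Q _ g hg
    have h1 : ∀ i b, g (some (i, b)) = - g none := by
      intro i b
      have h := hg (some (i, !b))
      rw [friend_sum_some, Bool.not_not] at h
      exact (neg_eq_of_add_eq_zero_right h).symm
    constructor
    · rintro (_ | ⟨i, b⟩)
      · simp
      · rw [h1]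
        simp
    · have h := hg none
      rw [friend_sum_none] at h
      have h2 : ∑ p : Fin f × Bool, g (some p) = - (((2 * f : ℕ) : ℤ) • g none) := by
        rw [Finset.sum_congr rfl (fun p _ => h1 p.1 p.2), sum_const, card_univ,
          Fintype.card_prod, Fintype.card_fin, Fintype.card_bool, smul_neg, mul_comm f 2,
          natCast_zsmul]
      rw [h2, neg_eq_zero] at h
      exact h
  · intro Q _ t ht
    have h1 : ∀ i b, t (some (i, b)) = 0 := by
      intro i b
      have h := ht (some (i, !b)) none
      rw [Fintype.sum_option] at h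
      have e : (if (friend f).Adj (some (i, !b)) none ∧ (friend f).Adj none none
          then t none else 0) = 0 := if_neg (fun h => h.2)
      rw [e, zero_add, Finset.sum_eq_single (i, b)] at h
      · rwa [if_pos] at h
        exact ⟨⟨rfl, by cases b <;> simp⟩, trivial⟩
      · rintro ⟨j, b'⟩ _ hne
        rw [if_neg]
        rintro ⟨⟨h1, h2⟩, _⟩
        apply hne
        simp only at h1 h2
        subst h1
        cases b <;> cases b' <;> simp_all
      · intro h
        exact absurd (mem_univ _) h
    rintro (_ | ⟨i, b⟩)
    · have h := ht (some (⟨0, hf⟩, true)) (some (⟨0, hf⟩, true))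
      simp only [and_self] at h
      rw [friend_sum_some, h1, add_zero] at h
      exact h
    · exact h1 i b

/-- The wheel: a cycle of length `k` and a hub `none`. -/
def wheel (k : ℕ) (hk : 2 ≤ k) : SimpleGraph (Option (ZMod k)) where
  Adj
    | none, none => False
    | none, some _ => True
    | some _, none => True
    | some i, some j => j = i + 1 ∨ i = j + 1
  symm := ⟨by
    rintro (_ | p) (_ | q) h
    · exact h
    · trivial
    · trivial
    · exact h.symm⟩
  loopless := ⟨by
    have : Fact (1 < k) := ⟨hk⟩
    rintro (_ | p) h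
    · exact h
    · rcases h with h | h <;> simp at h⟩

section Wheel

variable {k : ℕ}

lemma two_ne_zero_zmod (h5 : 5 ≤ k) : (2 : ZMod k) ≠ 0 := by
  intro h
  have h1 : ((2 : ℕ) : ZMod k) = 0 := by exact_mod_cast h
  rw [ZMod.natCast_eq_zero_iff] at h1
  exact absurd (Nat.le_of_dvd (by norm_num) h1) (by omega)

lemma three_ne_zero_zmod (h5 : 5 ≤ k) : (3 : ZMod k) ≠ 0 := by
  intro h
  have h1 : ((3 : ℕ) : ZMod k) = 0 := by exact_mod_cast h
  rw [ZMod.natCast_eq_zero_iff] at h1
  exact absurd (Nat.le_of_dvd (by norm_num) h1) (by omega)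

lemma four_ne_zero_zmod (h5 : 5 ≤ k) : (4 : ZMod k) ≠ 0 := by
  intro h
  have h1 : ((4 : ℕ) : ZMod k) = 0 := by exact_mod_cast h
  rw [ZMod.natCast_eq_zero_iff] at h1
  exact absurd (Nat.le_of_dvd (by norm_num) h1) (by omega)

open scoped Classical in
lemma wheel_sum_some [NeZero k] (h2k : 2 ≤ k) (h5 : 5 ≤ k) {Q : Type} [AddCommGroup Q]
    (g : Option (ZMod k) → Q) (i : ZMod k) :
    ∑ y, (if (wheel k h2k).Adj (some i) y then g y else 0) =
      g none + (g (some (i + 1)) + g (some (i - 1))) := by
  rw [Fintype.sum_option]
  congr 1
  · exact if_pos trivial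
  have hne : i + 1 ≠ i - 1 := by
    intro h
    apply two_ne_zero_zmod (k := k) h5
    have h1 : i + 1 - (i - 1) = 0 := sub_eq_zero.mpr h
    rw [← h1]
    ring
  have e : ∀ j : ZMod k, (if (wheel k h2k).Adj (some i) (some j) then g (some j) else 0) =
      (if j = i + 1 then g (some j) else 0) + (if j = i - 1 then g (some j) else 0) := by
    intro j
    by_cases h1 : j = i + 1
    · have hadj : (wheel k h2k).Adj (some i) (some j) := Or.inl h1
      rw [if_pos hadj, if_pos h1, if_neg (fun h => hne (h1.symm.trans h)), add_zero]
    · by_cases h2 : j = i - 1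
      · have hadj : (wheel k h2k).Adj (some i) (some j) := Or.inr (by rw [h2]; ring)
        rw [if_pos hadj, if_neg h1, if_pos h2, zero_add]
      · rw [if_neg, if_neg h1, if_neg h2, add_zero]
        rintro (h | h)
        · exact h1 h
        · exact h2 (by rw [h]; ring)
  rw [Finset.sum_congr rfl (fun j _ => e j), sum_add_distrib, Finset.sum_ite_eq',
    Finset.sum_ite_eq', if_pos (mem_univ _), if_pos (mem_univ _)]

open scoped Classical in
lemma wheel_sum_none [NeZero k] (h2k : 2 ≤ k) {Q : Type} [AddCommGroup Q]
    (g : Option (ZMod k) → Q) :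
    ∑ y, (if (wheel k h2k).Adj none y then g y else 0) = ∑ p, g (some p) := by
  rw [Fintype.sum_option]
  have e : (if (wheel k h2k).Adj none none then g none else 0) = 0 := if_neg (fun h => h)
  rw [e, zero_add]
  exact sum_congr rfl fun p _ => if_pos trivial

theorem invRA_wheel [NeZero k] (h2k : 2 ≤ k) (h5 : 5 ≤ k) (hodd : Odd k) :
    InvRA k (dcov (wheel k h2k)) := by
  classical
  refine invRA_dcov (wheel k h2k) k (fun y => if y = none then -2 else 1) (some 0) (by simp)
    ?_ ?_ ?_
  · rintro (_ | i)
    · rw [wheel_sum_none]
      refine ⟨1, ?_⟩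
      simp [ZMod.card]
    · rw [wheel_sum_some h2k h5]
      simp
  · intro Q _ g hg
    have h1 : ∀ i : ZMod k, g none + (g (some (i + 1)) + g (some (i - 1))) = 0 := by
      intro i
      have h := hg (some i)
      rwa [wheel_sum_some h2k h5] at h
    have h4 : ∀ i : ZMod k, g (some (i + 4)) = g (some i) := by
      intro i
      have ha := h1 (i + 1)
      have hb := h1 (i + 3)
      have e1 : i + 1 + 1 = i + 2 := by ring
      have e2 : i + 1 - 1 = i := by ring
      have e3 : i + 3 + 1 = i + 4 := by ring
      have e4 : i + 3 - 1 = i + 2 := by ring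
      rw [e1, e2] at ha
      rw [e3, e4] at hb
      have h5 : g none + (g (some (i + 4)) + g (some (i + 2))) =
          g none + (g (some (i + 2)) + g (some i)) := by rw [hb, ha]
      have h6 := add_left_cancel h5
      rw [add_comm] at h6
      exact add_left_cancel h6
    have hn : ∀ (n : ℕ) (i : ZMod k), g (some (i + n * 4)) = g (some i) := by
      intro n
      induction n with
      | zero => intro i; simp
      | succ n ih =>
        intro i
        have e : i + ((n + 1 : ℕ) : ZMod k) * 4 = (i + n * 4) + 4 := by push_cast; ring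
        rw [e, h4, ih]
    have hall : ∀ i : ZMod k, g (some i) = g (some 0) := by
      intro i
      have hcop : Nat.Coprime 4 k := by
        have : Nat.Coprime 2 k := Nat.coprime_two_left.mpr hodd
        have h := Nat.Coprime.pow_left 2 this
        norm_num at h
        exact h
      have hu : ((4 : ℕ) : ZMod k) * ((4 : ℕ) : ZMod k)⁻¹ = 1 := ZMod.coe_mul_inv_eq_one 4 hcop
      have h := hn (i * ((4 : ℕ) : ZMod k)⁻¹).val 0
      rw [ZMod.natCast_zmod_val, zero_add] at h
      have e : i * ((4 : ℕ) : ZMod k)⁻¹ * 4 = i := by
        have e2 : i * ((4 : ℕ) : ZMod k)⁻¹ * 4 = i * (((4 : ℕ) : ZMod k) * ((4 : ℕ) : ZMod k)⁻¹) := by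
          push_cast
          ring
        rw [e2, hu, mul_one]
      rw [e] at h
      exact h
    have hhub : g none = (-2 : ℤ) • g (some 0) := by
      have h := h1 0
      rw [hall, hall (0 - 1)] at h
      rw [neg_smul, two_zsmul]
      exact eq_neg_of_add_eq_zero_left h
    constructor
    · rintro (_ | i)
      · simpa using hhub
      · rw [hall i]
        simp
    · have h := hg none
      rw [wheel_sum_none, Finset.sum_congr rfl (fun p _ => hall p), sum_const, card_univ,
        ZMod.card] at h
      rw [natCast_zsmul]
      exact h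
  · intro Q _ t ht
    have hhub : t none = 0 := by
      have h := ht (some 0) (some 1)
      rw [Fintype.sum_option, if_pos ⟨trivial, trivial⟩, Finset.sum_eq_zero, add_zero] at h
      · exact h
      · intro j _
        rw [if_neg]
        rintro ⟨h1, h2⟩
        rcases h1 with h1 | h1 <;> rcases h2 with h2 | h2
        · rw [h2] at h1
          apply (three_ne_zero_zmod (k := k) h5)
          exfalso
          have h3 : (1 : ZMod k) = 0 := by
            have : (1 : ZMod k) + 1 - (0 + 1) = 0 := sub_eq_zero.mpr h1
            simpa using this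
          have : Fact (1 < k) := ⟨by omega⟩
          exact one_ne_zero h3
        · rw [h1] at h2
          have : Fact (1 < k) := ⟨by omega⟩
          have h3 : (1 : ZMod k) = 0 := by
            have h4 : (0 + 1 + 1 : ZMod k) - 1 = 0 := sub_eq_zero.mpr h2.symm
            rw [← h4]
            ring
          exact one_ne_zero h3
        · rw [h2] at h1
          apply three_ne_zero_zmod (k := k) h5
          have h4 : (3 : ZMod k) = 1 + 1 + 1 := by ring
          rw [h4]
          exact h1.symm
        · have : Fact (1 < k) := ⟨by omega⟩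
          rw [← h1] at h2
          exact one_ne_zero h2
    rintro (_ | i)
    · exact hhub
    · have h := ht (some (i + 1)) (some (i - 1))
      rw [Fintype.sum_option, if_pos ⟨trivial, trivial⟩, hhub, zero_add,
        Finset.sum_eq_single i] at h
      · rwa [if_pos] at h
        exact ⟨Or.inr rfl, Or.inl (by ring)⟩
      · intro j _ hj
        rw [if_neg]
        rintro ⟨h1, h2⟩
        rcases h1 with h1 | h1
        · rcases h2 with h2 | h2
          · apply two_ne_zero_zmod (k := k) h5
            have h3 : i + 1 + 1 - (i - 1 + 1) = 0 := sub_eq_zero.mpr (h1.symm.trans h2)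
            rw [← h3]
            ring
          · apply four_ne_zero_zmod (k := k) h5
            have h3 : i - 1 - (i + 1 + 1 + 1) = 0 := by
              rw [h2, h1]
              ring
            have h4 : (4 : ZMod k) = -(i - 1 - (i + 1 + 1 + 1)) := by ring
            rw [h4, h3, neg_zero]
        · exact hj (add_right_cancel h1).symm
      · intro h
        exact absurd (mem_univ _) h

end Wheel

end Pool.Agent.Lib.MP_b5c453_co
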