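import Pool.Agent.Lib.MP_b5c453_co.Gadget2

/-!
`m k ≤ 12 * Nat.log 2 k + 10` for all `k ≥ 2`.
-/

set_option autoImplicit false

open Finset

namespace Pool.Agent.Lib.MP_b5c453_co

lemma hh_congr (b b' : ℕ → Bool) (n : ℕ) (h : ∀ i ≤ n, b i = b' i) : hh b n = hh b' n := by
  induction n with
  | zero => simp [hh, bv, h 0 le_rfl]
  | succ n ih =>
    simp only [hh, bv]
    rw [ih (fun i hi => h i (by omega)), h (n + 1) le_rfl]

lemma exists_digits (n : ℕ) : ∀ c : ℕ, c < 2 ^ (n + 1) → ∃ b : ℕ → Bool, hh b n = c := by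
  induction n with
  | zero =>
    intro c hc
    refine ⟨fun _ => decide (c = 1), ?_⟩
    have : c = 0 ∨ c = 1 := by omega
    rcases this with rfl | rfl <;> simp [hh, bv]
  | succ n ih =>
    intro c hc
    obtain ⟨b, hb⟩ := ih (c / 2) (by rw [pow_succ] at hc; omega)
    refine ⟨fun i => if i ≤ n then b i else decide (c % 2 = 1), ?_⟩
    have h1 : hh (fun i => if i ≤ n then b i else decide (c % 2 = 1)) n = hh b n :=
      hh_congr _ _ _ (fun i hi => by simp [hi])
    simp only [hh, h1, hb, bv]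
    have h2 : ¬ (n + 1 ≤ n) := by omega
    simp only [h2, if_false, decide_eq_true_eq]
    split_ifs with h3 <;> omega

lemma exists_digit_pos (b : ℕ → Bool) (n : ℕ) (h : hh b n ≠ 0) : ∃ i ≤ n, b i = true := by
  by_contra hcon
  push Not at hcon
  apply h
  rw [hh_congr b (fun _ => false) n (fun i hi => by simpa using hcon i hi)]
  clear h hcon
  induction n with
  | zero => simp [hh, bv]
  | succ n ih => simp [hh, bv, ih]

lemma card_GV (W : Type) [Fintype W] (n : ℕ) :
    Fintype.card (Option (GV W n) × Bool) = 2 * (Fintype.card W + 6 * (n + 1) + 1) := by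
  rw [card_dcov]
  simp only [GV, Fintype.card_sum, Fintype.card_prod, Fintype.card_fin]
  omega

lemma dcov_gad_triangle {W : Type} (H : SimpleGraph W) (u : W) (n : ℕ) (b : ℕ → Bool) :
    ¬ (dcov (gad H u n b)).CliqueFree 3 :=
  dcov_triangle _ (Sum.inr (Sum.inl (0, 0))) (Sum.inr (Sum.inl (0, 1)))
    (by simp) (fun h => h)

/-- base graph for `k = 4 c - 1`: a path edge `0 - 1` and a triangle `1, 2, 3` -/
def base3 : SimpleGraph (Fin 4) where
  Adj i j := (i = 0 ∧ j = 1) ∨ (i = 1 ∧ j = 0) ∨ (i ≠ 0 ∧ j ≠ 0 ∧ i ≠ j)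
  symm := ⟨by decide⟩
  loopless := ⟨by decide⟩

instance : DecidableRel base3.Adj := fun i j => by
  unfold base3
  infer_instance

/-- base graph for `k = 4 c + 1`: an edge `0 - 1` and a pentagon `1, 2, 3, 4, 5` -/
def base5 : SimpleGraph (Fin 6) where
  Adj i j := (i = 0 ∧ j = 1) ∨ (i = 1 ∧ j = 0) ∨ (i = 1 ∧ j = 2) ∨ (i = 2 ∧ j = 1) ∨
    (i = 2 ∧ j = 3) ∨ (i = 3 ∧ j = 2) ∨ (i = 3 ∧ j = 4) ∨ (i = 4 ∧ j = 3) ∨
    (i = 4 ∧ j = 5) ∨ (i = 5 ∧ j = 4) ∨ (i = 5 ∧ j = 1) ∨ (i = 1 ∧ j = 5)
  symm := ⟨by decide⟩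
  loopless := ⟨by decide⟩

instance : DecidableRel base5.Adj := fun i j => by
  unfold base5
  infer_instance

/-- the possible numbers of vertices of `1/k`-RA graphs with a triangle -/
def sizes (k : ℕ) : Set ℕ := {n : ℕ | ∃ (V : Type) (_ : Fintype V) (G : SimpleGraph V),
    Fintype.card V = n ∧ ¬ G.CliqueFree 3 ∧ InvRA k G}

lemma m_eq (k : ℕ) : m k = sInf (sizes k) := rfl

open scoped Classical in
lemma m_le_even (c : ℕ) (hc : 1 ≤ c) : ∃ N ∈ sizes (2 * c), N ≤ 12 * (Nat.log 2 c + 1) + 4 := by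
  obtain ⟨b, hb⟩ := exists_digits (Nat.log 2 c) c (Nat.lt_pow_succ_log_self (by norm_num) c)
  refine ⟨_, ⟨Option (GV Unit (Nat.log 2 c)) × Bool, inferInstance,
    dcov (gad (⊥ : SimpleGraph Unit) () (Nat.log 2 c) b), rfl,
    dcov_gad_triangle _ _ _ _, ?_⟩, ?_⟩
  · refine invRA_gad () (2 * c) (fun _ => 1) rfl (exists_digit_pos b _ ?_) ?_ ?_ ?_
    · rw [hb]
      exact_mod_cast (by omega : c ≠ 0)
    · intro w
      rw [hb]
      simp
    · intro Q _ g hg
      have h := hg ()
      rw [hb] at h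
      simp at h
      refine ⟨fun x => by simp, ?_⟩
      push_cast
      exact h
    · intro Q _ f _ hf x
      exact hf
  · rw [card_GV]
    simp
    omega

open scoped Classical in
lemma m_le_odd3 (c : ℕ) (hc : 1 ≤ c) :
    ∃ N ∈ sizes (4 * c - 1), N ≤ 12 * (Nat.log 2 c + 1) + 10 := by
  obtain ⟨b, hb⟩ := exists_digits (Nat.log 2 c) c (Nat.lt_pow_succ_log_self (by norm_num) c)
  refine ⟨_, ⟨Option (GV (Fin 4) (Nat.log 2 c)) × Bool, inferInstance,
    dcov (gad base3 0 (Nat.log 2 c) b), rfl,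
    dcov_gad_triangle _ _ _ _, ?_⟩, ?_⟩
  · have a00 : ¬ base3.Adj 0 0 := by decide
    have a01 : base3.Adj 0 1 := by decide
    have a02 : ¬ base3.Adj 0 2 := by decide
    have a03 : ¬ base3.Adj 0 3 := by decide
    have a10 : base3.Adj 1 0 := by decide
    have a11 : ¬ base3.Adj 1 1 := by decide
    have a12 : base3.Adj 1 2 := by decide
    have a13 : base3.Adj 1 3 := by decide
    have a20 : ¬ base3.Adj 2 0 := by decide
    have a21 : base3.Adj 2 1 := by decide
    have a22 : ¬ base3.Adj 2 2 := by decide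
    have a23 : base3.Adj 2 3 := by decide
    have a30 : ¬ base3.Adj 3 0 := by decide
    have a31 : base3.Adj 3 1 := by decide
    have a32 : base3.Adj 3 2 := by decide
    have a33 : ¬ base3.Adj 3 3 := by decide
    refine invRA_gad 1 (4 * c - 1) ![2, 1, -1, -1] rfl (exists_digit_pos b _ ?_) ?_ ?_ ?_
    · rw [hb]
      exact_mod_cast (by omega : c ≠ 0)
    · intro w
      rw [hb, Fin.sum_univ_four]
      have hcast : ((4 * c - 1 : ℕ) : ℤ) = 4 * c - 1 := by
        rw [Nat.cast_sub (by omega)]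
        push_cast
        ring
      rw [hcast]
      fin_cases w
      · simp [a00, a01, a02, a03]
        refine ⟨-1, by ring⟩
      · simp [a10, a11, a12, a13]
      · simp [a20, a21, a22, a23]
      · simp [a30, a31, a32, a33]
    · intro Q _ g hg
      have h0 := hg 0
      have h1 := hg 1
      have h2 := hg 2
      have h3 := hg 3
      rw [hb, Fin.sum_univ_four] at h0 h1 h2 h3
      simp [a00, a01, a02, a03] at h0
      simp [a10, a11, a12, a13] at h1
      simp [a20, a21, a22, a23] at h2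
      simp [a30, a31, a32, a33] at h3
      have e3 : g 3 = (-1 : ℤ) • g 1 := by
        rw [neg_smul, one_smul]
        exact (neg_eq_of_add_eq_zero_right h2).symm
      have e2 : g 2 = (-1 : ℤ) • g 1 := by
        rw [neg_smul, one_smul]
        exact (neg_eq_of_add_eq_zero_right h3).symm
      have e0 : g 0 = (2 : ℤ) • g 1 := by
        rw [e2, e3, add_assoc] at h1
        rw [eq_neg_of_add_eq_zero_left h1]
        simp [two_smul]
      refine ⟨fun x => ?_, ?_⟩
      · fin_cases x
        · exact e0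
        · simp
        · exact e2
        · exact e3
      · rw [e0, ← mul_smul, ← sub_eq_add_neg] at h0
        have hcast : ((4 * c - 1 : ℕ) : ℤ) = 2 * c * 2 - 1 := by
          rw [Nat.cast_sub (by omega)]
          push_cast
          ring
        rw [hcast, sub_smul, one_smul, sub_eq_zero]
        exact (sub_eq_zero.mp h0).symm
    · intro Q _ f hf hf0 x
      have h1 := hf 1 1
      have h2 := hf 2 2
      have h3 := hf 3 3
      have h0 := hf 0 0
      rw [Fin.sum_univ_four] at h0 h1 h2 h3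
      simp [a00, a01, a02, a03] at h0
      simp [a10, a11, a12, a13] at h1
      simp [a20, a21, a22, a23] at h2
      simp [a30, a31, a32, a33] at h3
      rw [h0, zero_add] at h2 h3
      fin_cases x
      · exact hf0
      · exact h0
      · exact h3
      · exact h2
  · rw [card_GV]
    simp
    omega

open scoped Classical in
lemma m_le_odd5 (c : ℕ) (hc : 1 ≤ c) :
    ∃ N ∈ sizes (4 * c + 1), N ≤ 12 * (Nat.log 2 c + 1) + 14 := by
  obtain ⟨b, hb⟩ := exists_digits (Nat.log 2 c) c (Nat.lt_pow_succ_log_self (by norm_num) c)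
  refine ⟨_, ⟨Option (GV (Fin 6) (Nat.log 2 c)) × Bool, inferInstance,
    dcov (gad base5 0 (Nat.log 2 c) b), rfl,
    dcov_gad_triangle _ _ _ _, ?_⟩, ?_⟩
  · have A : ∀ i j : Fin 6, base5.Adj i j ↔ ((i = 0 ∧ j = 1) ∨ (i = 1 ∧ j = 0) ∨
      (i = 1 ∧ j = 2) ∨ (i = 2 ∧ j = 1) ∨ (i = 2 ∧ j = 3) ∨ (i = 3 ∧ j = 2) ∨
      (i = 3 ∧ j = 4) ∨ (i = 4 ∧ j = 3) ∨ (i = 4 ∧ j = 5) ∨ (i = 5 ∧ j = 4) ∨
      (i = 5 ∧ j = 1) ∨ (i = 1 ∧ j = 5)) := fun _ _ => Iff.rfl
    refine invRA_gad 1 (4 * c + 1) ![-2, 1, 1, -1, -1, 1] rfl (exists_digit_pos b _ ?_) ?_ ?_ ?_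
    · rw [hb]
      exact_mod_cast (by omega : c ≠ 0)
    · intro w
      rw [hb, Fin.sum_univ_six]
      fin_cases w
      · simp [A]
        refine ⟨1, by ring⟩
      · simp [A]
      · simp [A]
      · simp [A]
      · simp [A]
      · simp [A]
    · intro Q _ g hg
      have h0 := hg 0
      have h1 := hg 1
      have h2 := hg 2
      have h3 := hg 3
      have h4 := hg 4
      have h5 := hg 5
      rw [hb, Fin.sum_univ_six] at h0 h1 h2 h3 h4 h5
      simp [A] at h0
      simp [A] at h1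
      simp [A] at h2
      simp [A] at h3
      simp [A] at h4
      simp [A] at h5
      have e3 : g 3 = - g 1 := (neg_eq_of_add_eq_zero_right h2).symm
      have e4 : g 4 = - g 1 := (neg_eq_of_add_eq_zero_right h5).symm
      have e2 : g 2 = g 1 := by
        rw [e4, ← sub_eq_add_neg, sub_eq_zero] at h3
        exact h3
      have e5 : g 5 = g 1 := by
        rw [e3, neg_add_eq_zero] at h4
        exact h4.symm
      have e0 : g 0 = (-2 : ℤ) • g 1 := by
        rw [e2, e5, add_assoc] at h1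
        rw [eq_neg_of_add_eq_zero_left h1, neg_smul, two_smul]
      refine ⟨fun x => ?_, ?_⟩
      · fin_cases x
        · exact e0
        · simp
        · simpa using e2
        · simpa using e3
        · simpa using e4
        · simpa using e5
      · rw [e0, ← mul_smul, ← neg_smul] at h0
        have hcast : ((4 * c + 1 : ℕ) : ℤ) = 1 + -(2 * c * -2) := by
          push_cast
          ring
        rw [hcast, add_smul, one_smul]
        exact h0
    · intro Q _ f hf hf0 x
      have h0 := hf 0 0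
      have h1 := hf 1 1
      have h2 := hf 2 2
      have h3 := hf 3 3
      have h4 := hf 4 4
      have h5 := hf 5 5
      rw [Fin.sum_univ_six] at h0 h1 h2 h3 h4 h5
      simp [A] at h0
      simp [A] at h1
      simp [A] at h2
      simp [A] at h3
      simp [A] at h4
      simp [A] at h5
      rw [h0, zero_add] at h2 h5
      rw [h5, add_zero] at h3
      rw [h2, zero_add] at h4
      fin_cases x
      · exact hf0
      · exact h0
      · exact h3
      · exact h2
      · exact h5
      · exact h4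
  · rw [card_GV]
    simp
    omega

/-- The logarithmic upper bound. -/
theorem exists_size_le_log (k : ℕ) (hk : 2 ≤ k) :
    ∃ N ∈ sizes k, N ≤ 12 * Nat.log 2 k + 10 := by
  rcases Nat.even_or_odd' k with ⟨c, rfl | rfl⟩
  · obtain ⟨N, hN, h⟩ := m_le_even c (by omega)
    have h2 : Nat.log 2 (2 * c) = Nat.log 2 c + 1 := by
      rw [mul_comm]
      exact Nat.log_mul_base (by norm_num) (by omega)
    refine ⟨N, hN, ?_⟩
    rw [h2]
    omega
  · rcases Nat.even_or_odd' c with ⟨d, rfl | rfl⟩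
    · obtain ⟨N, hN, h⟩ := m_le_odd5 d (by omega)
      have h2 : Nat.log 2 (4 * d) = Nat.log 2 d + 2 := by
        have h4 : 4 * d = d * 2 * 2 := by ring
        rw [h4, Nat.log_mul_base (by norm_num) (by omega),
          Nat.log_mul_base (by norm_num) (by omega)]
      have h3 : Nat.log 2 (4 * d) ≤ Nat.log 2 (2 * (2 * d) + 1) :=
        Nat.log_mono_right (by omega)
      have h5 : 2 * (2 * d) + 1 = 4 * d + 1 := by ring
      rw [h5] at h3 ⊢
      exact ⟨N, hN, by omega⟩
    · obtain ⟨N, hN, h⟩ := m_le_odd3 (d + 1) (by omega)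
      have h2 : Nat.log 2 ((d + 1) * 2) = Nat.log 2 (d + 1) + 1 :=
        Nat.log_mul_base (by norm_num) (by omega)
      have h3 : Nat.log 2 ((d + 1) * 2) ≤ Nat.log 2 (2 * (2 * d + 1) + 1) :=
        Nat.log_mono_right (by omega)
      have h5 : 4 * (d + 1) - 1 = 2 * (2 * d + 1) + 1 := by omega
      rw [h5] at hN
      exact ⟨N, hN, by omega⟩

/-- The logarithmic upper bound for `m`. -/
theorem m_le_log (k : ℕ) (hk : 2 ≤ k) : m k ≤ 12 * Nat.log 2 k + 10 := by
  obtain ⟨N, hN, h⟩ := exists_size_le_log k hk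
  exact (Nat.sInf_le hN).trans h

end Pool.Agent.Lib.MP_b5c453_co
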