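import Pool.Agent.Lib.MP_b5c453_co.LogUpper

/-!
Lower bound: a `1/k`-RA graph on `n` vertices has `k ≤ n!`.
-/

set_option autoImplicit false

open Finset Matrix

namespace Pool.Agent.Lib.MP_b5c453_co

/-- every element of the row lattice has coordinate divisible by `k` at the special index -/
lemma repr_dvd {V : Type*} [Fintype V] {G : SimpleGraph V} {k : ℕ}
    (b : Module.Basis V ℤ (V → ℤ)) (x₀ : V)
    (hb : rowLattice G = Submodule.span ℤ ({r | ∃ x : V, x ≠ x₀ ∧ r = b x} ∪ {(k : ℤ) • b x₀})) :
    ∀ y ∈ rowLattice G, (k : ℤ) ∣ b.repr y x₀ := by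
  intro y hy
  rw [hb] at hy
  refine Submodule.span_induction ?_ ?_ ?_ ?_ hy
  · rintro r (⟨x, hx, rfl⟩ | hr)
    · simp [hx]
    · rw [Set.mem_singleton_iff] at hr
      subst hr
      rw [map_smul, Finsupp.smul_apply, Module.Basis.repr_self, Finsupp.single_eq_same,
        smul_eq_mul, mul_one]
  · simp
  · intro y z _ _ hy hz
    rw [map_add, Finsupp.add_apply]
    exact dvd_add hy hz
  · intro a y _ hy
    rw [map_smul, Finsupp.smul_apply, smul_eq_mul]
    exact Dvd.dvd.mul_left hy a

/-- every multiple of `k` lies in the row lattice -/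
lemma smul_mem_rowLattice {V : Type*} [Fintype V] {G : SimpleGraph V} {k : ℕ}
    (h : InvRA k G) (y : V → ℤ) : (k : ℤ) • y ∈ rowLattice G := by
  obtain ⟨b, x₀, hb⟩ := h
  rw [hb, ← b.sum_repr y, smul_sum]
  refine Submodule.sum_mem _ fun x _ => ?_
  by_cases hx : x = x₀
  · subst hx
    rw [smul_comm]
    exact Submodule.smul_mem _ _ (Submodule.subset_span (Or.inr rfl))
  · exact Submodule.smul_mem _ _ (Submodule.smul_mem _ _
      (Submodule.subset_span (Or.inl ⟨x, hx, rfl⟩)))

/-- `k` divides a nonzero determinant of rows of the RA matrix -/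
lemma exists_det {V : Type} [Fintype V] [DecidableEq V] {G : SimpleGraph V} {k : ℕ}
    (hk : 1 ≤ k) (h : InvRA k G) :
    ∃ M : Matrix V V ℤ, (∀ i j, M i j = 0 ∨ M i j = 1) ∧ M.det ≠ 0 ∧ (k : ℤ) ∣ M.det := by
  set S : Set (V → ℤ) := {r | ∃ u v : V, r = indVec (closedNbhd G u ∩ closedNbhd G v)} with hS
  let ι : (V → ℤ) → (V → ℚ) := fun y x => (y x : ℚ)
  have hspan : (⊤ : Submodule ℚ (V → ℚ)) ≤ Submodule.span ℚ (ι '' S) := by
    have h1 : ∀ y ∈ rowLattice G, ι y ∈ Submodule.span ℚ (ι '' S) := by
      intro y hy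
      unfold rowLattice at hy
      refine Submodule.span_induction ?_ ?_ ?_ ?_ hy
      · intro r hr
        exact Submodule.subset_span ⟨r, hr, rfl⟩
      · have : ι 0 = 0 := by
          funext x
          simp [ι]
        rw [this]
        exact Submodule.zero_mem _
      · intro y z _ _ hy hz
        have : ι (y + z) = ι y + ι z := by
          funext x
          simp [ι]
        rw [this]
        exact Submodule.add_mem _ hy hz
      · intro a y _ hy
        have : ι (a • y) = (a : ℚ) • ι y := by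
          funext x
          simp [ι]
        rw [this]
        exact Submodule.smul_mem _ _ hy
    have h2 : ∀ x : V, (Pi.single x 1 : V → ℚ) ∈ Submodule.span ℚ (ι '' S) := by
      intro x
      have h3 := h1 _ (smul_mem_rowLattice h (Pi.single x 1))
      have h4 : ι ((k : ℤ) • (Pi.single x 1 : V → ℤ)) = (k : ℚ) • (Pi.single x 1 : V → ℚ) := by
        funext z
        by_cases hz : z = x
        · subst hz
          simp [ι]
        · simp [ι, hz]
      rw [h4] at h3
      have h5 := Submodule.smul_mem _ ((k : ℚ)⁻¹) h3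
      have hk0 : (k : ℚ) ≠ 0 := by
        have : k ≠ 0 := by omega
        exact_mod_cast this
      rwa [← mul_smul, inv_mul_cancel₀ hk0, one_smul] at h5
    intro y _
    have h3 : y = ∑ x, y x • (Pi.single x 1 : V → ℚ) := by
      funext z
      simp [Finset.sum_apply, Pi.single_apply]
    rw [h3]
    exact Submodule.sum_mem _ fun x _ => Submodule.smul_mem _ _ (h2 x)
  let B := Module.Basis.ofSpan hspan
  have hBS : Set.range B ⊆ ι '' S := Module.Basis.ofSpan_subset hspan
  let e := (Pi.basisFun ℚ V).indexEquiv B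
  have hr : ∀ v : V, ∃ r : V → ℤ, r ∈ S ∧ ι r = B (e v) := by
    intro v
    obtain ⟨r, hr, hr2⟩ := hBS ⟨e v, rfl⟩
    exact ⟨r, hr, hr2⟩
  choose r hrS hrB using hr
  refine ⟨Matrix.of fun i j => r j i, ?_, ?_, ?_⟩
  · intro i j
    obtain ⟨u, v, huv⟩ := hrS j
    simp only [Matrix.of_apply, huv, indVec]
    split_ifs
    · right; rfl
    · left; rfl
  · intro h0
    have h1 : ((Matrix.of fun i j => r j i : Matrix V V ℤ).map (Int.castRingHom ℚ)).det = 0 := by
      rw [← RingHom.mapMatrix_apply, ← RingHom.map_det, h0, map_zero]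
    have h2 : ((Matrix.of fun i j => r j i : Matrix V V ℤ).map (Int.castRingHom ℚ)) =
        (Pi.basisFun ℚ V).toMatrix (B.reindex e.symm) := by
      ext i j
      have := congrFun (hrB j) i
      simp only [Matrix.map_apply, Matrix.of_apply, Module.Basis.toMatrix_apply,
        Module.Basis.coe_reindex, Function.comp, Equiv.symm_symm, Pi.basisFun_repr]
      rw [← this]
      simp [ι]
    rw [h2] at h1
    have h3 : IsUnit ((Pi.basisFun ℚ V).toMatrix (B.reindex e.symm)) := by
      letI := (Pi.basisFun ℚ V).invertibleToMatrix (B.reindex e.symm)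
      exact isUnit_of_invertible _
    rw [Matrix.isUnit_iff_isUnit_det, h1] at h3
    exact not_isUnit_zero h3
  · obtain ⟨b, x₀, hb⟩ := h
    have h1 : (Matrix.of fun i j => r j i : Matrix V V ℤ) =
        (Pi.basisFun ℤ V).toMatrix b * b.toMatrix r := by
      rw [Module.Basis.toMatrix_mul_toMatrix]
      ext i j
      simp [Module.Basis.toMatrix_apply]
    rw [h1, Matrix.det_mul]
    refine Dvd.dvd.mul_left ?_ _
    have h2 : ∀ j, (k : ℤ) ∣ b.toMatrix r x₀ j := by
      intro j
      rw [Module.Basis.toMatrix_apply]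
      exact repr_dvd b x₀ hb _ (Submodule.subset_span (hrS j))
    choose c hc using h2
    have h3 : b.toMatrix r = (b.toMatrix r).updateRow x₀ ((k : ℤ) • c) := by
      ext i j
      by_cases hi : i = x₀
      · subst hi
        rw [Matrix.updateRow_self, hc]
        rfl
      · rw [Matrix.updateRow_ne hi]
    rw [h3, Matrix.det_updateRow_smul]
    exact Dvd.intro _ rfl

/-- a `1/k`-RA graph on `n` vertices satisfies `k ≤ n!` -/
theorem InvRA.le_factorial {V : Type} [Fintype V] {G : SimpleGraph V} {k : ℕ}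
    (hk : 1 ≤ k) (h : InvRA k G) : k ≤ (Fintype.card V).factorial := by
  classical
  obtain ⟨M, h01, hdet, hdvd⟩ := exists_det hk h
  have h1 : |M.det| ≤ (Fintype.card V).factorial • (1 : ℤ) ^ Fintype.card V := by
    refine Matrix.det_le (abv := AbsoluteValue.abs) (x := (1 : ℤ)) fun i j => ?_
    rcases h01 i j with h | h <;> rw [h] <;> simp
  rw [one_pow, nsmul_eq_mul, mul_one] at h1
  have h2 : (k : ℤ) ≤ |M.det| := by
    have := Int.le_of_dvd (abs_pos.mpr hdet) ((dvd_abs _ _).mpr hdvd)
    exact this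
  exact_mod_cast h2.trans h1

/-- The lower bound `k ≤ (m k)!`. -/
theorem le_factorial_m (k : ℕ) (hk : 2 ≤ k) : k ≤ (m k).factorial := by
  obtain ⟨N, hN, _⟩ := exists_size_le_log k hk
  obtain ⟨V, hV, G, hcard, _, hG⟩ := Nat.sInf_mem (⟨N, hN⟩ : (sizes k).Nonempty)
  have := InvRA.le_factorial (by omega) hG
  rw [m_eq]
  rwa [hcard] at this

end Pool.Agent.Lib.MP_b5c453_co
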