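import Pool.Agent.Lib.MP_b5c453_co.Cover

/-!
Pyramids over crown graphs: the pyramid over `Cr(2n)` is `1/(n-2)`-RA for `n ≥ 3`.
-/

set_option autoImplicit false

open Finset

namespace Pool.Agent.Lib.MP_b5c453_co

/-- closed neighbourhoods in the pyramid over the crown graph, at a crown vertex -/
lemma mem_closed_pyr (n : ℕ) (p q : Fin n × Bool) :
    some q ∈ closedNbhd (pyramid (crown n)) (some p) ↔ (q.1 = p.1 ↔ q.2 = p.2) := by
  unfold closedNbhd
  constructor
  · rintro (h | h)
    · rw [Option.some_inj] at h
      subst h
      exact ⟨fun _ => rfl, fun _ => rfl⟩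
    · have h' : p.1 ≠ q.1 ∧ p.2 ≠ q.2 := h
      exact ⟨fun h1 => absurd h1.symm h'.1, fun h1 => absurd h1.symm h'.2⟩
  · intro h
    by_cases h1 : q.1 = p.1
    · left
      rw [Prod.ext h1 (h.mp h1)]
    · right
      exact ⟨fun h2 => h1 h2.symm, fun h2 => h1 (h.mpr h2.symm)⟩

lemma mem_closed_pyr_none (n : ℕ) (p : Fin n × Bool) :
    none ∈ closedNbhd (pyramid (crown n)) (some p) := by
  unfold closedNbhd
  exact Or.inr trivial

lemma mem_closed_pyr_apex (n : ℕ) (x : Option (Fin n × Bool)) :
    x ∈ closedNbhd (pyramid (crown n)) none := by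
  unfold closedNbhd
  rcases x with _ | x
  · exact Or.inl rfl
  · exact Or.inr trivial

/-- the coefficient function: `0` at the apex, `± 1` on the two sides -/
def cpyr (n : ℕ) : Option (Fin n × Bool) → ℤ
  | none => 0
  | some p => sg p.2

lemma sum_side (n : ℕ) (i : Fin n) (s : Bool) :
    ∑ j : Fin n, (if j = i then sg s else - sg s) = sg s * (2 - n) := by
  have e : ∀ j : Fin n, (if j = i then sg s else - sg s) =
      - sg s + (if j = i then 2 * sg s else 0) := by
    intro j
    split_ifs <;> ring
  rw [Finset.sum_congr rfl (fun j _ => e j), sum_add_distrib, Finset.sum_ite_eq',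
    if_pos (mem_univ _), sum_const, card_univ, Fintype.card_fin]
  simp
  ring

lemma sign_aux (P Q : Prop) [Decidable P] [Decidable Q] (s t : Bool)
    [Decidable ((P ↔ true = s) ∧ (Q ↔ true = t))]
    [Decidable ((P ↔ false = s) ∧ (Q ↔ false = t))] :
    2 * (sg true * (if ((P ↔ true = s) ∧ (Q ↔ true = t)) then (1 : ℤ) else 0) +
      sg false * (if ((P ↔ false = s) ∧ (Q ↔ false = t)) then (1 : ℤ) else 0)) =
      (if P then sg s else - sg s) + (if Q then sg t else - sg t) := by
  by_cases h1 : P <;> by_cases h2 : Q <;> cases s <;> cases t <;> simp [h1, h2, sg]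

lemma pyr_row (n : ℕ) (hn : 2 ≤ n) (u v : Option (Fin n × Bool)) :
    ((n - 2 : ℕ) : ℤ) ∣ ∑ x, cpyr n x *
      indVec (closedNbhd (pyramid (crown n)) u ∩ closedNbhd (pyramid (crown n)) v) x := by
  classical
  have hcast : ((n - 2 : ℕ) : ℤ) = (n : ℤ) - 2 := by
    push_cast [Nat.cast_sub hn]
    ring
  rw [hcast, Fintype.sum_option]
  have h0 : cpyr n none * indVec (closedNbhd (pyramid (crown n)) u ∩
      closedNbhd (pyramid (crown n)) v) none = 0 := by simp [cpyr]
  rw [h0, zero_add, Fintype.sum_prod_type]
  -- reduce to crown vertices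
  rcases u with _ | p <;> rcases v with _ | q
  · have : ∀ j : Fin n, ∑ t : Bool, cpyr n (some (j, t)) *
        indVec (closedNbhd (pyramid (crown n)) none ∩
          closedNbhd (pyramid (crown n)) none) (some (j, t)) = 0 := by
      intro j
      rw [Fintype.sum_bool]
      unfold indVec
      simp [mem_closed_pyr_apex, cpyr, sg]
    rw [Finset.sum_congr rfl (fun j _ => this j)]
    simp
  · have : ∀ j : Fin n, ∑ t : Bool, cpyr n (some (j, t)) *
        indVec (closedNbhd (pyramid (crown n)) none ∩
          closedNbhd (pyramid (crown n)) (some q)) (some (j, t)) =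
        (if j = q.1 then sg q.2 else - sg q.2) := by
      intro j
      rw [Fintype.sum_bool]
      unfold indVec
      simp only [Set.mem_inter_iff, mem_closed_pyr_apex, mem_closed_pyr, true_and, cpyr]
      obtain ⟨q1, q2⟩ := q
      by_cases h : j = q1 <;> cases q2 <;> simp [h, sg]
    rw [Finset.sum_congr rfl (fun j _ => this j), sum_side]
    exact ⟨- sg q.2, by ring⟩
  · have : ∀ j : Fin n, ∑ t : Bool, cpyr n (some (j, t)) *
        indVec (closedNbhd (pyramid (crown n)) (some p) ∩
          closedNbhd (pyramid (crown n)) none) (some (j, t)) =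
        (if j = p.1 then sg p.2 else - sg p.2) := by
      intro j
      rw [Fintype.sum_bool]
      unfold indVec
      simp only [Set.mem_inter_iff, mem_closed_pyr_apex, mem_closed_pyr, and_true, cpyr]
      obtain ⟨q1, q2⟩ := p
      by_cases h : j = q1 <;> cases q2 <;> simp [h, sg]
    rw [Finset.sum_congr rfl (fun j _ => this j), sum_side]
    exact ⟨- sg p.2, by ring⟩
  · have key : 2 * ∑ j : Fin n, ∑ t : Bool, cpyr n (some (j, t)) *
        indVec (closedNbhd (pyramid (crown n)) (some p) ∩
          closedNbhd (pyramid (crown n)) (some q)) (some (j, t)) =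
        sg p.2 * (2 - n) + sg q.2 * (2 - n) := by
      rw [← sum_side n p.1 p.2, ← sum_side n q.1 q.2, ← sum_add_distrib, mul_sum]
      refine sum_congr rfl fun j _ => ?_
      rw [Fintype.sum_bool]
      unfold indVec
      simp only [Set.mem_inter_iff, mem_closed_pyr, cpyr]
      exact sign_aux (j = p.1) (j = q.1) p.2 q.2
    generalize (∑ j : Fin n, ∑ t : Bool, cpyr n (some (j, t)) *
        indVec (closedNbhd (pyramid (crown n)) (some p) ∩
          closedNbhd (pyramid (crown n)) (some q)) (some (j, t))) = S at key ⊢
    obtain ⟨p1, p2⟩ := p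
    obtain ⟨q1, q2⟩ := q
    cases p2 <;> cases q2
    · exact ⟨1, by simp only [sg] at key; norm_num at key; linarith⟩
    · exact ⟨0, by simp only [sg] at key; norm_num at key; linarith⟩
    · exact ⟨0, by simp only [sg] at key; norm_num at key; linarith⟩
    · exact ⟨-1, by simp only [sg] at key; norm_num at key; linarith⟩

open scoped Classical in
theorem invRA_pyramid (n : ℕ) (hn : 3 ≤ n) : InvRA (n - 2) (pyramid (crown n)) := by
  set R := rowLattice (pyramid (crown n)) with hR
  let g : Option (Fin n × Bool) → ((Option (Fin n × Bool) → ℤ) ⧸ R) :=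
    fun x => R.mkQ (Pi.single x 1)
  have rel : ∀ u v : Option (Fin n × Bool),
      ∑ x, (if x ∈ closedNbhd (pyramid (crown n)) u ∩ closedNbhd (pyramid (crown n)) v
        then g x else 0) = 0 := fun u v => quot_rel (pyramid (crown n)) u v
  let z : Fin n := ⟨0, by omega⟩
  -- apex
  have h0 : g none = 0 := by
    have h := rel (some (z, true)) (some (z, false))
    rw [Fintype.sum_option, if_pos ⟨mem_closed_pyr_none _ _, mem_closed_pyr_none _ _⟩,
      Finset.sum_eq_zero, add_zero] at h
    · exact h
    · rintro ⟨j, t⟩ _
      rw [if_neg]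
      rw [Set.mem_inter_iff, mem_closed_pyr, mem_closed_pyr]
      by_cases h : j = z <;> cases t <;> simp [h]
  -- edges
  have h1 : ∀ i j : Fin n, i ≠ j → ∀ s, g (some (i, s)) + g (some (j, !s)) = 0 := by
    intro i j hij s
    have h := rel (some (i, s)) (some (j, !s))
    rw [Fintype.sum_option, h0, ite_self, zero_add] at h
    have e : ∀ x : Fin n × Bool,
        (if some x ∈ closedNbhd (pyramid (crown n)) (some (i, s)) ∩
          closedNbhd (pyramid (crown n)) (some (j, !s)) then g (some x) else 0) =
        (if x = (i, s) then g (some x) else 0) + (if x = (j, !s) then g (some x) else 0) := by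
      rintro ⟨l, t⟩
      simp only [Set.mem_inter_iff, mem_closed_pyr]
      by_cases ha : l = i
      · subst ha
        cases s <;> cases t <;> simp [hij]
      · by_cases hb : l = j
        · subst hb
          cases s <;> cases t <;> simp [ha]
        · cases s <;> cases t <;> simp [ha, hb]
    rw [Finset.sum_congr rfl (fun x _ => e x), sum_add_distrib, Finset.sum_ite_eq',
      Finset.sum_ite_eq', if_pos (mem_univ _), if_pos (mem_univ _)] at h
    exact h
  have h2 : ∀ i : Fin n, ∀ s, g (some (i, s)) = g (some (z, s)) := by
    intro i s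
    obtain ⟨l, hl1, hl2⟩ : ∃ l : Fin n, l ≠ i ∧ l ≠ z := by
      by_cases hi : i = z ∨ (i : ℕ) ≠ 1
      · refine ⟨⟨1, by omega⟩, ?_, ?_⟩
        · rcases hi with hi | hi
          · rw [hi]
            intro h
            have := congrArg Fin.val h
            simp [z] at this
          · intro h
            exact hi (by rw [← h])
        · intro h
          have := congrArg Fin.val h
          simp [z] at this
      · push Not at hi
        refine ⟨⟨2, by omega⟩, ?_, ?_⟩
        · intro h
          have := congrArg Fin.val h
          simp only at this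
          omega
        · intro h
          have := congrArg Fin.val h
          simp [z] at this
    have ha := h1 i l hl1.symm s
    have hb := h1 z l hl2.symm s
    rw [← hb] at ha
    exact add_right_cancel ha
  have h3 : g (some (z, false)) = - g (some (z, true)) := by
    let o : Fin n := ⟨1, by omega⟩
    have hzo : z ≠ o := by
      intro h
      have := congrArg Fin.val h
      simp [z, o] at this
    have h := h1 z o hzo false
    rw [Bool.not_false, h2 o true] at h
    exact eq_neg_of_add_eq_zero_left h
  have hall : ∀ x, g x = cpyr n x • g (some (z, true)) := by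
    rintro (_ | ⟨i, s⟩)
    · rw [h0]
      simp [cpyr]
    · rw [h2 i s]
      cases s
      · rw [h3]
        simp [cpyr, sg]
      · simp [cpyr, sg]
  have hk : ((n - 2 : ℕ) : ℤ) • g (some (z, true)) = 0 := by
    have h := rel (some (z, true)) (some (z, true))
    rw [Fintype.sum_option, h0, ite_self, zero_add, Fintype.sum_prod_type] at h
    have e : ∀ j : Fin n, ∑ t : Bool, (if some (j, t) ∈ closedNbhd (pyramid (crown n))
        (some (z, true)) ∩ closedNbhd (pyramid (crown n)) (some (z, true))
        then g (some (j, t)) else 0) =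
        (if j = z then sg true else - sg true) • g (some (z, true)) := by
      intro j
      rw [Fintype.sum_bool]
      simp only [Set.mem_inter_iff, mem_closed_pyr, and_self]
      by_cases hj : j = z
      · simp [hj, sg]
      · rw [h2 j true, h2 j false, h3]
        simp [hj, sg]
    rw [Finset.sum_congr rfl (fun j _ => e j), ← sum_smul, sum_side] at h
    have e2 : sg true * (2 - (n : ℤ)) = - ((n - 2 : ℕ) : ℤ) := by
      push_cast [Nat.cast_sub (show 2 ≤ n by omega)]
      simp [sg]
    rw [e2, neg_smul, neg_eq_zero] at h
    exact h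
  refine invRA_of_criterion (pyramid (crown n)) (n - 2) (cpyr n) (some (z, true)) ?_ ?_ ?_ ?_
  · simp [cpyr, sg]
  · exact pyr_row n (by omega)
  · intro x
    have h := hall x
    rw [← sub_eq_zero] at h
    have h2 : R.mkQ (Pi.single x 1 - (cpyr n x) •
        (Pi.single (some (z, true)) 1 : Option (Fin n × Bool) → ℤ)) = 0 := by
      rw [map_sub, map_smul]
      exact h
    rwa [Submodule.mkQ_apply, Submodule.Quotient.mk_eq_zero] at h2
  · have h2 : R.mkQ (((n - 2 : ℕ) : ℤ) •
        (Pi.single (some (z, true)) 1 : Option (Fin n × Bool) → ℤ)) = 0 := by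
      rw [map_smul]
      exact hk
    rwa [Submodule.mkQ_apply, Submodule.Quotient.mk_eq_zero] at h2

/-- For `1/k`-RA graphs, `k` times any vector lies in the row lattice. -/
theorem InvRA.smul_mem {V : Type*} [Fintype V] {G : SimpleGraph V} {k : ℕ}
    (hk : InvRA k G) (y : V → ℤ) : (k : ℤ) • y ∈ rowLattice G := by
  classical
  obtain ⟨b, x₀, hb⟩ := hk
  rw [hb, ← b.sum_repr y, smul_sum]
  refine Submodule.sum_mem _ fun x _ => ?_
  by_cases hx : x = x₀
  · subst hx
    rw [smul_comm]
    exact Submodule.smul_mem _ _ (Submodule.subset_span (Or.inr rfl))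
  · exact Submodule.smul_mem _ _ (Submodule.smul_mem _ _
      (Submodule.subset_span (Or.inl ⟨x, hx, rfl⟩)))

/-- The pyramid over `Cr(4)` is not `1/k`-RA for any `k ≥ 1`. -/
theorem not_invRA_pyramid_two (k : ℕ) (hk : 1 ≤ k) : ¬ InvRA k (pyramid (crown 2)) := by
  classical
  intro h
  have h1 := h.smul_mem (Pi.single (some (0, true)) 1)
  -- the functional `y ↦ y (0, true) - y (1, false)` vanishes on the row lattice
  have h2 : ∀ y ∈ rowLattice (pyramid (crown 2)),
      y (some (0, true)) - y (some (1, false)) = 0 := by
    intro y hy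
    unfold rowLattice at hy
    refine Submodule.span_induction ?_ ?_ ?_ ?_ hy
    · rintro r ⟨u, v, rfl⟩
      have hmem : ∀ w : Option (Fin 2 × Bool),
          (some ((0 : Fin 2), true) ∈ closedNbhd (pyramid (crown 2)) w ↔
            some ((1 : Fin 2), false) ∈ closedNbhd (pyramid (crown 2)) w) := by
        rintro (_ | ⟨i, s⟩)
        · simp [mem_closed_pyr_apex]
        · rw [mem_closed_pyr, mem_closed_pyr]
          fin_cases i <;> cases s <;> simp
      unfold indVec
      simp only [Set.mem_inter_iff, hmem u, hmem v, sub_self]
    · simp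
    · intro y z _ _ hy hz
      simp only [Pi.add_apply]
      linarith
    · intro a y _ hy
      simp only [Pi.smul_apply, smul_eq_mul]
      rw [← mul_sub, hy, mul_zero]
  have h3 := h2 _ h1
  have e : (some ((1 : Fin 2), false) : Option (Fin 2 × Bool)) ≠ some (0, true) := by simp
  simp only [Pi.smul_apply, Pi.single_eq_same, Pi.single_eq_of_ne e, smul_eq_mul, mul_one,
    mul_zero, sub_zero] at h3
  omega

/-- The pyramids over `Cr(0)` and `Cr(2)` are RA. -/
theorem invRA_pyramid_small (n : ℕ) (hn : n ≤ 1) : InvRA 1 (pyramid (crown n)) := by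
  classical
  have hsingle : ∀ x : Option (Fin n × Bool),
      (Pi.single x 1 : Option (Fin n × Bool) → ℤ) ∈ rowLattice (pyramid (crown n)) := by
    have hsub : ∀ i j : Fin n, i = j := fun i j => Fin.ext (by omega)
    have hnone : (Pi.single none 1 : Option (Fin n × Bool) → ℤ) ∈
        rowLattice (pyramid (crown n)) := by
      by_cases h0 : n = 0
      · subst h0
        refine Submodule.subset_span ⟨none, none, ?_⟩
        funext x
        rcases x with _ | ⟨i, _⟩
        · unfold indVec
          simp [mem_closed_pyr_apex]
        · exact i.elim0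
      · have hn1 : n = 1 := by omega
        subst hn1
        refine Submodule.subset_span ⟨some (0, true), some (0, false), ?_⟩
        funext x
        rcases x with _ | ⟨i, t⟩
        · unfold indVec
          simp [mem_closed_pyr_none]
        · unfold indVec
          rw [Pi.single_eq_of_ne (by simp), if_neg]
          rw [Set.mem_inter_iff, mem_closed_pyr, mem_closed_pyr]
          have : i = 0 := hsub i 0
          cases t <;> simp [this]
    rintro (_ | ⟨i, s⟩)
    · exact hnone
    · have h1 : (indVec (closedNbhd (pyramid (crown n)) (some (i, s)) ∩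
          closedNbhd (pyramid (crown n)) (some (i, s)))) ∈ rowLattice (pyramid (crown n)) :=
        Submodule.subset_span ⟨_, _, rfl⟩
      have h2 : (Pi.single (some (i, s)) 1 : Option (Fin n × Bool) → ℤ) =
          indVec (closedNbhd (pyramid (crown n)) (some (i, s)) ∩
          closedNbhd (pyramid (crown n)) (some (i, s))) - Pi.single none 1 := by
        funext x
        rcases x with _ | ⟨j, t⟩
        · unfold indVec
          simp [mem_closed_pyr_none]
        · have hj : j = i := hsub j i
          subst hj
          rw [Pi.sub_apply, Pi.single_eq_of_ne (M := fun _ => ℤ) (show some (j, t) ≠ none by simp)]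
          unfold indVec
          simp only [Set.mem_inter_iff, mem_closed_pyr, and_self, true_iff, sub_zero]
          by_cases hts : t = s
          · subst hts
            simp
          · rw [if_neg hts, Pi.single_eq_of_ne]
            intro h
            apply hts
            have := congrArg (fun o : Option (Fin n × Bool) => o.map Prod.snd) h
            simpa using this
      rw [h2]
      exact Submodule.sub_mem _ h1 hnone
  refine invRA_of_criterion (pyramid (crown n)) 1 (fun _ => 1) none rfl ?_ ?_ ?_
  · intro u v
    simp
  · intro x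
    exact Submodule.sub_mem _ (hsingle x) (Submodule.smul_mem _ _ (hsingle none))
  · exact Submodule.smul_mem _ _ (hsingle none)

/-- The pyramid over `Cr(2n)` is `1/k`-RA with `k ≥ 2` only for `n = k + 2`. -/
theorem pyramid_iff (k n : ℕ) (hk : 2 ≤ k) : InvRA k (pyramid (crown n)) ↔ n = k + 2 := by
  constructor
  · intro h
    rcases Nat.lt_or_ge n 3 with hn | hn
    · exfalso
      rcases Nat.lt_or_ge n 2 with hn2 | hn2
      · have := h.unique (invRA_pyramid_small n (by omega))
        omega
      · have hn3 : n = 2 := by omega
        subst hn3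
        exact not_invRA_pyramid_two k (by omega) h
    · have := h.unique (invRA_pyramid n hn)
      omega
  · rintro rfl
    exact invRA_pyramid (k + 2) (by omega)

end Pool.Agent.Lib.MP_b5c453_co
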